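import Mathlib

set_option autoImplicit false

/-!
# Certificate for sign vectors of configurations of six vectors in three-space

Sets of sign vectors of length `21` are stored as natural numbers with `2 ^ 21` binary digits.
-/

namespace Run7.h861

/-- number of sign bits -/
def nb : Nat := 21

/-- all ones on `2 ^ m` digits -/
def full (m : Nat) : Nat := 2 ^ (2 ^ m) - 1

/-- `x` repeated twice with shift `w` -/
def dup (x w : Nat) : Nat := x ||| (x <<< w)

/-- the set of codes `c < 2 ^ m` having bit `i` -/
def col : Nat → Nat → Nat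
  | 0, _ => 0
  | m + 1, i => if i = m then (full m) <<< (2 ^ m) else dup (col m i) (2 ^ m)

/-- column with the constant bit at position `21` -/
def colx (i : Nat) : Nat := if i = 21 then full 21 else col 21 i

/-- a term: (negated, first factor, second factor) -/
abbrev Term := Bool × Nat × Nat

/-- the 33 three term relations -/
def rels : List (Term × Term × Term) :=
  [((false, 0, 7), (true, 1, 5), (false, 2, 4)),
   ((false, 0, 8), (true, 1, 6), (false, 3, 4)),
   ((false, 0, 9), (true, 2, 6), (false, 3, 5)),
   ((false, 1, 9), (true, 2, 8), (false, 3, 7)),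
   ((false, 4, 9), (true, 5, 8), (false, 6, 7)),
   ((true, 0, 13), (false, 1, 11), (true, 2, 10)),
   ((true, 0, 14), (false, 1, 12), (true, 3, 10)),
   ((true, 0, 15), (false, 2, 12), (true, 3, 11)),
   ((true, 1, 15), (false, 2, 14), (true, 3, 13)),
   ((false, 10, 15), (true, 11, 14), (false, 12, 13)),
   ((false, 0, 16), (true, 4, 11), (false, 5, 10)),
   ((false, 0, 17), (true, 4, 12), (false, 6, 10)),
   ((false, 0, 18), (true, 5, 12), (false, 6, 11)),
   ((true, 4, 18), (false, 5, 17), (true, 6, 16)),
   ((true, 10, 18), (false, 11, 17), (true, 12, 16)),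
   ((true, 1, 16), (false, 4, 13), (true, 7, 10)),
   ((true, 1, 17), (false, 4, 14), (true, 8, 10)),
   ((false, 1, 19), (true, 7, 14), (false, 8, 13)),
   ((false, 4, 19), (true, 7, 17), (false, 8, 16)),
   ((false, 10, 19), (true, 13, 17), (false, 14, 16)),
   ((false, 2, 16), (true, 5, 13), (false, 7, 11)),
   ((true, 2, 18), (false, 5, 15), (true, 9, 11)),
   ((true, 2, 19), (false, 7, 15), (true, 9, 13)),
   ((true, 5, 19), (false, 7, 18), (true, 9, 16)),
   ((true, 11, 19), (false, 13, 18), (true, 15, 16)),
   ((false, 3, 17), (true, 6, 14), (false, 8, 12)),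
   ((false, 3, 18), (true, 6, 15), (false, 9, 12)),
   ((false, 3, 19), (true, 8, 15), (false, 9, 14)),
   ((false, 6, 19), (true, 8, 18), (false, 9, 17)),
   ((false, 12, 19), (true, 14, 18), (false, 15, 17)),
   ((false, 20, 21), (true, 1, 18), (false, 0, 19)),
   ((false, 20, 21), (false, 3, 16), (true, 2, 17)),
   ((false, 20, 21), (false, 9, 10), (true, 4, 15))]

/-- the slopes of the `21` quantities: products of two factors -/
def slopes : Nat → List (Nat × Nat)
  | 0 => [(1, 21)]
  | 1 => [(4, 21), (2, 21)]
  | 2 => [(5, 21), (3, 21)]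
  | 3 => [(6, 21)]
  | 4 => [(10, 21), (5, 21)]
  | 5 => [(11, 21), (7, 21), (6, 21)]
  | 6 => [(12, 21), (8, 21)]
  | 7 => [(13, 21), (8, 21)]
  | 8 => [(14, 21), (9, 21)]
  | 9 => [(15, 21)]
  | 10 => [(11, 21)]
  | 11 => [(13, 21), (12, 21)]
  | 12 => [(14, 21)]
  | 13 => [(16, 21), (14, 21)]
  | 14 => [(17, 21), (15, 21)]
  | 15 => [(18, 21)]
  | 16 => [(17, 21)]
  | 17 => [(18, 21)]
  | 18 => [(19, 21)]
  | 19 => []
  | 20 => [(4, 18), (2, 18)]
  | _ => []

/-- mask of codes where the term is negative -/
def negMask (t : Term) : Nat :=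
  if t.1 then (colx t.2.1 ^^^ colx t.2.2) ^^^ full 21 else colx t.2.1 ^^^ colx t.2.2

/-- mask of codes where the three terms do not all have the same sign -/
def relMask (r : Term × Term × Term) : Nat :=
  (negMask r.1 ^^^ negMask r.2.1) ||| (negMask r.2.1 ^^^ negMask r.2.2)

def validMask : Nat := rels.foldl (fun acc r => acc &&& relMask r) (full 21)

/-- codes for which some slope of quantity `i` is negative -/
def vneg (i : Nat) : Nat := (slopes i).foldl (fun acc p => acc ||| (colx p.1 ^^^ colx p.2)) 0
/-- codes for which some slope of quantity `i` is positive -/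
def vpos (i : Nat) : Nat :=
  (slopes i).foldl (fun acc p => acc ||| ((colx p.1 ^^^ colx p.2) ^^^ full 21)) 0

def up (i : Nat) : Nat := (vpos i &&& validMask) &&& (col 21 i ^^^ full 21)
def dn (i : Nat) : Nat := (vneg i &&& validMask) &&& col 21 i

/-- codes from which a flip of quantity `i` leads into `S` -/
def pre (i S : Nat) : Nat := (up i &&& (S >>> (2 ^ i))) ||| (dn i &&& (S <<< (2 ^ i)))

def stepI (S i : Nat) : Nat := S ||| pre i S

def idxs : List Nat := [1, 2, 3, 4, 5, 6, 7, 8, 9, 10, 11, 12, 13, 14, 15, 16, 17, 18, 19, 20]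

def sweep (S : Nat) : Nat := idxs.foldl stepI S

def sweeps : Nat → Nat → Nat
  | 0, S => S
  | k + 1, S => sweeps k (sweep S)

def nxt (S : Nat) : Nat := sweeps 4 (pre 0 S)

def chk : Nat → Nat → Bool
  | 0, S => S == 0
  | l + 1, S => (sweep S == S) && chk l (nxt S)

set_option maxRecDepth 100000 in
theorem chk_ok : chk 10 validMask = true := by decide +kernel

end Run7.h861
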