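import Mathlib
import Pool.Agent.Run7.h861.Cert

set_option autoImplicit false

/-!
# Meaning of the masks of the certificate
-/

namespace Run7.h861

/-- sign bit, with the constant bit at position `21` -/
def sb (c i : Nat) : Bool := if i = 21 then true else c.testBit i

def negB (c : Nat) (t : Term) : Bool := (sb c t.2.1 ^^ sb c t.2.2) ^^ t.1

def relB (c : Nat) (r : Term × Term × Term) : Bool :=
  (negB c r.1 ^^ negB c r.2.1) || (negB c r.2.1 ^^ negB c r.2.2)

def validC (c : Nat) : Bool := rels.all (relB c)

def vnegB (c i : Nat) : Bool := (slopes i).any (fun p => sb c p.1 ^^ sb c p.2)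
def vposB (c i : Nat) : Bool := (slopes i).any (fun p => !(sb c p.1 ^^ sb c p.2))

theorem testBit_full (m c : Nat) : (full m).testBit c = decide (c < 2 ^ m) := by
  simp [full]

theorem testBit_dup (x w c : Nat) :
    (dup x w).testBit c = (x.testBit c || (decide (w ≤ c) && x.testBit (c - w))) := by
  simp [dup]

theorem testBit_col (m i c : Nat) :
    (col m i).testBit c = (decide (c < 2 ^ m) && c.testBit i) := by
  induction m generalizing i c with
  | zero =>
    simp only [col, Nat.zero_testBit, pow_zero, Nat.lt_one_iff]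
    by_cases hc : c = 0 <;> simp [hc]
  | succ m ih =>
    have hp : 2 ^ (m + 1) = 2 ^ m + 2 ^ m := by ring
    by_cases him : i = m
    · subst him
      rw [col, if_pos rfl, Nat.testBit_shiftLeft, testBit_full]
      by_cases h1 : 2 ^ i ≤ c
      · by_cases h2 : c < 2 ^ (i + 1)
        · have h3 : c - 2 ^ i < 2 ^ i := by omega
          have h4 : c.testBit i = true := by
            rw [Nat.testBit_of_two_pow_le_and_two_pow_add_one_gt h1 h2]
          simp [h1, h2, h3, h4]
        · have h3 : ¬ (c - 2 ^ i < 2 ^ i) := by omega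
          simp [h1, h2, h3]
      · have h4 : c.testBit i = false := Nat.testBit_lt_two_pow (by omega)
        simp [h1, h4]
    · rw [col, if_neg him, testBit_dup, ih, ih]
      by_cases h1 : c < 2 ^ m
      · have h2 : ¬ (2 ^ m ≤ c) := by omega
        have h3 : c < 2 ^ (m + 1) := by omega
        simp [h1, h2, h3]
      · have h2 : 2 ^ m ≤ c := by omega
        by_cases h3 : c < 2 ^ (m + 1)
        · have h4 : c - 2 ^ m < 2 ^ m := by omega
          simp only [h1, h2, h3, h4, decide_true, decide_false, Bool.false_and, Bool.true_and,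
            Bool.false_or]
          rcases Nat.lt_or_gt_of_ne him with hlt | hgt
          · obtain ⟨d, rfl⟩ : ∃ d, c = 2 ^ m + d := ⟨c - 2 ^ m, by omega⟩
            rw [Nat.add_sub_cancel_left, Nat.testBit_two_pow_add_gt hlt]
          · have e1 : c.testBit i = false := Nat.testBit_lt_two_pow
              (lt_of_lt_of_le h3 (Nat.pow_le_pow_right (by norm_num) hgt))
            have e2 : (c - 2 ^ m).testBit i = false := Nat.testBit_lt_two_pow
              (lt_of_lt_of_le (lt_of_le_of_lt (Nat.sub_le _ _) h3)
                (Nat.pow_le_pow_right (by norm_num) hgt))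
            rw [e1, e2]
        · have h4 : ¬ (c - 2 ^ m < 2 ^ m) := by omega
          simp [h1, h3, h4]

theorem testBit_colx {c : Nat} (hc : c < 2 ^ 21) (i : Nat) : (colx i).testBit c = sb c i := by
  unfold colx sb
  split_ifs
  · rw [testBit_full]; simpa using hc
  · rw [testBit_col]
    have : decide (c < 2 ^ 21) = true := by simpa using hc
    rw [this, Bool.true_and]

theorem testBit_full21 {c : Nat} (hc : c < 2 ^ 21) : (full 21).testBit c = true := by
  rw [testBit_full]; simpa using hc

theorem testBit_negMask {c : Nat} (hc : c < 2 ^ 21) (t : Term) :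
    (negMask t).testBit c = negB c t := by
  unfold negMask negB
  split_ifs with h
  · simp only [Nat.testBit_xor, testBit_colx hc, testBit_full21 hc, h]
  · simp only [Nat.testBit_xor, testBit_colx hc]
    cases h' : t.1 <;> simp_all

theorem testBit_relMask {c : Nat} (hc : c < 2 ^ 21) (r : Term × Term × Term) :
    (relMask r).testBit c = relB c r := by
  unfold relMask relB
  simp only [Nat.testBit_or, Nat.testBit_xor, testBit_negMask hc]

theorem testBit_foldl_and {α : Type} (f : α → Nat) (g : α → Bool) (c : Nat) (L : List α)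
    (h : ∀ x, (f x).testBit c = g x) (a : Nat) :
    (L.foldl (fun acc r => acc &&& f r) a).testBit c = (a.testBit c && L.all g) := by
  induction L generalizing a with
  | nil => simp
  | cons x L ih => simp only [List.foldl_cons, ih, Nat.testBit_and, h, List.all_cons, Bool.and_assoc]

theorem testBit_foldl_or {α : Type} (f : α → Nat) (g : α → Bool) (c : Nat) (L : List α)
    (h : ∀ x, (f x).testBit c = g x) (a : Nat) :
    (L.foldl (fun acc r => acc ||| f r) a).testBit c = (a.testBit c || L.any g) := by
  induction L generalizing a with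
  | nil => simp
  | cons x L ih => simp only [List.foldl_cons, ih, Nat.testBit_or, h, List.any_cons, Bool.or_assoc]

theorem testBit_validMask {c : Nat} (hc : c < 2 ^ 21) : validMask.testBit c = validC c := by
  unfold validMask validC
  rw [testBit_foldl_and _ (relB c) c _ (testBit_relMask hc), testBit_full21 hc, Bool.true_and]

theorem testBit_vneg {c : Nat} (hc : c < 2 ^ 21) (i : Nat) : (vneg i).testBit c = vnegB c i := by
  unfold vneg vnegB
  rw [testBit_foldl_or _ (fun p => sb c p.1 ^^ sb c p.2) c]
  · simp
  · intro x; simp only [Nat.testBit_xor, testBit_colx hc]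

theorem testBit_vpos {c : Nat} (hc : c < 2 ^ 21) (i : Nat) : (vpos i).testBit c = vposB c i := by
  unfold vpos vposB
  rw [testBit_foldl_or _ (fun p => !(sb c p.1 ^^ sb c p.2)) c]
  · simp
  · intro x; simp only [Nat.testBit_xor, testBit_colx hc, testBit_full21 hc, Bool.xor_true]

/-- flipping quantity `i` from `c` to `d` is allowed -/
def Edge (i c d : Nat) : Prop :=
  validC c = true ∧
    ((c.testBit i = false ∧ d = c + 2 ^ i ∧ vposB c i = true) ∨
     (c.testBit i = true ∧ c = d + 2 ^ i ∧ vnegB c i = true))

theorem testBit_pre_of_edge {i c d : Nat} (hi : i < 21) (hc : c < 2 ^ 21) (h : Edge i c d) {S : Nat}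
    (hd : S.testBit d = true) : (pre i S).testBit c = true := by
  obtain ⟨hv, h | h⟩ := h
  · obtain ⟨h1, h2, h3⟩ := h
    unfold pre up
    simp only [Nat.testBit_or, Nat.testBit_and, testBit_vpos hc, testBit_validMask hc,
      Nat.testBit_xor, testBit_full21 hc, Nat.testBit_shiftRight, testBit_col, hv, h1, h3]
    rw [Nat.add_comm (2 ^ i) c, ← h2, hd]
    simp
  · obtain ⟨h1, h2, h3⟩ := h
    unfold pre dn
    simp only [Nat.testBit_or, Nat.testBit_and, testBit_vneg hc, testBit_validMask hc,
      Nat.testBit_xor, testBit_full21 hc, Nat.testBit_shiftLeft, testBit_col, hv, h1, h3]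
    have e1 : c - 2 ^ i = d := by omega
    have e2 : 2 ^ i ≤ c := by omega
    have e3 : decide (c < 2 ^ 21) = true := by simpa using hc
    rw [e1, hd, e3]
    simp [e2]

/-- bitwise inclusion -/
def Sub (S T : Nat) : Prop := ∀ c, S.testBit c = true → T.testBit c = true

theorem Sub.refl (S : Nat) : Sub S S := fun _ h => h
theorem Sub.trans {S T U : Nat} (h1 : Sub S T) (h2 : Sub T U) : Sub S U := fun c h => h2 c (h1 c h)

theorem pre_mono (i : Nat) {S T : Nat} (h : Sub S T) : Sub (pre i S) (pre i T) := by
  intro c hc
  unfold pre at *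
  simp only [Nat.testBit_or, Nat.testBit_and, Nat.testBit_shiftRight, Nat.testBit_shiftLeft,
    Bool.or_eq_true, Bool.and_eq_true] at *
  rcases hc with ⟨h1, h2⟩ | ⟨h1, h2, h3⟩
  · exact Or.inl ⟨h1, h _ h2⟩
  · exact Or.inr ⟨h1, h2, h _ h3⟩

theorem sub_stepI (S i : Nat) : Sub S (stepI S i) := by
  intro c hc; unfold stepI; simp [hc]

theorem pre_sub_stepI (S i : Nat) : Sub (pre i S) (stepI S i) := by
  intro c hc; unfold stepI; simp [hc]

theorem sub_foldl_stepI (L : List Nat) (S : Nat) : Sub S (L.foldl stepI S) := by
  induction L generalizing S with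
  | nil => exact Sub.refl _
  | cons a L ih => exact (sub_stepI S a).trans (ih _)

theorem pre_sub_foldl {L : List Nat} {i : Nat} (hi : i ∈ L) (S : Nat) :
    Sub (pre i S) (L.foldl stepI S) := by
  induction L generalizing S with
  | nil => simp at hi
  | cons a L ih =>
    rw [List.foldl_cons]
    rcases List.mem_cons.1 hi with h | h
    · subst h
      exact (pre_sub_stepI S i).trans (sub_foldl_stepI _ _)
    · exact (pre_mono i (sub_stepI S a)).trans (ih h _)

theorem sub_sweeps (k S : Nat) : Sub S (sweeps k S) := by
  induction k generalizing S with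
  | zero => exact Sub.refl _
  | succ k ih => exact (sub_foldl_stepI idxs S).trans (ih _)

/-- the level sets -/
def lev : Nat → Nat
  | 0 => validMask
  | l + 1 => nxt (lev l)

theorem chk_lev (k l : Nat) (h : chk k (lev l) = true) :
    (∀ j < k, sweep (lev (l + j)) = lev (l + j)) ∧ lev (l + k) = 0 := by
  induction k generalizing l with
  | zero =>
    refine ⟨fun j hj => absurd hj (Nat.not_lt_zero j), ?_⟩
    simpa [chk] using h
  | succ k ih =>
    rw [chk, Bool.and_eq_true] at h
    obtain ⟨h1, h2⟩ := h
    have h3 := ih (l + 1) h2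
    refine ⟨?_, ?_⟩
    · intro j hj
      rcases j with _ | j
      · simpa using h1
      · have := h3.1 j (by omega)
        have e : l + 1 + j = l + (j + 1) := by omega
        rwa [e] at this
    · have := h3.2
      have e : l + 1 + k = l + (k + 1) := by omega
      rwa [e] at this

theorem sweep_lev (l : Nat) (hl : l < 10) : sweep (lev l) = lev l := by
  have := (chk_lev 10 0 chk_ok).1 l hl
  simpa using this

theorem lev_ten : lev 10 = 0 := by
  have := (chk_lev 10 0 chk_ok).2
  simpa using this

/-- level predicate: `c` lies in a level set of level at least `l` -/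
def Lv (l c : Nat) : Prop := ∃ l', l ≤ l' ∧ l' < 10 ∧ (lev l').testBit c = true

theorem Lv.zero {c : Nat} (hc : c < 2 ^ 21) (hv : validC c = true) : Lv 0 c :=
  ⟨0, le_rfl, by norm_num, by rw [lev, testBit_validMask hc, hv]⟩

theorem Lv.edge {l i c d : Nat} (hi : i < 21) (hc : c < 2 ^ 21) (h : Edge i c d)
    (hd : Lv l d) : Lv (l + if i = 0 then 1 else 0) c := by
  obtain ⟨l', h1, h2, h3⟩ := hd
  have hp := testBit_pre_of_edge hi hc h h3
  by_cases h0 : i = 0
  · subst h0
    have h4 : (lev (l' + 1)).testBit c = true := sub_sweeps 4 _ c hp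
    refine ⟨l' + 1, by simpa using h1, ?_, h4⟩
    by_contra hcon
    have : l' + 1 = 10 := by omega
    rw [this, lev_ten] at h4
    simp at h4
  · refine ⟨l', by simpa [h0] using h1, h2, ?_⟩
    rw [← sweep_lev l' h2]
    have hmem : i ∈ idxs := by
      unfold idxs
      interval_cases i <;> simp_all
    exact pre_sub_foldl hmem _ c hp

theorem Lv.mono {l l' c : Nat} (h : l ≤ l') (hc : Lv l' c) : Lv l c := by
  obtain ⟨k, h1, h2, h3⟩ := hc
  exact ⟨k, h.trans h1, h2, h3⟩

theorem not_Lv_ten (c : Nat) : ¬ Lv 10 c := by
  rintro ⟨l', h1, h2, _⟩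
  omega

end Run7.h861
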