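import Mathlib
import Pool.Agent.Run7.h861.CertSem

set_option autoImplicit false

/-!
# The 21 quantities of a configuration of six vectors in three-space
-/

namespace Run7.h861

/-- configurations of six vectors in three-space -/
abbrev E6 := Fin 6 → Fin 3 → ℝ

/-- three by three determinant -/
def det3 (u v w : Fin 3 → ℝ) : ℝ :=
  u 0 * (v 1 * w 2 - v 2 * w 1) - u 1 * (v 0 * w 2 - v 2 * w 0) + u 2 * (v 0 * w 1 - v 1 * w 0)

def pl (a b c : Fin 6) (X : E6) : ℝ := det3 (X a) (X b) (X c)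

/-- the 21 quantities; all larger indices give the constant one -/
def q : Nat → E6 → ℝ
  | 0 => pl 0 1 2
  | 1 => pl 0 1 3
  | 2 => pl 0 1 4
  | 3 => pl 0 1 5
  | 4 => pl 0 2 3
  | 5 => pl 0 2 4
  | 6 => pl 0 2 5
  | 7 => pl 0 3 4
  | 8 => pl 0 3 5
  | 9 => pl 0 4 5
  | 10 => pl 1 2 3
  | 11 => pl 1 2 4
  | 12 => pl 1 2 5
  | 13 => pl 1 3 4
  | 14 => pl 1 3 5
  | 15 => pl 1 4 5
  | 16 => pl 2 3 4
  | 17 => pl 2 3 5
  | 18 => pl 2 4 5
  | 19 => pl 3 4 5
  | 20 => fun X => pl 0 1 3 X * pl 2 4 5 X - pl 0 1 2 X * pl 3 4 5 X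
  | _ => fun _ => 1

/-- the elementary move: add a multiple of the next vector -/
def move (j : Fin 5) (s : ℝ) (X : E6) : E6 :=
  Function.update X j.castSucc (X j.castSucc + s • X j.succ)

/-- the factors of the slope of quantity `i` under the move `j` -/
def slT : Nat → Nat → Option (Nat × Nat)
  | 0, 4 => some (10, 21)
  | 0, 5 => some (11, 21)
  | 0, 6 => some (12, 21)
  | 0, 7 => some (13, 21)
  | 0, 8 => some (14, 21)
  | 0, 9 => some (15, 21)
  | 1, 1 => some (4, 21)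
  | 1, 2 => some (5, 21)
  | 1, 3 => some (6, 21)
  | 1, 13 => some (16, 21)
  | 1, 14 => some (17, 21)
  | 1, 15 => some (18, 21)
  | 1, 20 => some (4, 18)
  | 2, 0 => some (1, 21)
  | 2, 5 => some (7, 21)
  | 2, 6 => some (8, 21)
  | 2, 11 => some (13, 21)
  | 2, 12 => some (14, 21)
  | 2, 18 => some (19, 21)
  | 3, 1 => some (2, 21)
  | 3, 4 => some (5, 21)
  | 3, 8 => some (9, 21)
  | 3, 10 => some (11, 21)
  | 3, 14 => some (15, 21)
  | 3, 17 => some (18, 21)
  | 3, 20 => some (2, 18)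
  | 4, 2 => some (3, 21)
  | 4, 5 => some (6, 21)
  | 4, 7 => some (8, 21)
  | 4, 11 => some (12, 21)
  | 4, 13 => some (14, 21)
  | 4, 16 => some (17, 21)
  | _, _ => none

def slv (o : Option (Nat × Nat)) (X : E6) : ℝ :=
  match o with
  | some p => q p.1 X * q p.2 X
  | none => 0

theorem q_move (j : Fin 5) (i : Nat) (hi : i < 21) (s : ℝ) (X : E6) :
    q i (move j s X) = q i X + s * slv (slT j.val i) X := by
  fin_cases j <;> interval_cases i <;>
    simp [q, pl, move, slT, slv, det3, Function.update_apply, Fin.ext_iff] <;> ring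

/-- value of a term -/
def tv (t : Term) (X : E6) : ℝ := (if t.1 then -1 else 1) * (q t.2.1 X * q t.2.2 X)

theorem rel_eval (X : E6) : ∀ r ∈ rels, tv r.1 X + tv r.2.1 X + tv r.2.2 X = 0 := by
  intro r hr
  simp only [rels, List.mem_cons, List.not_mem_nil, or_false] at hr
  rcases hr with h | h | h | h | h | h | h | h | h | h | h | h | h | h | h | h | h | h | h | h | h
    | h | h | h | h | h | h | h | h | h | h | h | h <;> subst h <;>
    simp only [tv, q, pl, det3] <;> simp <;> ring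

theorem rels_le : ∀ r ∈ rels, (r.1.2.1 ≤ 21 ∧ r.1.2.2 ≤ 21) ∧ (r.2.1.2.1 ≤ 21 ∧ r.2.1.2.2 ≤ 21) ∧
    (r.2.2.2.1 ≤ 21 ∧ r.2.2.2.2 ≤ 21) := by decide

theorem slT_mem : ∀ j < 5, ∀ i < 21, ∀ p, slT j i = some p → p ∈ slopes i := by
  intro j hj i hi p hp
  interval_cases j <;> interval_cases i <;> simp_all [slT, slopes]

theorem slT_le : ∀ j < 5, ∀ i < 21, ∀ p, slT j i = some p → p.1 ≤ 21 ∧ p.2 ≤ 21 := by
  intro j hj i hi p hp
  interval_cases j <;> interval_cases i <;> simp_all [slT] <;> subst hp <;> simp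

end Run7.h861
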