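import Mathlib
import Pool.Agent.Run7.h861.Alg

set_option autoImplicit false

/-!
# Codes of configurations and single sign changes
-/

namespace Run7.h861

open Finset

/-- binary encoding -/
def enc (f : Nat → Prop) [DecidablePred f] (n : Nat) : Nat :=
  ∑ i ∈ range n, if f i then 2 ^ i else 0

theorem enc_succ (f : Nat → Prop) [DecidablePred f] (n : Nat) :
    enc f (n + 1) = enc f n + if f n then 2 ^ n else 0 := by
  simp [enc, sum_range_succ]

theorem enc_lt (f : Nat → Prop) [DecidablePred f] (n : Nat) : enc f n < 2 ^ n := by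
  induction n with
  | zero => simp [enc]
  | succ n ih =>
    rw [enc_succ, pow_succ]
    split_ifs <;> omega

theorem testBit_enc (f : Nat → Prop) [DecidablePred f] (n k : Nat) :
    (enc f n).testBit k = (decide (k < n) && decide (f k)) := by
  induction n with
  | zero => simp [enc]
  | succ n ih =>
    rw [enc_succ]
    split_ifs with h
    · rcases lt_trichotomy k n with hk | hk | hk
      · rw [Nat.add_comm, Nat.testBit_two_pow_add_gt hk, ih]
        simp [hk, Nat.lt_succ_of_lt hk]
      · subst hk
        rw [Nat.add_comm, Nat.testBit_two_pow_add_eq, ih]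
        simp [h]
      · have h1 : enc f n + 2 ^ n < 2 ^ k := by
          have := enc_lt f n
          calc enc f n + 2 ^ n < 2 ^ n + 2 ^ n := by omega
            _ = 2 ^ (n + 1) := by ring
            _ ≤ 2 ^ k := Nat.pow_le_pow_right (by norm_num) hk
        rw [Nat.testBit_lt_two_pow h1]
        have : ¬ k < n + 1 := by omega
        simp [this]
    · rw [Nat.add_zero, ih]
      rcases lt_trichotomy k n with hk | hk | hk
      · simp [hk, Nat.lt_succ_of_lt hk]
      · subst hk; simp [h]
      · have h1 : ¬ k < n := by omega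
        have h2 : ¬ k < n + 1 := by omega
        simp [h1, h2]

theorem enc_flip (f g : Nat → Prop) [DecidablePred f] [DecidablePred g] (n i : Nat) (hi : i < n)
    (hf : ¬ f i) (hg : g i) (h : ∀ k < n, k ≠ i → (f k ↔ g k)) : enc g n = enc f n + 2 ^ i := by
  unfold enc
  rw [← Finset.add_sum_erase _ _ (Finset.mem_range.2 hi),
    ← Finset.add_sum_erase (range n) (fun k => if f k then 2 ^ k else 0) (Finset.mem_range.2 hi)]
  simp only [hf, hg, if_true, if_false, zero_add]
  rw [Nat.add_comm]
  congr 1
  refine Finset.sum_congr rfl fun k hk => ?_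
  rw [Finset.mem_erase, Finset.mem_range] at hk
  have := h k hk.2 hk.1
  by_cases hfk : f k
  · simp [hfk, this.1 hfk]
  · have hgk : ¬ g k := fun hc => hfk (this.2 hc)
    simp [hfk, hgk]

/-- the code of a configuration -/
noncomputable def code (X : E6) : Nat := enc (fun i => 0 < q i X) 21

/-- no quantity vanishes -/
def Good (X : E6) : Prop := ∀ i < 21, q i X ≠ 0

theorem code_lt (X : E6) : code X < 2 ^ 21 := enc_lt _ _

theorem testBit_code (X : E6) {i : Nat} (hi : i < 21) :
    (code X).testBit i = decide (0 < q i X) := by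
  rw [code, testBit_enc]; simp [hi]

theorem q_21 (X : E6) : q 21 X = 1 := rfl

theorem sb_code (X : E6) {i : Nat} (hi : i ≤ 21) : sb (code X) i = decide (0 < q i X) := by
  unfold sb
  split_ifs with h
  · subst h; simp [q_21]
  · exact testBit_code X (by omega)

theorem Good.q_ne {X : E6} (h : Good X) {i : Nat} (hi : i ≤ 21) : q i X ≠ 0 := by
  rcases Nat.lt_or_ge i 21 with h1 | h1
  · exact h i h1
  · have : i = 21 := by omega
    subst this; rw [q_21]; exact one_ne_zero

theorem Good.xor {X : E6} (h : Good X) {a b : Nat} (ha : a ≤ 21) (hb : b ≤ 21) :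
    (sb (code X) a ^^ sb (code X) b) = decide (q a X * q b X < 0) := by
  rw [sb_code X ha, sb_code X hb]
  rcases lt_or_gt_of_ne (h.q_ne ha) with h1 | h1 <;> rcases lt_or_gt_of_ne (h.q_ne hb) with h2 | h2
  · have h3 : ¬ (q a X * q b X < 0) := not_lt.2 (mul_nonneg_of_nonpos_of_nonpos h1.le h2.le)
    simp [h3, not_lt.2 h1.le, not_lt.2 h2.le]
  · have h3 : q a X * q b X < 0 := mul_neg_of_neg_of_pos h1 h2
    simp [h3, not_lt.2 h1.le, h2]
  · have h3 : q a X * q b X < 0 := mul_neg_of_pos_of_neg h1 h2
    simp [h3, h1, not_lt.2 h2.le]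
  · have h3 : ¬ (q a X * q b X < 0) := not_lt.2 (mul_pos h1 h2).le
    simp [h3, h1, h2]

theorem tv_ne {X : E6} (h : Good X) {t : Term} (ha : t.2.1 ≤ 21) (hb : t.2.2 ≤ 21) :
    tv t X ≠ 0 := by
  unfold tv
  have := mul_ne_zero (h.q_ne ha) (h.q_ne hb)
  split_ifs <;> simpa using this

theorem negB_code {X : E6} (h : Good X) {t : Term} (ha : t.2.1 ≤ 21) (hb : t.2.2 ≤ 21) :
    negB (code X) t = decide (tv t X < 0) := by
  unfold negB
  rw [h.xor ha hb]
  unfold tv
  have hne := mul_ne_zero (h.q_ne ha) (h.q_ne hb)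
  rcases ht : t.1 with _ | _
  · simp
  · rcases lt_or_gt_of_ne hne with h1 | h1
    · have h3 : ¬ ((-1 : ℝ) * (q t.2.1 X * q t.2.2 X) < 0) := by linarith
      simp only [h1, if_true, h3]
      simp
    · have h3 : ((-1 : ℝ) * (q t.2.1 X * q t.2.2 X) < 0) := by linarith
      simp only [not_lt.2 h1.le, if_true, h3]
      simp

theorem validC_code {X : E6} (h : Good X) : validC (code X) = true := by
  unfold validC
  rw [List.all_eq_true]
  intro r hr
  have hle := rels_le r hr
  have hs := rel_eval X r hr
  unfold relB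
  rw [negB_code h hle.1.1 hle.1.2, negB_code h hle.2.1.1 hle.2.1.2,
    negB_code h hle.2.2.1 hle.2.2.2]
  have n1 := tv_ne h hle.1.1 hle.1.2
  have n2 := tv_ne h hle.2.1.1 hle.2.1.2
  have n3 := tv_ne h hle.2.2.1 hle.2.2.2
  by_cases h1 : tv r.1 X < 0 <;> by_cases h2 : tv r.2.1 X < 0 <;> by_cases h3 : tv r.2.2 X < 0 <;>
    simp [h1, h2, h3]
  · linarith
  · have g1 := lt_of_le_of_ne (not_lt.1 h1) n1.symm
    have g2 := lt_of_le_of_ne (not_lt.1 h2) n2.symm
    have g3 := lt_of_le_of_ne (not_lt.1 h3) n3.symm
    linarith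

theorem edge_of_cross {X : E6} (hX : Good X) {j : Fin 5} {s : ℝ} (hs : 0 < s)
    {i : Nat} (hi : i < 21)
    (hother : ∀ k < 21, k ≠ i → (0 < q k X ↔ 0 < q k (move j s X)))
    (hcross : q i X * q i (move j s X) < 0) : Edge i (code X) (code (move j s X)) := by
  refine ⟨validC_code hX, ?_⟩
  have hq := q_move j i hi s X
  have hsl : slv (slT j.val i) X ≠ 0 := by
    intro h0
    rw [hq, h0, mul_zero, add_zero] at hcross
    exact absurd hcross (not_lt.2 (mul_self_nonneg _))
  obtain ⟨p, hp⟩ : ∃ p, slT j.val i = some p := by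
    rcases h : slT j.val i with _ | p
    · rw [h] at hsl; exact absurd rfl hsl
    · exact ⟨p, rfl⟩
  have hmem := slT_mem j.val j.isLt i hi p hp
  have hle := slT_le j.val j.isLt i hi p hp
  have hval : slv (slT j.val i) X = q p.1 X * q p.2 X := by rw [hp]; rfl
  rcases lt_or_gt_of_ne (hX i hi) with hneg | hpos
  · left
    have hY : 0 < q i (move j s X) := by
      by_contra hcon
      exact absurd hcross (not_lt.2 (mul_nonneg_of_nonpos_of_nonpos hneg.le (not_lt.1 hcon)))
    refine ⟨by rw [testBit_code X hi]; simpa using hneg.le, ?_, ?_⟩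
    · exact enc_flip _ _ 21 i hi (not_lt.2 hneg.le) hY hother
    · unfold vposB
      rw [List.any_eq_true]
      refine ⟨p, hmem, ?_⟩
      rw [hX.xor hle.1 hle.2]
      have : 0 < slv (slT j.val i) X := by
        rw [hq] at hY
        by_contra hcon
        have := mul_nonpos_of_nonneg_of_nonpos hs.le (not_lt.1 hcon)
        linarith
      rw [hval] at this
      simpa using this.le
  · right
    have hY : q i (move j s X) < 0 := by
      by_contra hcon
      exact absurd hcross (not_lt.2 (mul_nonneg hpos.le (not_lt.1 hcon)))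
    refine ⟨by rw [testBit_code X hi]; simpa using hpos, ?_, ?_⟩
    · exact enc_flip _ _ 21 i hi (not_lt.2 hY.le) hpos fun k hk hki => (hother k hk hki).symm
    · unfold vnegB
      rw [List.any_eq_true]
      refine ⟨p, hmem, ?_⟩
      rw [hX.xor hle.1 hle.2]
      have : slv (slT j.val i) X < 0 := by
        rw [hq] at hY
        by_contra hcon
        have := mul_nonneg hs.le (not_lt.1 hcon)
        linarith
      rw [hval] at this
      simpa using this

end Run7.h861
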