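import Mathlib
import Pool.Agent.Run7.h861.Code

set_option autoImplicit false

/-!
# Density of non-vanishing of analytic functions
-/

namespace Run7.h861

open Topology Set

section general

variable {E : Type} [NormedAddCommGroup E] [NormedSpace ℝ E]

theorem dense_ne_zero {F : E → ℝ} (hF : ∀ x, AnalyticAt ℝ F x) {w : E} (hw : F w ≠ 0) :
    Dense {x | F x ≠ 0} := by
  intro x
  by_contra hx
  rw [mem_closure_iff_frequently, Filter.not_frequently] at hx
  have h0 : F =ᶠ[𝓝 x] 0 := by
    filter_upwards [hx] with y hy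
    by_contra hne
    exact hy hne
  have hall : EqOn F 0 univ :=
    AnalyticOnNhd.eqOn_zero_of_preconnected_of_eventuallyEq_zero (fun y _ => hF y)
      isPreconnected_univ (mem_univ x) h0
  exact hw (hall (mem_univ w))

theorem isOpen_ne_zero {F : E → ℝ} (hF : ∀ x, AnalyticAt ℝ F x) : IsOpen {x | F x ≠ 0} :=
  isOpen_ne_fun (continuous_iff_continuousAt.2 fun x => (hF x).continuousAt) continuous_const

theorem analyticAt_det3 {u v w : E → Fin 3 → ℝ} {x : E} (hu : ∀ i, AnalyticAt ℝ (fun y => u y i) x)
    (hv : ∀ i, AnalyticAt ℝ (fun y => v y i) x) (hw : ∀ i, AnalyticAt ℝ (fun y => w y i) x) :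
    AnalyticAt ℝ (fun y => det3 (u y) (v y) (w y)) x := by
  unfold det3
  exact (((hu 0).mul (((hv 1).mul (hw 2)).sub ((hv 2).mul (hw 1)))).sub
    ((hu 1).mul (((hv 0).mul (hw 2)).sub ((hv 2).mul (hw 0))))).add
    ((hu 2).mul (((hv 0).mul (hw 1)).sub ((hv 1).mul (hw 0))))

/-- the quantities are analytic in any analytic family of configurations -/
theorem analyticAt_q {X : E → E6} {x : E} (hX : ∀ a i, AnalyticAt ℝ (fun y => X y a i) x)
    {i : Nat} (hi : i ≤ 21) : AnalyticAt ℝ (fun y => q i (X y)) x := by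
  have h : ∀ a b c, AnalyticAt ℝ (fun y => pl a b c (X y)) x := fun a b c =>
    analyticAt_det3 (hX a) (hX b) (hX c)
  interval_cases i
  all_goals first
    | exact h _ _ _
    | exact ((h 0 1 3).mul (h 2 4 5)).sub ((h 0 1 2).mul (h 3 4 5))
    | exact analyticAt_const

end general

theorem analyticAt_coord (a : Fin 6) (b : Fin 3) (X : E6) :
    AnalyticAt ℝ (fun Y : E6 => Y a b) X := by
  have : (fun Y : E6 => Y a b) =
      ((ContinuousLinearMap.proj b : (Fin 3 → ℝ) →L[ℝ] ℝ).comp
        (ContinuousLinearMap.proj a : E6 →L[ℝ] (Fin 3 → ℝ))) := by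
    ext X; rfl
  rw [this]
  exact ContinuousLinearMap.analyticAt _ _

theorem analyticAt_q_id {i : Nat} (hi : i ≤ 21) (X : E6) : AnalyticAt ℝ (q i) X :=
  analyticAt_q (X := fun Y => Y) (fun a b => analyticAt_coord a b X) hi

theorem continuous_q {i : Nat} (hi : i ≤ 21) : Continuous (q i) :=
  continuous_iff_continuousAt.2 fun X => (analyticAt_q_id hi X).continuousAt

theorem analyticAt_slv {j i : Nat} (hj : j < 5) (hi : i < 21) (X : E6) :
    AnalyticAt ℝ (fun Y => slv (slT j i) Y) X := by
  rcases h : slT j i with _ | p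
  · exact analyticAt_const
  · have hle := slT_le j hj i hi p h
    exact (analyticAt_q_id hle.1 X).mul (analyticAt_q_id hle.2 X)

/-- the difference whose non-vanishing separates the zeros of two quantities along a move -/
def dif (j i k : Nat) (X : E6) : ℝ :=
  if (slT j i).isSome ∧ (slT j k).isSome ∧ i ≠ k then
    q i X * slv (slT j k) X - q k X * slv (slT j i) X else 1

theorem analyticAt_dif {j i k : Nat} (hj : j < 5) (hi : i < 21) (hk : k < 21) (X : E6) :
    AnalyticAt ℝ (dif j i k) X := by
  unfold dif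
  by_cases h : (slT j i).isSome ∧ (slT j k).isSome ∧ i ≠ k
  · simp only [h, if_true, true_and, ne_eq, not_false_eq_true]
    exact ((analyticAt_q_id hi.le X).mul (analyticAt_slv hj hk X)).sub
      ((analyticAt_q_id hk.le X).mul (analyticAt_slv hj hi X))
  · simp only [h, if_false]
    exact analyticAt_const

end Run7.h861
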