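import Mathlib
import Pool.Agent.Run7.h861.Dense

set_option autoImplicit false

/-!
# Witnesses with integer entries
-/

namespace Run7.h861

open Topology Set

def det3Z (u v w : Fin 3 → ℤ) : ℤ :=
  u 0 * (v 1 * w 2 - v 2 * w 1) - u 1 * (v 0 * w 2 - v 2 * w 0) + u 2 * (v 0 * w 1 - v 1 * w 0)

def plZ (a b c : Fin 6) (X : Fin 6 → Fin 3 → ℤ) : ℤ := det3Z (X a) (X b) (X c)

def qZ : Nat → (Fin 6 → Fin 3 → ℤ) → ℤ
  | 0 => plZ 0 1 2
  | 1 => plZ 0 1 3
  | 2 => plZ 0 1 4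
  | 3 => plZ 0 1 5
  | 4 => plZ 0 2 3
  | 5 => plZ 0 2 4
  | 6 => plZ 0 2 5
  | 7 => plZ 0 3 4
  | 8 => plZ 0 3 5
  | 9 => plZ 0 4 5
  | 10 => plZ 1 2 3
  | 11 => plZ 1 2 4
  | 12 => plZ 1 2 5
  | 13 => plZ 1 3 4
  | 14 => plZ 1 3 5
  | 15 => plZ 1 4 5
  | 16 => plZ 2 3 4
  | 17 => plZ 2 3 5
  | 18 => plZ 2 4 5
  | 19 => plZ 3 4 5
  | 20 => fun X => plZ 0 1 3 X * plZ 2 4 5 X - plZ 0 1 2 X * plZ 3 4 5 X
  | _ => fun _ => 1

def slvZ (o : Option (Nat × Nat)) (X : Fin 6 → Fin 3 → ℤ) : ℤ :=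
  match o with
  | some p => qZ p.1 X * qZ p.2 X
  | none => 0

def difZ (j i k : Nat) (X : Fin 6 → Fin 3 → ℤ) : ℤ :=
  if (slT j i).isSome ∧ (slT j k).isSome ∧ i ≠ k then
    qZ i X * slvZ (slT j k) X - qZ k X * slvZ (slT j i) X else 1

/-- real configuration with integer entries -/
def castX (X : Fin 6 → Fin 3 → ℤ) : E6 := fun a b => (X a b : ℝ)

theorem det3_cast (u v w : Fin 3 → ℤ) :
    det3 (fun b => (u b : ℝ)) (fun b => (v b : ℝ)) (fun b => (w b : ℝ)) = (det3Z u v w : ℝ) := by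
  simp [det3, det3Z]

theorem pl_cast (a b c : Fin 6) (X : Fin 6 → Fin 3 → ℤ) :
    pl a b c (castX X) = (plZ a b c X : ℝ) := det3_cast _ _ _

theorem q_cast {i : Nat} (hi : i ≤ 21) (X : Fin 6 → Fin 3 → ℤ) :
    q i (castX X) = (qZ i X : ℝ) := by
  interval_cases i <;> simp [q, qZ, pl_cast]

theorem slv_cast {j i : Nat} (hj : j < 5) (hi : i < 21) (X : Fin 6 → Fin 3 → ℤ) :
    slv (slT j i) (castX X) = (slvZ (slT j i) X : ℝ) := by
  rcases h : slT j i with _ | p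
  · simp [slv, slvZ]
  · have hle := slT_le j hj i hi p h
    simp [slv, slvZ, q_cast hle.1, q_cast hle.2]

theorem dif_cast {j i k : Nat} (hj : j < 5) (hi : i < 21) (hk : k < 21)
    (X : Fin 6 → Fin 3 → ℤ) : dif j i k (castX X) = (difZ j i k X : ℝ) := by
  unfold dif difZ
  split_ifs
  · rw [q_cast hi.le, q_cast hk.le, slv_cast hj hi, slv_cast hj hk]
    push_cast; ring
  · simp

def W1 : Fin 6 → Fin 3 → ℤ :=
  ![![1, 2, -2], ![-1, 2, 1], ![0, 1, -2], ![1, -2, 0], ![2, 2, 2], ![1, -1, -1]]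

def W2 : Fin 6 → Fin 3 → ℤ :=
  ![![1, 0, 0], ![1, 1, 0], ![-1, -2, 1], ![-2, 0, 2], ![-1, -1, -2], ![1, 2, -2]]

theorem W1_q : ∀ i < 21, qZ i W1 ≠ 0 := by decide
theorem W2_q : ∀ i < 21, qZ i W2 ≠ 0 := by decide

theorem W1_dif : ∀ j < 5, ∀ i < 21, ∀ k < 21, difZ j i k W1 ≠ 0 := by decide +kernel

theorem good_W2 : Good (castX W2) := by
  intro i hi
  rw [q_cast hi.le]
  exact_mod_cast W2_q i hi

/-- good configurations are open and dense -/
theorem isOpen_good : IsOpen {X : E6 | Good X} := by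
  have : {X : E6 | Good X} = ⋂ i ∈ Finset.range 21, {X | q i X ≠ 0} := by
    ext X; simp [Good]
  rw [this]
  exact isOpen_biInter_finset fun i hi =>
    isOpen_ne_zero (analyticAt_q_id (by have := Finset.mem_range.1 hi; omega))

theorem dense_good : Dense {X : E6 | Good X} := by
  have h1 : ∀ X, AnalyticAt ℝ (fun Y : E6 => ∏ i ∈ Finset.range 21, q i Y) X := fun X =>
    Finset.analyticAt_fun_prod _ fun i hi =>
      analyticAt_q_id (by have := Finset.mem_range.1 hi; omega) X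
  have h2 : (fun Y : E6 => ∏ i ∈ Finset.range 21, q i Y) (castX W1) ≠ 0 := by
    refine Finset.prod_ne_zero_iff.2 fun i hi => ?_
    have hi' := Finset.mem_range.1 hi
    rw [q_cast hi'.le]
    exact_mod_cast W1_q i hi'
  refine (dense_ne_zero h1 h2).mono fun X hX i hi => ?_
  exact Finset.prod_ne_zero_iff.1 hX i (Finset.mem_range.2 hi)

/-- separated: no two quantities vanish together along the move `j` -/
def Sep (j : Nat) (X : E6) : Prop := ∀ i < 21, ∀ k < 21, dif j i k X ≠ 0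

theorem dense_sep {j : Nat} (hj : j < 5) : Dense {X : E6 | Sep j X} := by
  have h1 : ∀ X, AnalyticAt ℝ
      (fun Y : E6 => ∏ p ∈ Finset.range 21 ×ˢ Finset.range 21, dif j p.1 p.2 Y) X := fun X =>
    Finset.analyticAt_fun_prod _ fun p hp => by
      have := Finset.mem_product.1 hp
      exact analyticAt_dif hj (Finset.mem_range.1 this.1) (Finset.mem_range.1 this.2) X
  have h2 : (fun Y : E6 => ∏ p ∈ Finset.range 21 ×ˢ Finset.range 21, dif j p.1 p.2 Y)
      (castX W1) ≠ 0 := by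
    refine Finset.prod_ne_zero_iff.2 fun p hp => ?_
    have hp' := Finset.mem_product.1 hp
    rw [dif_cast hj (Finset.mem_range.1 hp'.1) (Finset.mem_range.1 hp'.2)]
    exact_mod_cast W1_dif j hj _ (Finset.mem_range.1 hp'.1) _ (Finset.mem_range.1 hp'.2)
  refine (dense_ne_zero h1 h2).mono fun X hX i hi k hk => ?_
  exact Finset.prod_ne_zero_iff.1 hX (i, k)
    (Finset.mem_product.2 ⟨Finset.mem_range.2 hi, Finset.mem_range.2 hk⟩)

end Run7.h861
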