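import Mathlib
import Pool.Agent.Run7.h861.Wit

set_option autoImplicit false

/-!
# Level sets along positive moves
-/

namespace Run7.h861

open Topology Set Filter

/-- the quantities having opposite signs at `X` and `Y` -/
noncomputable def chg (X Y : E6) : Finset Nat := (Finset.range 21).filter fun i => q i X * q i Y < 0

theorem mem_chg {X Y : E6} {i : Nat} : i ∈ chg X Y ↔ i < 21 ∧ q i X * q i Y < 0 := by
  simp [chg]

theorem move_move (j : Fin 5) (s t : ℝ) (X : E6) : move j s (move j t X) = move j (t + s) X := by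
  have hne : j.succ ≠ j.castSucc := by
    intro h; have := congrArg Fin.val h; simp at this
  unfold move
  rw [Function.update_idem, Function.update_self, Function.update_of_ne hne]
  congr 1
  rw [add_smul, add_assoc]

theorem move_zero (j : Fin 5) (X : E6) : move j 0 X = X := by
  unfold move; simp

theorem code_eq_of_same {X Y : E6} (h : ∀ i < 21, 0 < q i X * q i Y) : code X = code Y := by
  unfold code enc
  refine Finset.sum_congr rfl fun i hi => ?_
  have h1 := h i (Finset.mem_range.1 hi)
  have : (0 < q i X) ↔ (0 < q i Y) := by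
    constructor
    · intro h2; exact (pos_iff_pos_of_mul_pos h1).1 h2
    · intro h2; exact (pos_iff_pos_of_mul_pos h1).2 h2
  by_cases h2 : 0 < q i X
  · simp [h2, this.1 h2]
  · have h3 : ¬ 0 < q i Y := fun h4 => h2 (this.2 h4)
    simp [h2, h3]

/-- the crossing parameter -/
noncomputable def ct (j i : Nat) (X : E6) : ℝ := (q i X) ^ 2 / (-(q i X * slv (slT j i) X))

theorem crossing {j : Fin 5} {i : Nat} (hi : i < 21) {X : E6} {s : ℝ} (hs : 0 < s)
    (h : q i X * q i (move j s X) < 0) :
    q i X * slv (slT j i) X < 0 ∧ 0 < ct j i X ∧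
      (∀ u, u < ct j i X → 0 < q i X * q i (move j u X)) ∧
      (∀ u, ct j i X < u → q i X * q i (move j u X) < 0) ∧ ct j i X < s := by
  have e : ∀ u, q i X * q i (move j u X) = (q i X) ^ 2 + u * (q i X * slv (slT j i) X) := by
    intro u; rw [q_move j i hi]; ring
  rw [e] at h
  have hsq : 0 ≤ (q i X) ^ 2 := sq_nonneg _
  have hb : q i X * slv (slT j i) X < 0 := by
    by_contra hcon
    have := mul_nonneg hs.le (not_lt.1 hcon)
    linarith
  have hb' : 0 < -(q i X * slv (slT j i) X) := by linarith
  have hq : q i X ≠ 0 := by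
    intro h0; rw [h0, zero_mul] at hb; exact lt_irrefl _ hb
  have hsq' : 0 < (q i X) ^ 2 := by positivity
  refine ⟨hb, div_pos hsq' hb', ?_, ?_, ?_⟩
  · intro u hu
    rw [e]
    unfold ct at hu
    rw [lt_div_iff₀ hb'] at hu
    linarith
  · intro u hu
    rw [e]
    unfold ct at hu
    rw [div_lt_iff₀ hb'] at hu
    linarith
  · unfold ct
    rw [div_lt_iff₀ hb']
    linarith

theorem no_crossing {j : Fin 5} {i : Nat} (hi : i < 21) {X : E6} {s : ℝ}
    (h : 0 < q i X * q i (move j s X)) {u : ℝ} (hu0 : 0 ≤ u) (hus : u ≤ s) :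
    0 < q i X * q i (move j u X) := by
  have e : ∀ u, q i X * q i (move j u X) = (q i X) ^ 2 + u * (q i X * slv (slT j i) X) := by
    intro u; rw [q_move j i hi]; ring
  rw [e] at h
  have hq : q i X ≠ 0 := by
    intro h0; rw [h0] at h; simp at h
  have hsq' : 0 < (q i X) ^ 2 := by positivity
  rw [e]
  by_cases hb : 0 ≤ q i X * slv (slT j i) X
  · have := mul_nonneg hu0 hb
    linarith
  · have hb' := not_le.1 hb
    nlinarith

/-- one move, with separated zeros -/
theorem lv_move_sep {X : E6} (hX : Good X) {j : Fin 5} (hS : Sep j X) :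
    ∀ (N : ℕ) (s : ℝ), 0 < s → Good (move j s X) → (chg X (move j s X)).card = N →
      ∀ l, Lv l (code (move j s X)) →
        Lv (l + if 0 ∈ chg X (move j s X) then 1 else 0) (code X) := by
  intro N
  induction N with
  | zero =>
    intro s hs hY hN l hl
    have hempty : chg X (move j s X) = ∅ := Finset.card_eq_zero.1 hN
    have hsame : ∀ i < 21, 0 < q i X * q i (move j s X) := by
      intro i hi
      have h1 : i ∉ chg X (move j s X) := by rw [hempty]; exact Finset.notMem_empty i
      rw [mem_chg] at h1
      have h2 : ¬ q i X * q i (move j s X) < 0 := fun h => h1 ⟨hi, h⟩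
      exact lt_of_le_of_ne (not_lt.1 h2) (mul_ne_zero (hX i hi) (hY i hi)).symm
    rw [code_eq_of_same hsame, hempty]
    simpa using hl
  | succ N ih =>
    intro s hs hY hN l hl
    set Z := chg X (move j s X) with hZ
    have hne : Z.Nonempty := by
      rw [← Finset.card_pos, hN]; exact Nat.succ_pos N
    obtain ⟨i0, hi0, hmax⟩ := Finset.exists_max_image Z (fun i => ct j i X) hne
    have hi0' := mem_chg.1 hi0
    have hlt : ∀ i ∈ Z.erase i0, ct j i X < ct j i0 X := by
      intro i hi
      have hi' := Finset.mem_erase.1 hi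
      refine lt_of_le_of_ne (hmax i hi'.2) ?_
      intro heq
      have hiZ := mem_chg.1 hi'.2
      have c1 := crossing hiZ.1 hs hiZ.2
      have c0 := crossing hi0'.1 hs hi0'.2
      have hd := hS i hiZ.1 i0 hi0'.1
      have s1 : (slT j i).isSome := by
        rcases h : slT j.val i with _ | p
        · have := c1.1; rw [h] at this; simp [slv] at this
        · rfl
      have s0 : (slT j i0).isSome := by
        rcases h : slT j.val i0 with _ | p
        · have := c0.1; rw [h] at this; simp [slv] at this
        · rfl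
      unfold dif at hd
      rw [if_pos ⟨s1, s0, hi'.1⟩] at hd
      apply hd
      have hq1 : q i X ≠ 0 := hX i hiZ.1
      have hq0 : q i0 X ≠ 0 := hX i0 hi0'.1
      have hs1 : slv (slT j i) X ≠ 0 := right_ne_zero_of_mul c1.1.ne
      have hs0 : slv (slT j i0) X ≠ 0 := right_ne_zero_of_mul c0.1.ne
      unfold ct at heq
      have e1 : (q i X) ^ 2 / (-(q i X * slv (slT j i) X)) = -(q i X / slv (slT j i) X) := by
        field_simp
      have e0 : (q i0 X) ^ 2 / (-(q i0 X * slv (slT j i0) X)) = -(q i0 X / slv (slT j i0) X) := by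
        field_simp
      rw [e1, e0, neg_inj, div_eq_div_iff hs1 hs0] at heq
      linarith
    have c0 := crossing hi0'.1 hs hi0'.2
    obtain ⟨s', hs'0, hs'1, hs'2⟩ : ∃ s', 0 < s' ∧ s' < ct j i0 X ∧
        ∀ i ∈ Z.erase i0, ct j i X < s' := by
      have h1 : ∀ᶠ u in 𝓝[<] (ct j i0 X), 0 < u :=
        (eventually_gt_nhds c0.2.1).filter_mono nhdsWithin_le_nhds
      have h2 : ∀ᶠ u in 𝓝[<] (ct j i0 X), ∀ i ∈ Z.erase i0, ct j i X < u := by
        rw [Filter.eventually_all_finset]
        intro i hi
        exact (eventually_gt_nhds (hlt i hi)).filter_mono nhdsWithin_le_nhds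
      have h3 : ∀ᶠ u in 𝓝[<] (ct j i0 X), u < ct j i0 X := self_mem_nhdsWithin
      obtain ⟨u, hu⟩ := (h1.and (h3.and h2)).exists
      exact ⟨u, hu.1, hu.2.1, hu.2.2⟩
    have hs's : s' < s := hs'1.trans c0.2.2.2.2
    -- signs at the intermediate configuration
    have sgn0 : 0 < q i0 X * q i0 (move j s' X) := c0.2.2.1 s' hs'1
    have sgnZ : ∀ i ∈ Z.erase i0, q i X * q i (move j s' X) < 0 := by
      intro i hi
      have hiZ := mem_chg.1 (Finset.mem_erase.1 hi).2
      exact (crossing hiZ.1 hs hiZ.2).2.2.2.1 s' (hs'2 i hi)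
    have sgnN : ∀ i < 21, i ∉ Z → 0 < q i X * q i (move j s' X) := by
      intro i hi hiZ
      have h2 : ¬ q i X * q i (move j s X) < 0 := fun h => hiZ (mem_chg.2 ⟨hi, h⟩)
      have h3 : 0 < q i X * q i (move j s X) :=
        lt_of_le_of_ne (not_lt.1 h2) (mul_ne_zero (hX i hi) (hY i hi)).symm
      exact no_crossing hi h3 hs'0.le hs's.le
    have hgood : Good (move j s' X) := by
      intro i hi
      by_cases hiZ : i ∈ Z
      · by_cases hii : i = i0
        · subst hii; exact right_ne_zero_of_mul sgn0.ne'
        · exact right_ne_zero_of_mul (sgnZ i (Finset.mem_erase.2 ⟨hii, hiZ⟩)).ne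
      · exact right_ne_zero_of_mul (sgnN i hi hiZ).ne'
    have hchg : chg X (move j s' X) = Z.erase i0 := by
      ext i
      rw [mem_chg, Finset.mem_erase]
      constructor
      · rintro ⟨hi, h⟩
        have h4 : i ∈ Z := by
          by_contra hcon
          exact absurd h (not_lt.2 (sgnN i hi hcon).le)
        refine ⟨?_, h4⟩
        rintro rfl
        exact absurd h (not_lt.2 sgn0.le)
      · rintro ⟨h1, h2⟩
        exact ⟨(mem_chg.1 h2).1, sgnZ i (Finset.mem_erase.2 ⟨h1, h2⟩)⟩
    have hmm : move j (s - s') (move j s' X) = move j s X := by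
      rw [move_move]; congr 1; ring
    -- the last crossing
    have hedge : Edge i0 (code (move j s' X)) (code (move j s X)) := by
      rw [← hmm]
      refine edge_of_cross hgood (sub_pos.2 hs's) hi0'.1 ?_ ?_
      · intro k hk hk0
        rw [hmm]
        have hsame : 0 < q k (move j s' X) * q k (move j s X) := by
          by_cases hkZ : k ∈ Z
          · have h1 := sgnZ k (Finset.mem_erase.2 ⟨hk0, hkZ⟩)
            have h2 := (mem_chg.1 hkZ).2
            have h3 := mul_pos_of_neg_of_neg h1 h2
            have h4 : q k X * q k (move j s' X) * (q k X * q k (move j s X)) =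
                (q k X) ^ 2 * (q k (move j s' X) * q k (move j s X)) := by ring
            rw [h4] at h3
            exact (pos_iff_pos_of_mul_pos h3).1 (by have := hX k hk; positivity)
          · have h1 := sgnN k hk hkZ
            have h2' : ¬ q k X * q k (move j s X) < 0 := fun h => hkZ (mem_chg.2 ⟨hk, h⟩)
            have h2 : 0 < q k X * q k (move j s X) :=
              lt_of_le_of_ne (not_lt.1 h2') (mul_ne_zero (hX k hk) (hY k hk)).symm
            have h3 := mul_pos h1 h2
            have h4 : q k X * q k (move j s' X) * (q k X * q k (move j s X)) =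
                (q k X) ^ 2 * (q k (move j s' X) * q k (move j s X)) := by ring
            rw [h4] at h3
            exact (pos_iff_pos_of_mul_pos h3).1 (by have := hX k hk; positivity)
        exact pos_iff_pos_of_mul_pos hsame
      · rw [hmm]
        have h1 := sgn0
        have h2 := hi0'.2
        have h3 := mul_neg_of_pos_of_neg h1 h2
        have h4 : q i0 X * q i0 (move j s' X) * (q i0 X * q i0 (move j s X)) =
            (q i0 X) ^ 2 * (q i0 (move j s' X) * q i0 (move j s X)) := by ring
        rw [h4] at h3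
        by_contra hcon
        have h5 := mul_nonneg (sq_nonneg (q i0 X)) (not_lt.1 hcon)
        linarith
    have hl1 := Lv.edge hi0'.1 (code_lt _) hedge hl
    have hcard : (chg X (move j s' X)).card = N := by
      rw [hchg, Finset.card_erase_of_mem hi0, hN]; rfl
    have hl2 := ih s' hs'0 hgood hcard _ hl1
    refine hl2.mono ?_
    rw [hchg]
    by_cases h0 : (0 : ℕ) ∈ Z
    · by_cases h00 : i0 = 0
      · subst h00; simp [h0]
      · have : (0 : ℕ) ∈ Z.erase i0 := Finset.mem_erase.2 ⟨fun h => h00 h.symm, h0⟩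
        simp [h0, this, h00]
    · simp [h0]

/-- the level gained from a sign change of the top quantity -/
noncomputable def dl (X Y : E6) : ℕ := if q 0 X * q 0 Y < 0 then 1 else 0

theorem dl_eq {X Y : E6} : (if 0 ∈ chg X Y then 1 else 0) = dl X Y := by
  unfold dl
  by_cases h : q 0 X * q 0 Y < 0
  · have : 0 ∈ chg X Y := mem_chg.2 ⟨by norm_num, h⟩
    simp [h, this]
  · have : 0 ∉ chg X Y := fun hc => h (mem_chg.1 hc).2
    simp [h, this]

theorem dl_triangle {X Y Z : E6} (hY : q 0 Y ≠ 0) : dl X Z ≤ dl X Y + dl Y Z := by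
  unfold dl
  by_cases h1 : q 0 X * q 0 Z < 0
  · by_cases h2 : q 0 X * q 0 Y < 0
    · simp [h1, h2]
    · by_cases h3 : q 0 Y * q 0 Z < 0
      · simp [h1, h3]
      · exfalso
        have h4 := mul_nonneg (not_lt.1 h2) (not_lt.1 h3)
        have h5 : q 0 X * q 0 Y * (q 0 Y * q 0 Z) = (q 0 Y) ^ 2 * (q 0 X * q 0 Z) := by ring
        rw [h5] at h4
        have h6 : 0 < (q 0 Y) ^ 2 := by positivity
        have h7 := mul_neg_of_pos_of_neg h6 h1
        linarith
  · simp [h1]

end Run7.h861
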