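import Mathlib
import Pool.Agent.Run7.h861.Path

set_option autoImplicit false

/-!
# Sequences of positive moves and robust steps
-/

namespace Run7.h861

open Topology Set Filter

theorem continuous_move (j : Fin 5) (s : ℝ) : Continuous (move j s) := by
  unfold move
  refine Continuous.update continuous_id _ ?_
  fun_prop

/-- the move as a homeomorphism -/
noncomputable def moveH (j : Fin 5) (s : ℝ) : E6 ≃ₜ E6 where
  toFun := move j s
  invFun := move j (-s)
  left_inv X := by rw [move_move]; simp [move_zero]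
  right_inv X := by rw [move_move]; simp [move_zero]
  continuous_toFun := continuous_move j s
  continuous_invFun := continuous_move j (-s)

/-- same signs as `X` -/
def nb1 (X : E6) : Set E6 := {Y | ∀ i < 21, 0 < q i X * q i Y}

theorem isOpen_nb1 (X : E6) : IsOpen (nb1 X) := by
  have : nb1 X = ⋂ i ∈ Finset.range 21, {Y | 0 < q i X * q i Y} := by
    ext Y; simp [nb1]
  rw [this]
  refine isOpen_biInter_finset fun i hi => ?_
  have hi' := Finset.mem_range.1 hi
  exact isOpen_lt continuous_const (continuous_const.mul (continuous_q hi'.le))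

theorem mem_nb1_self {X : E6} (hX : Good X) : X ∈ nb1 X := fun i hi =>
  mul_self_pos.2 (hX i hi)

theorem good_of_nb1 {X Y : E6} (h : Y ∈ nb1 X) : Good Y := fun i hi =>
  right_ne_zero_of_mul (h i hi).ne'

theorem code_of_nb1 {X Y : E6} (h : Y ∈ nb1 X) : code Y = code X := (code_eq_of_same h).symm

theorem dl_congr {X X' Y Y' : E6} (hX : 0 < q 0 X * q 0 X') (hY : 0 < q 0 Y * q 0 Y') :
    dl X Y = dl X' Y' := by
  have hx : q 0 X ≠ 0 := left_ne_zero_of_mul hX.ne'
  have hx' : q 0 X' ≠ 0 := right_ne_zero_of_mul hX.ne'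
  have hy : q 0 Y ≠ 0 := left_ne_zero_of_mul hY.ne'
  have hy' : q 0 Y' ≠ 0 := right_ne_zero_of_mul hY.ne'
  have key : q 0 X * q 0 Y < 0 ↔ q 0 X' * q 0 Y' < 0 := by
    have h1 := mul_pos hX hY
    have h2 : q 0 X * q 0 X' * (q 0 Y * q 0 Y') = (q 0 X * q 0 Y) * (q 0 X' * q 0 Y') := by ring
    rw [h2] at h1
    constructor
    · intro h
      by_contra hcon
      have := mul_nonpos_of_nonpos_of_nonneg h.le (not_lt.1 hcon)
      linarith
    · intro h
      by_contra hcon
      have := mul_nonpos_of_nonneg_of_nonpos (not_lt.1 hcon) h.le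
      linarith
  unfold dl
  by_cases h : q 0 X * q 0 Y < 0
  · simp [h, key.1 h]
  · have h' : ¬ q 0 X' * q 0 Y' < 0 := fun hc => h (key.2 hc)
    simp [h, h']

theorem lv_move {X : E6} (hX : Good X) {j : Fin 5} {s : ℝ} (hs : 0 < s) (hY : Good (move j s X))
    {l : ℕ} (hl : Lv l (code (move j s X))) : Lv (l + dl X (move j s X)) (code X) := by
  have hV : IsOpen (nb1 X ∩ (move j s) ⁻¹' nb1 (move j s X)) :=
    (isOpen_nb1 X).inter ((isOpen_nb1 _).preimage (continuous_move j s))
  obtain ⟨X', ⟨h1, h2⟩, h3⟩ := (dense_sep j.isLt).inter_open_nonempty _ hV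
    ⟨X, mem_nb1_self hX, mem_nb1_self hY⟩
  have hl' : Lv l (code (move j s X')) := by rw [code_of_nb1 h2]; exact hl
  have := lv_move_sep (good_of_nb1 h1) h3 _ s hs (good_of_nb1 h2) rfl l hl'
  rw [dl_eq, code_of_nb1 h1] at this
  rw [dl_congr (h1 0 (by norm_num)) (h2 0 (by norm_num))]
  exact this

/-- run a list of moves -/
def run : List (Fin 5 × ℝ) → E6 → E6
  | [], X => X
  | (j, s) :: L, X => run L (move j s X)

theorem continuous_run (L : List (Fin 5 × ℝ)) : Continuous (run L) := by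
  induction L with
  | nil => exact continuous_id
  | cons a L ih => exact ih.comp (continuous_move a.1 a.2)

theorem run_append (L M : List (Fin 5 × ℝ)) (X : E6) : run (L ++ M) X = run M (run L X) := by
  induction L generalizing X with
  | nil => rfl
  | cons a L ih => exact ih _

/-- all parameters are positive -/
def PosL (L : List (Fin 5 × ℝ)) : Prop := ∀ p ∈ L, 0 < p.2

theorem dense_good_run (L : List (Fin 5 × ℝ)) : Dense {X : E6 | Good (run L X)} := by
  have h : ∀ (S : Set E6), Dense S → Dense (run L ⁻¹' S) := by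
    induction L with
    | nil => intro S hS; exact hS
    | cons a L ih =>
      intro S hS
      exact (ih S hS).preimage (moveH a.1 a.2).isOpenMap
  exact h _ dense_good

theorem dl_self (X : E6) : dl X X = 0 := by
  unfold dl
  rw [if_neg (not_lt.2 (mul_self_nonneg _))]

theorem lv_run : ∀ (L : List (Fin 5 × ℝ)), PosL L → ∀ {X : E6}, Good X → Good (run L X) →
    ∀ {l : ℕ}, Lv l (code (run L X)) → Lv (l + dl X (run L X)) (code X) := by
  intro L
  induction L with
  | nil =>
    intro _ X hX _ l hl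
    simp only [run, dl_self, add_zero] at *
    exact hl
  | cons a L ih =>
    intro hp X hX hR l hl
    obtain ⟨j, s⟩ := a
    have hs : 0 < s := hp (j, s) (List.mem_cons_self ..)
    have hp' : PosL L := fun p hp1 => hp p (List.mem_cons_of_mem _ hp1)
    have hV : IsOpen (nb1 X ∩ (run ((j, s) :: L)) ⁻¹' nb1 (run ((j, s) :: L) X)) :=
      (isOpen_nb1 X).inter ((isOpen_nb1 _).preimage (continuous_run _))
    obtain ⟨X', ⟨h1, h2⟩, h3⟩ := (dense_good_run [(j, s)]).inter_open_nonempty _ hV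
      ⟨X, mem_nb1_self hX, mem_nb1_self hR⟩
    have h3' : Good (move j s X') := h3
    have h2' : run L (move j s X') ∈ nb1 (run ((j, s) :: L) X) := h2
    have hl' : Lv l (code (run L (move j s X'))) := by rw [code_of_nb1 h2']; exact hl
    have i1 := ih hp' h3' (good_of_nb1 h2') hl'
    have i2 := lv_move (good_of_nb1 h1) hs h3' i1
    rw [code_of_nb1 h1] at i2
    refine i2.mono ?_
    rw [dl_congr (h1 0 (by norm_num)) (h2' 0 (by norm_num))]
    have := dl_triangle (X := X') (Z := run L (move j s X')) (h3' 0 (by norm_num))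
    omega

/-- robust step: levels near `Y` propagate to levels near `X`, with gain `M` -/
def Step (X Y : E6) (M : ℕ) : Prop :=
  ∀ U : Set E6, IsOpen U → Y ∈ U → ∃ V : Set E6, IsOpen V ∧ X ∈ V ∧
    ∀ X' ∈ V, Good X' → ∃ Y' ∈ U, Good Y' ∧ ∀ l, Lv l (code Y') → Lv (l + M) (code X')

theorem Step.trans {X Y Z : E6} {M N : ℕ} (h1 : Step X Y M) (h2 : Step Y Z N) :
    Step X Z (M + N) := by
  intro U hU hZ
  obtain ⟨V, hV, hYV, hV2⟩ := h2 U hU hZ
  obtain ⟨W, hW, hXW, hW2⟩ := h1 V hV hYV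
  refine ⟨W, hW, hXW, fun X' hX' hG => ?_⟩
  obtain ⟨Y', hY', hGY, hlY⟩ := hW2 X' hX' hG
  obtain ⟨Z', hZ', hGZ, hlZ⟩ := hV2 Y' hY' hGY
  refine ⟨Z', hZ', hGZ, fun l hl => ?_⟩
  have := hlY _ (hlZ l hl)
  rwa [show l + (M + N) = l + N + M by ring]

/-- robust reachability by positive moves -/
def Reach (X Y : E6) : Prop :=
  ∀ U : Set E6, IsOpen U → Y ∈ U → ∃ V : Set E6, IsOpen V ∧ X ∈ V ∧
    ∃ L, PosL L ∧ ∀ X' ∈ V, run L X' ∈ U

theorem step_of_reach {X Y : E6} (h : Reach X Y) : Step X Y 0 := by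
  intro U hU hY
  obtain ⟨V, hV, hXV, L, hL, hLV⟩ := h U hU hY
  refine ⟨V, hV, hXV, fun X' hX' hG => ?_⟩
  obtain ⟨X'', ⟨h1, h2⟩, h3⟩ := (dense_good_run L).inter_open_nonempty _
    ((isOpen_nb1 X').inter hV) ⟨X', mem_nb1_self hG, hX'⟩
  refine ⟨run L X'', hLV _ h2, h3, fun l hl => ?_⟩
  have := lv_run L hL (good_of_nb1 h1) h3 hl
  rw [code_of_nb1 h1] at this
  exact this.mono (by omega)

theorem step_of_reach_sign {X Y : E6} (h : Reach X Y) (hs : q 0 X * q 0 Y < 0) : Step X Y 1 := by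
  intro U hU hY
  have hx : q 0 X ≠ 0 := left_ne_zero_of_mul hs.ne
  have hy : q 0 Y ≠ 0 := right_ne_zero_of_mul hs.ne
  have hU' : IsOpen (U ∩ {Z | 0 < q 0 Y * q 0 Z}) :=
    hU.inter (isOpen_lt continuous_const (continuous_const.mul (continuous_q (by norm_num))))
  obtain ⟨V, hV, hXV, L, hL, hLV⟩ := h _ hU' ⟨hY, mul_self_pos.2 hy⟩
  refine ⟨V ∩ {Z | 0 < q 0 X * q 0 Z},
    hV.inter (isOpen_lt continuous_const (continuous_const.mul (continuous_q (by norm_num)))),
    ⟨hXV, mul_self_pos.2 hx⟩, fun X' hX' hG => ?_⟩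
  have hopen : IsOpen (nb1 X' ∩ (V ∩ {Z | 0 < q 0 X * q 0 Z})) :=
    (isOpen_nb1 X').inter (hV.inter
      (isOpen_lt continuous_const (continuous_const.mul (continuous_q (by norm_num)))))
  obtain ⟨X'', ⟨h1, h2, h2'⟩, h3⟩ := (dense_good_run L).inter_open_nonempty _ hopen
    ⟨X', mem_nb1_self hG, hX'⟩
  have h4 := hLV _ h2
  refine ⟨run L X'', h4.1, h3, fun l hl => ?_⟩
  have := lv_run L hL (good_of_nb1 h1) h3 hl
  rw [code_of_nb1 h1, ← dl_congr h2' h4.2] at this
  have hdl : dl X Y = 1 := by unfold dl; rw [if_pos hs]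
  rwa [hdl] at this

theorem Step.good {X Y : E6} {M : ℕ} (h : Step X Y M) (hX : Good X) (hY : Good Y) {l : ℕ}
    (hl : Lv l (code Y)) : Lv (l + M) (code X) := by
  obtain ⟨V, hV, hXV, h1⟩ := h (nb1 Y) (isOpen_nb1 Y) (mem_nb1_self hY)
  obtain ⟨Y', hY', _, h2⟩ := h1 X hXV hX
  apply h2
  rw [code_of_nb1 hY']
  exact hl

theorem Reach.trans {X Y Z : E6} (h1 : Reach X Y) (h2 : Reach Y Z) : Reach X Z := by
  intro U hU hZ
  obtain ⟨V, hV, hYV, L, hL, hLV⟩ := h2 U hU hZ
  obtain ⟨W, hW, hXW, M, hM, hMW⟩ := h1 V hV hYV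
  refine ⟨W, hW, hXW, M ++ L, ?_, fun X' hX' => ?_⟩
  · intro p hp
    rcases List.mem_append.1 hp with h | h
    · exact hM p h
    · exact hL p h
  · rw [run_append]; exact hLV _ (hMW _ hX')

theorem Reach.refl (X : E6) : Reach X X := by
  intro U hU hX
  exact ⟨U, hU, hX, [], fun p hp => by simp at hp, fun X' hX' => hX'⟩

end Run7.h861
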