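import Mathlib
import Pool.Agent.Run7.h861.Run

set_option autoImplicit false

/-!
# Flows as limits of positive moves
-/

namespace Run7.h861

open Topology Filter Set

theorem reach_of_approx {X Y : E6} (h : ∀ ε > 0, ∃ L, PosL L ∧ ‖run L X - Y‖ < ε) :
    Reach X Y := by
  intro U hU hY
  obtain ⟨ε, hε, hb⟩ := Metric.isOpen_iff.1 hU Y hY
  obtain ⟨L, hL, hL2⟩ := h ε hε
  refine ⟨run L ⁻¹' Metric.ball Y ε, Metric.isOpen_ball.preimage (continuous_run L), ?_, L, hL,
    fun X' hX' => hb hX'⟩
  rw [mem_preimage, Metric.mem_ball, dist_eq_norm]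
  exact hL2

/-- the generator of the flow -/
def NX (c : Fin 5 → ℝ) (X : E6) : E6 := Fin.snoc (fun j => c j • X j.succ) 0

/-- the list of one Euler step -/
def stepL (h : ℝ) (c : Fin 5 → ℝ) : List (Fin 5 × ℝ) :=
  [(0, h * c 0), (1, h * c 1), (2, h * c 2), (3, h * c 3), (4, h * c 4)]

theorem run_stepL (h : ℝ) (c : Fin 5 → ℝ) (X : E6) : run (stepL h c) X = X + h • NX c X := by
  funext a b
  fin_cases a <;> simp [stepL, run, move, NX, Fin.snoc, Fin.ext_iff, mul_assoc]
  all_goals (left; rfl)

theorem posL_stepL {h : ℝ} (hh : 0 < h) {c : Fin 5 → ℝ} (hc : ∀ j, 0 < c j) :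
    PosL (stepL h c) := by
  intro p hp
  simp only [stepL, List.mem_cons, List.not_mem_nil, or_false] at hp
  rcases hp with h1 | h1 | h1 | h1 | h1 <;> subst h1 <;> exact mul_pos hh (hc _)

theorem norm_NX_le {c : Fin 5 → ℝ} {C : ℝ} (hC : 0 ≤ C) (hc : ∀ j, |c j| ≤ C) (X : E6) :
    ‖NX c X‖ ≤ C * ‖X‖ := by
  refine (pi_norm_le_iff_of_nonneg (by positivity)).2 fun a => ?_
  refine Fin.lastCases ?_ (fun j => ?_) a
  · simp only [NX, Fin.snoc_last, norm_zero]; positivity
  · simp only [NX, Fin.snoc_castSucc]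
    rw [norm_smul, Real.norm_eq_abs]
    exact mul_le_mul (hc j) (norm_le_pi_norm X _) (norm_nonneg _) hC

theorem NX_sub (c : Fin 5 → ℝ) (X Y : E6) : NX c (X - Y) = NX c X - NX c Y := by
  funext a
  refine Fin.lastCases ?_ (fun j => ?_) a
  · simp only [NX, Fin.snoc_last, Pi.sub_apply, sub_zero]
  · simp only [NX, Fin.snoc_castSucc, Pi.sub_apply, smul_sub]

theorem continuousOn_NX {c : Fin 5 → ℝ → ℝ} {X : ℝ → E6} {s : Set ℝ}
    (hc : ∀ j, ContinuousOn (c j) s) (hX : ContinuousOn X s) :
    ContinuousOn (fun t => NX (fun j => c j t) (X t)) s := by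
  refine continuousOn_pi.2 fun a => ?_
  refine Fin.lastCases ?_ (fun j => ?_) a
  · simp only [NX, Fin.snoc_last]; exact continuousOn_const
  · simp only [NX, Fin.snoc_castSucc]
    exact (hc j).smul (continuousOn_pi.1 hX _)

theorem reach_of_flow {α β : ℝ} (hαβ : α < β) {c : Fin 5 → ℝ → ℝ} {X : ℝ → E6}
    (hc : ∀ j, ContinuousOn (c j) (Icc α β)) (hpos : ∀ j, ∀ t ∈ Icc α β, 0 < c j t)
    (hX : ∀ t ∈ Icc α β, HasDerivAt X (NX (fun j => c j t) (X t)) t) : Reach (X α) (X β) := by
  -- bound for the coefficients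
  have hbd : ∃ C : ℝ, 0 ≤ C ∧ ∀ j, ∀ t ∈ Icc α β, |c j t| ≤ C := by
    have h1 : ∀ j, ∃ C : ℝ, ∀ t ∈ Icc α β, ‖c j t‖ ≤ C := fun j =>
      isCompact_Icc.exists_bound_of_continuousOn (hc j)
    choose C hC using h1
    refine ⟨∑ j, |C j|, Finset.sum_nonneg fun j _ => abs_nonneg _, fun j t ht => ?_⟩
    have h2 := hC j t ht
    rw [Real.norm_eq_abs] at h2
    have h3 := Finset.single_le_sum (f := fun j => |C j|) (fun j _ => abs_nonneg _)
      (Finset.mem_univ j)
    exact h2.trans ((le_abs_self _).trans h3)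
  obtain ⟨C, hC0, hC⟩ := hbd
  have hXc : ContinuousOn X (Icc α β) := fun t ht => (hX t ht).continuousAt.continuousWithinAt
  have huc := isCompact_Icc.uniformContinuousOn_of_continuous (continuousOn_NX hc hXc)
  rw [Metric.uniformContinuousOn_iff] at huc
  refine reach_of_approx fun ε hε => ?_
  set K : ℝ := (β - α) * Real.exp (C * (β - α)) + 1 with hK
  have hKpos : 0 < K := by
    have : 0 ≤ (β - α) * Real.exp (C * (β - α)) :=
      mul_nonneg (by linarith) (Real.exp_pos _).le
    linarith
  set ε' : ℝ := ε / (2 * K) with hε'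
  have hε'pos : 0 < ε' := by positivity
  obtain ⟨δ, hδ, huc⟩ := huc ε' hε'pos
  obtain ⟨r, hr⟩ := exists_nat_gt ((β - α) / δ)
  have hr0 : (0 : ℝ) < r := lt_trans (div_pos (by linarith) hδ) hr
  set h : ℝ := (β - α) / r with hh
  have hhpos : 0 < h := div_pos (by linarith) hr0
  have hhδ : h < δ := by
    rw [hh, div_lt_iff₀ hr0]
    rw [div_lt_iff₀ hδ] at hr
    linarith
  have hrh : r * h = β - α := by rw [hh]; field_simp
  have hmem : ∀ i : ℕ, i ≤ r → α + i * h ∈ Icc α β := by
    intro i hi
    have h1 : (i : ℝ) ≤ r := by exact_mod_cast hi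
    have h2 : (i : ℝ) * h ≤ r * h := mul_le_mul_of_nonneg_right h1 hhpos.le
    have h3 : 0 ≤ (i : ℝ) * h := by positivity
    constructor <;> linarith
  have key : ∀ i : ℕ, i ≤ r → ∃ L, PosL L ∧
      ‖run L (X α) - X (α + i * h)‖ ≤ ε' * h * i * (1 + h * C) ^ i := by
    intro i
    induction i with
    | zero =>
      intro _
      refine ⟨[], fun p hp => by simp at hp, ?_⟩
      simp [run]
    | succ i ih =>
      intro hi
      obtain ⟨L, hL, hL2⟩ := ih (by omega)
      set t := α + i * h with ht
      have htm : t ∈ Icc α β := hmem i (by omega)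
      have htm2 : t + h ∈ Icc α β := by
        have := hmem (i + 1) hi
        rw [show α + ((i + 1 : ℕ) : ℝ) * h = t + h by rw [ht]; push_cast; ring] at this
        exact this
      have e0 : α + ((i + 1 : ℕ) : ℝ) * h = t + h := by rw [ht]; push_cast; ring
      have hloc : ‖X (t + h) - X t - h • NX (fun j => c j t) (X t)‖ ≤ ε' * h := by
        have hsub : Icc t (t + h) ⊆ Icc α β := Icc_subset_Icc htm.1 htm2.2
        have hg : ∀ u ∈ Icc t (t + h), HasDerivWithinAt
            (fun u => X u - (u - t) • NX (fun j => c j t) (X t))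
            (NX (fun j => c j u) (X u) - NX (fun j => c j t) (X t)) (Icc t (t + h)) u := by
          intro u hu
          have h1 := (hX u (hsub hu)).sub
            (((hasDerivAt_id' u).sub_const t).smul_const (NX (fun j => c j t) (X t)))
          rw [one_smul] at h1
          exact h1.hasDerivWithinAt
        have hb : ∀ u ∈ Icc t (t + h), ‖NX (fun j => c j u) (X u) - NX (fun j => c j t) (X t)‖ ≤ ε' := by
          intro u hu
          have := huc u (hsub hu) t htm (by
            rw [Real.dist_eq, abs_of_nonneg (by linarith [hu.1])]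
            linarith [hu.2])
          rw [dist_eq_norm] at this
          exact this.le
        have h2 := (convex_Icc t (t + h)).norm_image_sub_le_of_norm_hasDerivWithin_le hg hb
          (left_mem_Icc.2 (by linarith)) (right_mem_Icc.2 (by linarith))
        have e1 : (fun u => X u - (u - t) • NX (fun j => c j t) (X t)) (t + h) -
            (fun u => X u - (u - t) • NX (fun j => c j t) (X t)) t =
            X (t + h) - X t - h • NX (fun j => c j t) (X t) := by
          simp only [sub_self, zero_smul, sub_zero, add_sub_cancel_left]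
          abel
        rw [e1] at h2
        refine h2.trans_eq ?_
        rw [add_sub_cancel_left, Real.norm_eq_abs, abs_of_pos hhpos]
      refine ⟨L ++ stepL h (fun j => c j t), ?_, ?_⟩
      · intro p hp
        rcases List.mem_append.1 hp with h1 | h1
        · exact hL p h1
        · exact posL_stepL hhpos (fun j => hpos j t htm) p h1
      · rw [run_append, run_stepL, e0]
        set Y := run L (X α) with hY
        set Cc := fun j => c j t with hCc
        have e2 : Y + h • NX Cc Y - X (t + h) =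
            (Y - X t) + h • NX Cc (Y - X t) - (X (t + h) - X t - h • NX Cc (X t)) := by
          rw [NX_sub, smul_sub]; abel
        rw [e2]
        have h3 : ‖h • NX Cc (Y - X t)‖ ≤ h * (C * ‖Y - X t‖) := by
          rw [norm_smul, Real.norm_eq_abs, abs_of_pos hhpos]
          exact mul_le_mul_of_nonneg_left (norm_NX_le hC0 (fun j => hC j t htm) _) hhpos.le
        have h4 := norm_sub_le ((Y - X t) + h • NX Cc (Y - X t))
          (X (t + h) - X t - h • NX Cc (X t))
        have h5 := norm_add_le (Y - X t) (h • NX Cc (Y - X t))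
        have h6 : ‖Y - X t‖ + h * (C * ‖Y - X t‖) ≤ ε' * h * i * (1 + h * C) ^ i * (1 + h * C) := by
          have : 0 ≤ 1 + h * C := by positivity
          calc ‖Y - X t‖ + h * (C * ‖Y - X t‖) = ‖Y - X t‖ * (1 + h * C) := by ring
            _ ≤ _ := mul_le_mul_of_nonneg_right hL2 this
        have h7 : (1 : ℝ) ≤ (1 + h * C) ^ (i + 1) := one_le_pow₀ (by
          have : 0 ≤ h * C := by positivity
          linarith)
        have h8 : ε' * h ≤ ε' * h * (1 + h * C) ^ (i + 1) :=
          le_mul_of_one_le_right (by positivity) h7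
        have e3 : ε' * h * ((i + 1 : ℕ) : ℝ) * (1 + h * C) ^ (i + 1) =
            ε' * h * i * (1 + h * C) ^ i * (1 + h * C) + ε' * h * (1 + h * C) ^ (i + 1) := by
          push_cast; ring
        rw [e3]
        linarith
  obtain ⟨L, hL, hL2⟩ := key r le_rfl
  refine ⟨L, hL, ?_⟩
  rw [show α + (r : ℝ) * h = β by rw [hrh]; ring] at hL2
  refine lt_of_le_of_lt hL2 ?_
  have h1 : (1 + h * C) ^ r ≤ Real.exp (C * (β - α)) := by
    have h2 : 1 + h * C ≤ Real.exp (h * C) := by
      have := Real.add_one_le_exp (h * C)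
      linarith
    calc (1 + h * C) ^ r ≤ (Real.exp (h * C)) ^ r := pow_le_pow_left₀ (by positivity) h2 r
      _ = Real.exp (r * (h * C)) := by rw [← Real.exp_nat_mul]
      _ = Real.exp (C * (β - α)) := by rw [← hrh]; congr 1; ring
  calc ε' * h * r * (1 + h * C) ^ r = ε' * (r * h) * (1 + h * C) ^ r := by ring
    _ = ε' * (β - α) * (1 + h * C) ^ r := by rw [hrh]
    _ ≤ ε' * (β - α) * Real.exp (C * (β - α)) :=
        mul_le_mul_of_nonneg_left h1 (mul_nonneg hε'pos.le (by linarith))
    _ = ε' * (K - 1) := by rw [hK]; ring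
    _ < ε' * K := by
        apply mul_lt_mul_of_pos_left _ hε'pos
        linarith
    _ = ε / 2 := by rw [hε']; field_simp
    _ < ε := by linarith

end Run7.h861
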