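import Mathlib

set_option autoImplicit false

/-!
# Orders of vanishing through quotients
-/

namespace Run7.h861

open Topology Filter Set

theorem tendsto_div_pow_succ {g g' : ℝ → ℝ} {τ L : ℝ} {e : ℕ}
    (hg : ∀ᶠ t in 𝓝 τ, HasDerivAt g (g' t) t) (h0 : g τ = 0)
    (hL : Tendsto (fun t => g' t / (t - τ) ^ e) (𝓝[≠] τ) (𝓝 L)) :
    Tendsto (fun t => g t / (t - τ) ^ (e + 1)) (𝓝[≠] τ) (𝓝 (L / (e + 1))) := by
  have hc : ContinuousAt g τ := (hg.self_of_nhds).continuousAt
  have h1 : Tendsto g (𝓝[≠] τ) (𝓝 0) := by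
    have := hc.tendsto
    rw [h0] at this
    exact this.mono_left nhdsWithin_le_nhds
  have h2 : Tendsto (fun t : ℝ => (t - τ) ^ (e + 1)) (𝓝[≠] τ) (𝓝 0) := by
    have : Tendsto (fun t : ℝ => (t - τ) ^ (e + 1)) (𝓝 τ) (𝓝 ((τ - τ) ^ (e + 1))) := by
      apply Continuous.tendsto; fun_prop
    rw [sub_self, zero_pow (Nat.succ_ne_zero e)] at this
    exact this.mono_left nhdsWithin_le_nhds
  have h3 : ∀ t, HasDerivAt (fun t : ℝ => (t - τ) ^ (e + 1)) (((e : ℝ) + 1) * (t - τ) ^ e) t := by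
    intro t
    have := ((hasDerivAt_id' t).sub_const τ).fun_pow (e + 1)
    simpa using this
  refine HasDerivAt.lhopital_zero_nhdsNE (f' := g')
    (g' := fun t => ((e : ℝ) + 1) * (t - τ) ^ e) (hg.filter_mono nhdsWithin_le_nhds)
    (Eventually.of_forall h3) ?_ h1 h2 ?_
  · filter_upwards [self_mem_nhdsWithin] with t ht
    have : t - τ ≠ 0 := sub_ne_zero.2 ht
    positivity
  · have h4 : (fun t => g' t / (((e : ℝ) + 1) * (t - τ) ^ e)) =
        fun t => (g' t / (t - τ) ^ e) / ((e : ℝ) + 1) := by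
      funext t
      rw [div_div, mul_comm]
    rw [h4]
    exact hL.div_const _

/-- if all derivatives up to order `m` vanish, the quotient by the `m`-th power tends to zero -/
theorem tendsto_div_pow_of_iteratedDeriv {m : ℕ} : ∀ {g : ℝ → ℝ} {τ : ℝ},
    ContDiff ℝ (⊤ : ℕ∞) g → (∀ j ≤ m, iteratedDeriv j g τ = 0) →
    Tendsto (fun t => g t / (t - τ) ^ m) (𝓝[≠] τ) (𝓝 0) := by
  induction m with
  | zero =>
    intro g τ hg h
    have h0 : g τ = 0 := by simpa using h 0 le_rfl
    have : Tendsto g (𝓝 τ) (𝓝 (g τ)) := hg.continuous.tendsto τ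
    rw [h0] at this
    simpa using this.mono_left nhdsWithin_le_nhds
  | succ m ih =>
    intro g τ hg h
    have hd : ContDiff ℝ (⊤ : ℕ∞) (deriv g) := by
      have h1 : ContDiff ℝ ((⊤ : ℕ∞) + 1) g := by simpa using hg
      exact (contDiff_succ_iff_deriv.1 h1).2.2
    have h1 := ih (g := deriv g) (τ := τ) hd (fun j hj => by
      rw [← iteratedDeriv_succ']
      exact h (j + 1) (by omega))
    have hdiff : Differentiable ℝ g := hg.differentiable (by simp)
    have h2 := tendsto_div_pow_succ (g := g) (g' := deriv g) (τ := τ) (L := 0) (e := m)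
      (Eventually.of_forall fun t => (hdiff t).hasDerivAt) (by simpa using h 0 (Nat.zero_le _)) h1
    simpa using h2

end Run7.h861
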