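import Mathlib
import Pool.Agent.Run7.h861.LH

set_option autoImplicit false

/-!
# Determinants of families of vectors
-/

namespace Run7.h861

open Topology Filter Set

variable {k : ℕ}

/-- determinant of `k` vectors, as rows -/
def detR (u : Fin k → Fin k → ℝ) : ℝ := (Matrix.of u).det

theorem continuous_detR : Continuous (fun u : Fin k → Fin k → ℝ => detR u) := by
  unfold detR
  exact Continuous.matrix_det (by exact continuous_id)

/-- the determinant as a continuous multilinear map -/
noncomputable def detML (k : ℕ) : ContinuousMultilinearMap ℝ (fun _ : Fin k => Fin k → ℝ) ℝ :=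
  ⟨(Matrix.detRowAlternating : (Fin k → ℝ) [⋀^Fin k]→ₗ[ℝ] ℝ).toMultilinearMap, continuous_detR⟩

theorem detML_apply (u : Fin k → Fin k → ℝ) : detML k u = detR u := rfl

theorem hasDerivAt_detR {u : Fin k → ℝ → Fin k → ℝ} {u' : Fin k → Fin k → ℝ} {t : ℝ}
    (h : ∀ c, HasDerivAt (u c) (u' c) t) :
    HasDerivAt (fun s => detR (fun c => u c s))
      (∑ c, detR (Function.update (fun c => u c t) c (u' c))) t := by
  have h1 : HasDerivAt (fun s => fun c => u c s) u' t := hasDerivAt_pi.2 h
  have h2 := ((detML k).hasFDerivAt (fun c => u c t)).comp_hasDerivAt t h1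
  rw [ContinuousMultilinearMap.linearDeriv_apply] at h2
  exact h2

theorem detR_update_add (u : Fin k → Fin k → ℝ) (c : Fin k) (x y : Fin k → ℝ) :
    detR (Function.update u c (x + y)) = detR (Function.update u c x) +
      detR (Function.update u c y) := (detML k).map_update_add u c x y

theorem detR_update_smul (u : Fin k → Fin k → ℝ) (c : Fin k) (a : ℝ) (x : Fin k → ℝ) :
    detR (Function.update u c (a • x)) = a * detR (Function.update u c x) :=
  (detML k).map_update_smul u c a x

theorem detR_eq_zero_of_eq {u : Fin k → Fin k → ℝ} {a b : Fin k} (hab : a ≠ b) (h : u a = u b) :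
    detR u = 0 := Matrix.det_zero_of_row_eq (M := Matrix.of u) hab (show (Matrix.of u) a = (Matrix.of u) b from h)

theorem detR_ne_zero_iff {u : Fin k → Fin k → ℝ} :
    detR u ≠ 0 ↔ LinearIndependent ℝ u := by
  unfold detR
  rw [← isUnit_iff_ne_zero, ← Matrix.isUnit_iff_isUnit_det,
    ← Matrix.linearIndependent_rows_iff_isUnit]
  rfl

theorem detR_eq_zero_of_not_li {u : Fin k → Fin k → ℝ} (h : ¬ LinearIndependent ℝ u) :
    detR u = 0 := by
  by_contra hne
  exact h (detR_ne_zero_iff.1 hne)

theorem detR_perm (σ : Equiv.Perm (Fin k)) (u : Fin k → Fin k → ℝ) :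
    detR (fun c => u (σ c)) ≠ 0 ↔ detR u ≠ 0 := by
  rw [detR_ne_zero_iff, detR_ne_zero_iff]
  exact linearIndependent_equiv (R := ℝ) σ (f := u)

end Run7.h861
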