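import Mathlib
import Pool.Agent.Run7.h861.DetD

set_option autoImplicit false

/-!
# Leading behaviour of Wronskian type determinants
-/

namespace Run7.h861

open Topology Filter Set

variable {k : ℕ}

/-- determinant of derivatives of orders `J` -/
noncomputable def Dw (w : ℝ → Fin k → ℝ) (J : Fin k → ℕ) (t : ℝ) : ℝ :=
  detR (fun c => iteratedDeriv (J c) w t)

theorem hasDerivAt_iteratedDeriv {w : ℝ → Fin k → ℝ} (hw : ContDiff ℝ (⊤ : ℕ∞) w) (m : ℕ) (t : ℝ) :
    HasDerivAt (iteratedDeriv m w) (iteratedDeriv (m + 1) w t) t := by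
  have h1 : Differentiable ℝ (iteratedDeriv m w) :=
    hw.differentiable_iteratedDeriv m (by exact_mod_cast WithTop.coe_lt_top _)
  rw [iteratedDeriv_succ]
  exact (h1 t).hasDerivAt

theorem hasDerivAt_Dw {w : ℝ → Fin k → ℝ} (hw : ContDiff ℝ (⊤ : ℕ∞) w) (J : Fin k → ℕ) (t : ℝ) :
    HasDerivAt (Dw w J) (∑ c, Dw w (Function.update J c (J c + 1)) t) t := by
  have h := hasDerivAt_detR (u := fun c => iteratedDeriv (J c) w)
    (u' := fun c => iteratedDeriv (J c + 1) w t) (t := t)
    (fun c => hasDerivAt_iteratedDeriv hw (J c) t)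
  have e : ∀ c, Function.update (fun c => iteratedDeriv (J c) w t) c (iteratedDeriv (J c + 1) w t) =
      fun c' => iteratedDeriv (Function.update J c (J c + 1) c') w t := by
    intro c; funext c'
    by_cases hc : c' = c
    · subst hc; simp
    · simp [Function.update_of_ne hc]
  simp only [e] at h
  exact h

theorem continuous_Dw {w : ℝ → Fin k → ℝ} (hw : ContDiff ℝ (⊤ : ℕ∞) w) (J : Fin k → ℕ) :
    Continuous (Dw w J) :=
  continuous_iff_continuousAt.2 fun t => (hasDerivAt_Dw hw J t).continuousAt

/-- the space spanned by the first pivots -/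
noncomputable def pspan (w : ℝ → Fin k → ℝ) (τ : ℝ) (I : Fin k → ℕ) (b : Fin k) :
    Submodule ℝ (Fin k → ℝ) :=
  Submodule.span ℝ (Set.range fun c : {c : Fin k // c < b} => iteratedDeriv (I c) w τ)

/-- `I` is the sequence of pivots of the derivatives of `w` at `τ` -/
structure TypeS (w : ℝ → Fin k → ℝ) (τ : ℝ) (I : Fin k → ℕ) : Prop where
  mono : StrictMono I
  mem : ∀ b, ∀ j < I b, iteratedDeriv j w τ ∈ pspan w τ I b
  ne : Dw w I τ ≠ 0

theorem TypeS.zero {w : ℝ → Fin k → ℝ} {τ : ℝ} {I J : Fin k → ℕ} (h : TypeS w τ I)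
    (hJ : StrictMono J) (hIJ : ¬ ∀ c, I c ≤ J c) : Dw w J τ = 0 := by
  by_contra hne
  have hli := detR_ne_zero_iff.1 hne
  push Not at hIJ
  obtain ⟨b, hb⟩ := hIJ
  have hli2 : LinearIndependent ℝ (fun c : {c : Fin k // c ≤ b} => iteratedDeriv (J c) w τ) :=
    hli.comp (fun c : {c : Fin k // c ≤ b} => (c : Fin k)) Subtype.val_injective
  have h1 := finrank_span_eq_card hli2
  have h2 : Submodule.span ℝ (Set.range fun c : {c : Fin k // c ≤ b} =>
      iteratedDeriv (J c) w τ) ≤ pspan w τ I b := by
    rw [Submodule.span_le]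
    rintro _ ⟨c, rfl⟩
    exact h.mem b (J c) (lt_of_le_of_lt (hJ.monotone c.2) hb)
  have h3 := Submodule.finrank_mono h2
  have h4 : Module.finrank ℝ (pspan w τ I b) ≤ Fintype.card {c : Fin k // c < b} :=
    finrank_range_le_card _
  have h5 : Fintype.card {c : Fin k // c < b} < Fintype.card {c : Fin k // c ≤ b} := by
    rw [Fintype.card_subtype, Fintype.card_subtype]
    refine Finset.card_lt_card ⟨fun c hc => ?_, fun hcon => ?_⟩
    · simp only [Finset.mem_filter, Finset.mem_univ, true_and] at hc ⊢
      exact hc.le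
    · have : b ∈ Finset.filter (fun c => c < b) Finset.univ := hcon (by simp)
      simp at this
  rw [h1] at h3
  omega

theorem sum_update_succ (J : Fin k → ℕ) (c : Fin k) :
    ∑ i, Function.update J c (J c + 1) i = (∑ i, J i) + 1 := by
  rw [Finset.sum_update_of_mem (Finset.mem_univ c)]
  have := Finset.add_sum_erase Finset.univ J (Finset.mem_univ c)
  rw [Finset.sdiff_singleton_eq_erase]
  omega

theorem Dw_eq_zero_of_not_mono {w : ℝ → Fin k → ℝ} {J : Fin k → ℕ} (hJ : StrictMono J) {c : Fin k}
    (h : ¬ StrictMono (Function.update J c (J c + 1))) (t : ℝ) :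
    Dw w (Function.update J c (J c + 1)) t = 0 := by
  have : ∃ c', c < c' ∧ J c' = J c + 1 := by
    by_contra hcon
    push Not at hcon
    apply h
    intro a b hab
    by_cases ha : a = c
    · subst ha
      rw [Function.update_self, Function.update_of_ne hab.ne']
      have h1 := hcon b hab
      have h2 := hJ hab
      omega
    · rw [Function.update_of_ne ha]
      by_cases hb : b = c
      · subst hb
        rw [Function.update_self]
        have := hJ hab
        omega
      · rw [Function.update_of_ne hb]
        exact hJ hab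
  obtain ⟨c', h1, h2⟩ := this
  unfold Dw
  apply detR_eq_zero_of_eq (a := c) (b := c') h1.ne
  rw [Function.update_self, Function.update_of_ne h1.ne', h2]

theorem TypeS.tendsto {w : ℝ → Fin k → ℝ} {τ : ℝ} {I : Fin k → ℕ} (hw : ContDiff ℝ (⊤ : ℕ∞) w)
    (h : TypeS w τ I) : ∀ (e : ℕ) (J : Fin k → ℕ), StrictMono J → (∑ c, J c) + e = ∑ c, I c →
      ∃ κ : ℝ, 0 ≤ κ ∧ ((∀ c, J c ≤ I c) → 0 < κ) ∧
        Tendsto (fun t => Dw w J t / (t - τ) ^ e) (𝓝[≠] τ) (𝓝 (κ * Dw w I τ)) := by
  intro e
  induction e with
  | zero =>
    intro J hJ hsum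
    have hcont : Tendsto (fun t => Dw w J t / (t - τ) ^ 0) (𝓝[≠] τ) (𝓝 (Dw w J τ)) := by
      simpa using ((continuous_Dw hw J).tendsto τ).mono_left nhdsWithin_le_nhds
    by_cases hJI : J = I
    · subst hJI
      exact ⟨1, zero_le_one, fun _ => one_pos, by simpa using hcont⟩
    · have hnot : ∀ {A B : Fin k → ℕ}, A ≠ B → (∑ c, A c = ∑ c, B c) → ¬ ∀ c, A c ≤ B c := by
        intro A B hne hs hle
        apply hne
        have := (Finset.sum_eq_sum_iff_of_le (s := Finset.univ) fun c _ => hle c).1 hs
        funext c
        exact this c (Finset.mem_univ c)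
      have h0 : Dw w J τ = 0 := h.zero hJ (hnot (Ne.symm hJI) (by omega))
      refine ⟨0, le_rfl, fun hle => absurd hle (hnot hJI (by omega)), ?_⟩
      rw [h0] at hcont
      simpa using hcont
  | succ e ih =>
    intro J hJ hsum
    have hz : Dw w J τ = 0 := by
      apply h.zero hJ
      intro hle
      have := Finset.sum_le_sum fun c (_ : c ∈ Finset.univ) => hle c
      omega
    have key : ∀ c, ∃ κ : ℝ, 0 ≤ κ ∧
        ((StrictMono (Function.update J c (J c + 1)) ∧
          ∀ i, Function.update J c (J c + 1) i ≤ I i) → 0 < κ) ∧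
        Tendsto (fun t => Dw w (Function.update J c (J c + 1)) t / (t - τ) ^ e) (𝓝[≠] τ)
          (𝓝 (κ * Dw w I τ)) := by
      intro c
      by_cases hm : StrictMono (Function.update J c (J c + 1))
      · obtain ⟨κ, h1, h2, h3⟩ := ih _ hm (by rw [sum_update_succ]; omega)
        exact ⟨κ, h1, fun h4 => h2 h4.2, h3⟩
      · refine ⟨0, le_rfl, fun h4 => absurd h4.1 hm, ?_⟩
        simp only [Dw_eq_zero_of_not_mono hJ hm, zero_div, zero_mul]
        exact tendsto_const_nhds
    choose κ hκ0 hκ1 hκ2 using key
    have hs := tendsto_finsetSum Finset.univ fun c (_ : c ∈ Finset.univ) => hκ2 c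
    have hlim := tendsto_div_pow_succ (g := Dw w J)
      (g' := fun t => ∑ c, Dw w (Function.update J c (J c + 1)) t) (τ := τ) (e := e)
      (L := ∑ c, κ c * Dw w I τ) (Eventually.of_forall fun t => hasDerivAt_Dw hw J t) hz
      (by simpa only [Finset.sum_div] using hs)
    refine ⟨(∑ c, κ c) / (e + 1), ?_, ?_, ?_⟩
    · exact div_nonneg (Finset.sum_nonneg fun c _ => hκ0 c) (by positivity)
    · intro hle
      have hex : ∃ c, J c < I c := by
        by_contra hcon
        push Not at hcon
        have := Finset.sum_le_sum fun c (_ : c ∈ Finset.univ) => hcon c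
        omega
      obtain ⟨c0, hc0⟩ := hex
      obtain ⟨c, hc, hmax⟩ := Finset.exists_max_image
        (Finset.univ.filter fun c => J c < I c) (fun c => c) ⟨c0, by simpa using hc0⟩
      have hc' : J c < I c := by simpa using hc
      have hup : ∀ c', c < c' → J c' = I c' := by
        intro c' hcc'
        refine le_antisymm (hle c') ?_
        by_contra hcon
        have := hmax c' (by simpa using not_le.1 hcon)
        exact absurd hcc' (not_lt.2 this)
      have hpos : 0 < κ c := by
        apply hκ1 c
        constructor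
        · intro a b hab
          by_cases ha : a = c
          · subst ha
            rw [Function.update_self, Function.update_of_ne hab.ne', hup b hab]
            have := h.mono hab
            omega
          · rw [Function.update_of_ne ha]
            by_cases hb : b = c
            · subst hb
              rw [Function.update_self]
              have := hJ hab
              omega
            · rw [Function.update_of_ne hb]
              exact hJ hab
        · intro i
          by_cases hi : i = c
          · subst hi; rw [Function.update_self]; omega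
          · rw [Function.update_of_ne hi]; exact hle i
      refine div_pos ?_ (by positivity)
      exact Finset.sum_pos' (fun c _ => hκ0 c) ⟨c, Finset.mem_univ c, hpos⟩
    · rw [← Finset.sum_mul] at hlim
      have e1 : (∑ c, κ c) / ((e : ℝ) + 1) * Dw w I τ = (∑ c, κ c) * Dw w I τ / ((e : ℝ) + 1) := by
        ring
      rw [e1]
      exact hlim

end Run7.h861
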