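import Mathlib
import Pool.Agent.Run7.h861.TypeL

set_option autoImplicit false

/-!
# Existence of pivots
-/

namespace Run7.h861

open Topology Filter Set

variable {k : ℕ}

theorem detR_update_sum (u : Fin k → Fin k → ℝ) (c : Fin k) (x : Fin k → ℝ) :
    detR (Function.update u c (∑ a, x a • u a)) = x c * detR u := by
  have h : ∀ s : Finset (Fin k), detR (Function.update u c (∑ a ∈ s, x a • u a)) =
      ∑ a ∈ s, x a * detR (Function.update u c (u a)) := by
    intro s
    induction s using Finset.induction_on with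
    | empty =>
      simp only [Finset.sum_empty]
      have := detR_update_smul u c 0 0
      simpa using this
    | insert a s ha ih =>
      rw [Finset.sum_insert ha, detR_update_add, detR_update_smul, ih, Finset.sum_insert ha]
  rw [h, Finset.sum_eq_single c]
  · rw [Function.update_eq_self]
  · intro a _ hac
    rw [detR_eq_zero_of_eq (u := Function.update u c (u a)) (a := a) (b := c) hac, mul_zero]
    rw [Function.update_self, Function.update_of_ne hac]
  · intro hc; exact absurd (Finset.mem_univ c) hc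

theorem exists_typeS {w : ℝ → Fin k → ℝ} {τ : ℝ} {n : ℕ}
    (h : ∃ I : Fin k → ℕ, (∀ c, I c < n) ∧ Dw w I τ ≠ 0) :
    ∃ I, TypeS w τ I ∧ ∀ c, I c < n := by
  classical
  have hex : ∃ s, ∃ I : Fin k → ℕ, (∀ c, I c < n) ∧ Dw w I τ ≠ 0 ∧ ∑ c, I c = s := by
    obtain ⟨I, h1, h2⟩ := h
    exact ⟨_, I, h1, h2, rfl⟩
  obtain ⟨I1, h1, h2, h3⟩ := Nat.find_spec hex
  have hmin : ∀ I : Fin k → ℕ, (∀ c, I c < n) → Dw w I τ ≠ 0 → ∑ c, I1 c ≤ ∑ c, I c := by
    intro I hI1 hI2
    rw [h3]
    exact Nat.find_min' hex ⟨I, hI1, hI2, rfl⟩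
  set σ := Tuple.sort I1 with hσ
  set I : Fin k → ℕ := I1 ∘ σ with hI
  have hImono : Monotone I := Tuple.monotone_sort I1
  have hIne : Dw w I τ ≠ 0 := (detR_perm σ (fun c => iteratedDeriv (I1 c) w τ)).2 h2
  have hsum : ∑ c, I c = ∑ c, I1 c := Equiv.sum_comp σ I1
  have hIs : StrictMono I := by
    refine hImono.strictMono_of_injective fun a b hab => ?_
    by_contra hne
    exact hIne (detR_eq_zero_of_eq hne (by simp only [hab]))
  refine ⟨I, ⟨hIs, ?_, hIne⟩, fun c => h1 (σ c)⟩
  intro b j hj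
  set u : Fin k → Fin k → ℝ := fun c => iteratedDeriv (I c) w τ with hu
  have hli : LinearIndependent ℝ u := detR_ne_zero_iff.1 hIne
  have htop : Submodule.span ℝ (Set.range u) = ⊤ :=
    hli.span_eq_top_of_card_eq_finrank' (by simp)
  have hmem : iteratedDeriv j w τ ∈ Submodule.span ℝ (Set.range u) := by
    rw [htop]; exact Submodule.mem_top
  obtain ⟨x, hx⟩ := (Submodule.mem_span_range_iff_exists_fun ℝ).1 hmem
  have hx0 : ∀ c, b ≤ c → x c = 0 := by
    intro c hbc
    by_contra hxc
    have h4 : Dw w (Function.update I c j) τ ≠ 0 := by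
      have e : Dw w (Function.update I c j) τ =
          detR (Function.update u c (∑ a, x a • u a)) := by
        unfold Dw
        congr 1
        funext c'
        by_cases hc : c' = c
        · subst hc; simp [hx]
        · simp [Function.update_of_ne hc, hu]
      rw [e, detR_update_sum]
      exact mul_ne_zero hxc hIne
    have hIc : j < I c := lt_of_lt_of_le hj (hImono hbc)
    have h5 := hmin (Function.update I c j) (fun c' => by
      by_cases hc : c' = c
      · subst hc; rw [Function.update_self]; exact hIc.trans (h1 _)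
      · rw [Function.update_of_ne hc]; exact h1 _) h4
    have h6 : ∑ i, Function.update I c j i + I c = ∑ i, I i + j := by
      rw [Finset.sum_update_of_mem (Finset.mem_univ c), Finset.sdiff_singleton_eq_erase]
      have := Finset.add_sum_erase Finset.univ I (Finset.mem_univ c)
      omega
    omega
  rw [← hx]
  refine Submodule.sum_mem _ fun c _ => ?_
  by_cases hc : c < b
  · exact Submodule.smul_mem _ _ (Submodule.subset_span ⟨⟨c, hc⟩, rfl⟩)
  · rw [hx0 c (not_lt.1 hc), zero_smul]; exact Submodule.zero_mem _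

theorem le_of_strictMono {I : Fin k → ℕ} (h : StrictMono I) (c : Fin k) : (c : ℕ) ≤ I c := by
  obtain ⟨c, hc⟩ := c
  induction c with
  | zero => exact Nat.zero_le _
  | succ c ih =>
    have h1 := ih (by omega)
    have h2 : I ⟨c, by omega⟩ < I ⟨c + 1, hc⟩ := h (by simp [Fin.lt_def])
    simp only at h1 ⊢
    omega

theorem strictMono_val : StrictMono (fun c : Fin k => (c : ℕ)) := fun _ _ h => h

/-- the leading behaviour of the Wronskian type determinant -/
theorem TypeS.tendsto_top {w : ℝ → Fin k → ℝ} {τ : ℝ} {I : Fin k → ℕ}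
    (hw : ContDiff ℝ (⊤ : ℕ∞) w) (h : TypeS w τ I) {m : ℕ} (hm : (∑ c : Fin k, (c : ℕ)) + m = ∑ c, I c) :
    ∃ κ : ℝ, 0 < κ ∧
      Tendsto (fun t => Dw w (fun c => (c : ℕ)) t / (t - τ) ^ m) (𝓝[≠] τ) (𝓝 (κ * Dw w I τ)) := by
  obtain ⟨κ, _, h2, h3⟩ := h.tendsto hw m (fun c => (c : ℕ)) strictMono_val hm
  exact ⟨κ, h2 (le_of_strictMono h.mono), h3⟩

theorem contDiff_Dw {w : ℝ → Fin k → ℝ} (hw : ContDiff ℝ (⊤ : ℕ∞) w) (J : Fin k → ℕ) :
    ContDiff ℝ (⊤ : ℕ∞) (Dw w J) := by
  have h1 : ∀ c, ContDiff ℝ (⊤ : ℕ∞) (iteratedDeriv (J c) w) := fun c => by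
    rw [iteratedDeriv_eq_iterate]
    exact ContDiff.iterate_deriv (J c) hw
  have h2 : ContDiff ℝ (⊤ : ℕ∞) (fun t => fun c => iteratedDeriv (J c) w t) := contDiff_pi.2 h1
  exact (detML k).contDiff.comp h2

/-- the number of vanishing derivatives is at most the order given by the pivots -/
theorem TypeS.le_order {w : ℝ → Fin k → ℝ} {τ : ℝ} {I : Fin k → ℕ}
    (hw : ContDiff ℝ (⊤ : ℕ∞) w) (h : TypeS w τ I) {m μ : ℕ}
    (hm : (∑ c : Fin k, (c : ℕ)) + m = ∑ c, I c)
    (hμ : ∀ j < μ, iteratedDeriv j (Dw w (fun c => (c : ℕ))) τ = 0) : μ ≤ m := by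
  by_contra hcon
  obtain ⟨κ, h1, h2⟩ := h.tendsto_top hw hm
  have h3 := tendsto_div_pow_of_iteratedDeriv (m := m) (contDiff_Dw hw _)
    (fun j hj => hμ j (by omega))
  have h4 := tendsto_nhds_unique h2 h3
  exact mul_ne_zero h1.ne' h.ne h4

end Run7.h861
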