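import Mathlib
import Pool.Agent.Run7.h861.TypeE

set_option autoImplicit false

/-!
# Splitting a multiple zero into sign changes
-/

namespace Run7.h861

open Topology Filter Set

variable {k n : ℕ}

/-- linear image of a vector -/
def pj (P : Fin k → Fin n → ℝ) (x : Fin n → ℝ) : Fin k → ℝ := fun r => ∑ i, P r i * x i

/-- the projected curve -/
def wP (P : Fin k → Fin n → ℝ) (γ : ℝ → Fin n → ℝ) (t : ℝ) : Fin k → ℝ := pj P (γ t)

theorem hasDerivAt_pj {P : Fin k → Fin n → ℝ} {g : ℝ → Fin n → ℝ} {g' : Fin n → ℝ} {t : ℝ}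
    (h : HasDerivAt g g' t) : HasDerivAt (fun u => pj P (g u)) (pj P g') t := by
  unfold pj
  refine hasDerivAt_pi.2 fun r => ?_
  exact HasDerivAt.fun_sum fun i _ => ((hasDerivAt_pi.1 h i).const_mul (P r i))

theorem iteratedDeriv_wP (P : Fin k → Fin n → ℝ) {γ : ℝ → Fin n → ℝ}
    (hγ : ContDiff ℝ (⊤ : ℕ∞) γ) (l : ℕ) (t : ℝ) :
    iteratedDeriv l (wP P γ) t = pj P (iteratedDeriv l γ t) := by
  induction l generalizing t with
  | zero => simp [wP]
  | succ l ih =>
    rw [iteratedDeriv_succ, funext ih]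
    have h1 : Differentiable ℝ (iteratedDeriv l γ) :=
      hγ.differentiable_iteratedDeriv l (by exact_mod_cast WithTop.coe_lt_top _)
    have h2 := (hasDerivAt_pj (P := P) (h1 t).hasDerivAt).deriv
    rw [h2, iteratedDeriv_succ]

theorem contDiff_wP (P : Fin k → Fin n → ℝ) {γ : ℝ → Fin n → ℝ}
    (hγ : ContDiff ℝ (⊤ : ℕ∞) γ) : ContDiff ℝ (⊤ : ℕ∞) (wP P γ) := by
  unfold wP pj
  refine contDiff_pi.2 fun r => ?_
  refine ContDiff.sum fun i _ => ?_
  exact contDiff_const.mul (contDiff_pi.1 hγ i)

theorem continuous_pj_left (x : Fin n → ℝ) : Continuous fun P : Fin k → Fin n → ℝ => pj P x := by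
  unfold pj
  fun_prop

theorem continuous_Dw_left {γ : ℝ → Fin n → ℝ} (hγ : ContDiff ℝ (⊤ : ℕ∞) γ) (J : Fin k → ℕ)
    (t : ℝ) : Continuous fun P : Fin k → Fin n → ℝ => Dw (wP P γ) J t := by
  unfold Dw
  simp only [iteratedDeriv_wP _ hγ]
  exact continuous_detR.comp (continuous_pi fun c => continuous_pj_left _)

/-- the sign of the Wronskian just before the point -/
theorem TypeS.exists_sign {w : ℝ → Fin k → ℝ} {τ : ℝ} {I : Fin k → ℕ}
    (hw : ContDiff ℝ (⊤ : ℕ∞) w) (h : TypeS w τ I) {m : ℕ}
    (hm : (∑ c : Fin k, (c : ℕ)) + m = ∑ c, I c) :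
    ∀ᶠ t in 𝓝[<] τ, 0 < (-1) ^ m * Dw w (fun c => (c : ℕ)) t * Dw w I τ := by
  obtain ⟨κ, h1, h2⟩ := h.tendsto_top hw hm
  have h3 : Tendsto (fun t => Dw w (fun c => (c : ℕ)) t / (t - τ) ^ m * Dw w I τ) (𝓝[<] τ)
      (𝓝 (κ * Dw w I τ * Dw w I τ)) :=
    (h2.mono_left (nhdsWithin_mono _ fun x hx => ne_of_lt hx)).mul_const _
  have hpos : 0 < κ * Dw w I τ * Dw w I τ := by
    rw [mul_assoc]
    exact mul_pos h1 (mul_self_pos.2 h.ne)
  filter_upwards [h3.eventually (lt_mem_nhds hpos), self_mem_nhdsWithin] with t ht1 ht2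
  have ht3 : 0 < τ - t := sub_pos.2 ht2
  have ht4 : t - τ ≠ 0 := by linarith
  have e : (-1) ^ m * Dw w (fun c => (c : ℕ)) t * Dw w I τ =
      (Dw w (fun c => (c : ℕ)) t / (t - τ) ^ m * Dw w I τ) * (τ - t) ^ m := by
    have e1 : (τ - t) ^ m = (-1) ^ m * (t - τ) ^ m := by
      rw [← mul_pow]; congr 1; ring
    rw [e1]
    field_simp
  rw [e]
  positivity

/-- perturbation of the projection -/
def pert (P : Fin k → Fin n → ℝ) (ε : ℝ) (v : Fin k → ℝ) (φ : Fin n → ℝ) :
    Fin k → Fin n → ℝ := fun r j => P r j + ε * (v r * φ j)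

theorem pj_pert (P : Fin k → Fin n → ℝ) (ε : ℝ) (v : Fin k → ℝ) (φ : Fin n → ℝ) (x : Fin n → ℝ) :
    pj (pert P ε v φ) x = pj P x + (ε * ∑ j, φ j * x j) • v := by
  funext r
  simp only [pj, pert, Pi.add_apply, Pi.smul_apply, smul_eq_mul, add_mul, Finset.sum_add_distrib,
    Finset.mul_sum, Finset.sum_mul]
  congr 1
  refine Finset.sum_congr rfl fun j _ => ?_
  ring

theorem typeS_of_pert {w w1 : ℝ → Fin k → ℝ} {τ : ℝ} {I : Fin k → ℕ} (h : TypeS w τ I)
    {a0 : Fin k} (ha : ∀ a < a0, I a = a) (ha0 : (a0 : ℕ) < I a0) {ε : ℝ} (hε : ε ≠ 0) {N : ℕ}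
    (hN : ∀ c, I c < N)
    (hw1 : ∀ l < N, l ≠ I a0 - 1 → iteratedDeriv l w1 τ = iteratedDeriv l w τ)
    (hw2 : iteratedDeriv (I a0 - 1) w1 τ = iteratedDeriv (I a0 - 1) w τ +
      ε • iteratedDeriv (I a0) w τ) :
    TypeS w1 τ (Function.update I a0 (I a0 - 1)) ∧
      Dw w1 (Function.update I a0 (I a0 - 1)) τ = ε * Dw w I τ := by
  set i := I a0 with hi
  have hIne : ∀ c, I c ≠ i - 1 := by
    intro c hc
    rcases lt_or_ge c a0 with h1 | h1
    · have := ha c h1
      have h2 : (c : ℕ) < a0 := h1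
      omega
    · have := h.mono.monotone h1
      omega
  have hmono : StrictMono (Function.update I a0 (i - 1)) := by
    intro a b hab
    by_cases h1 : a = a0
    · subst h1
      rw [Function.update_self, Function.update_of_ne hab.ne']
      have := h.mono hab
      omega
    · rw [Function.update_of_ne h1]
      by_cases h2 : b = a0
      · subst h2
        rw [Function.update_self, ha a hab]
        have : (a : ℕ) < b := hab
        omega
      · rw [Function.update_of_ne h2]
        exact h.mono hab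
  have hle : ∀ c, Function.update I a0 (i - 1) c < N := by
    intro c
    by_cases h1 : c = a0
    · subst h1; rw [Function.update_self]; have := hN c; omega
    · rw [Function.update_of_ne h1]; exact hN c
  have hD : Dw w1 (Function.update I a0 (i - 1)) τ = ε * Dw w I τ := by
    have e1 : Dw w1 (Function.update I a0 (i - 1)) τ =
        detR (Function.update (fun c => iteratedDeriv (I c) w τ) a0
          (iteratedDeriv (i - 1) w τ + ε • iteratedDeriv i w τ)) := by
      unfold Dw
      congr 1
      funext c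
      by_cases h1 : c = a0
      · subst h1; rw [Function.update_self, Function.update_self, hw2]
      · rw [Function.update_of_ne h1, Function.update_of_ne h1, hw1 _ (hN c) (hIne c)]
    have e2 : detR (Function.update (fun c => iteratedDeriv (I c) w τ) a0
        (iteratedDeriv (i - 1) w τ)) = Dw w (Function.update I a0 (i - 1)) τ := by
      unfold Dw
      congr 1
      funext c
      by_cases h1 : c = a0
      · subst h1; rw [Function.update_self, Function.update_self]
      · rw [Function.update_of_ne h1, Function.update_of_ne h1]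
    have e3 : detR (Function.update (fun c => iteratedDeriv (I c) w τ) a0
        (iteratedDeriv i w τ)) = Dw w I τ := by
      unfold Dw
      congr 1
      exact Function.update_eq_self a0 (fun c => iteratedDeriv (I c) w τ)
    rw [e1, detR_update_add, detR_update_smul, e2, e3, h.zero hmono, zero_add]
    intro hcon
    have := hcon a0
    rw [Function.update_self] at this
    omega
  refine ⟨⟨hmono, ?_, ?_⟩, hD⟩
  · intro b j hj
    have hgen : ∀ c < b, iteratedDeriv (Function.update I a0 (i - 1) c) w1 τ ∈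
        pspan w1 τ (Function.update I a0 (i - 1)) b := fun c hc =>
      Submodule.subset_span ⟨⟨c, hc⟩, rfl⟩
    have hlow : ∀ c, c < a0 → iteratedDeriv (Function.update I a0 (i - 1) c) w1 τ =
        iteratedDeriv (I c) w τ := by
      intro c hc
      rw [Function.update_of_ne hc.ne, hw1 _ (hN c) (hIne c)]
    have hpa : pspan w τ I a0 ≤ pspan w1 τ (Function.update I a0 (i - 1)) a0 := by
      unfold pspan
      rw [Submodule.span_le]
      rintro _ ⟨c, rfl⟩
      simp only
      rw [← hlow c.1 c.2]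
      exact Submodule.subset_span ⟨c, rfl⟩
    rcases lt_trichotomy b a0 with hb | hb | hb
    · rw [Function.update_of_ne hb.ne, ha b hb] at hj
      have hjk : j < k := by have := b.isLt; omega
      have e : Function.update I a0 (i - 1) ⟨j, hjk⟩ = j := by
        have hlt : (⟨j, hjk⟩ : Fin k) < a0 := lt_trans (Fin.lt_def.2 hj) hb
        rw [Function.update_of_ne hlt.ne, ha _ hlt]
      have := hgen ⟨j, hjk⟩ (Fin.lt_def.2 hj)
      rwa [e] at this
    · subst hb
      rw [Function.update_self] at hj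
      rw [hw1 j (by have := hN b; omega) (by omega)]
      exact hpa (h.mem b j (by omega))
    · rw [Function.update_of_ne hb.ne'] at hj
      have hab : pspan w1 τ (Function.update I a0 (i - 1)) a0 ≤
          pspan w1 τ (Function.update I a0 (i - 1)) b := by
        unfold pspan
        rw [Submodule.span_le]
        rintro _ ⟨c, rfl⟩
        exact Submodule.subset_span ⟨⟨c.1, c.2.trans hb⟩, rfl⟩
      have hpb : pspan w τ I b ≤ pspan w1 τ (Function.update I a0 (i - 1)) b := by
        unfold pspan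
        rw [Submodule.span_le]
        rintro _ ⟨c, rfl⟩
        by_cases hc : c.1 = a0
        · simp only [hc, SetLike.mem_coe]
          have h1 : iteratedDeriv (i - 1) w1 τ ∈ pspan w1 τ (Function.update I a0 (i - 1)) b := by
            have := hgen a0 hb
            rwa [Function.update_self] at this
          have h2 : iteratedDeriv (i - 1) w τ ∈ pspan w1 τ (Function.update I a0 (i - 1)) b :=
            hab (hpa (h.mem a0 (i - 1) (by omega)))
          have h3 : iteratedDeriv i w τ =
              ε⁻¹ • (iteratedDeriv (i - 1) w1 τ - iteratedDeriv (i - 1) w τ) := by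
            rw [hw2, add_sub_cancel_left, smul_smul, inv_mul_cancel₀ hε, one_smul]
          have h4 := Submodule.smul_mem _ ε⁻¹ (Submodule.sub_mem _ h1 h2)
          rw [← h3] at h4
          exact h4
        · simp only [SetLike.mem_coe]
          have := hgen c.1 c.2
          rw [Function.update_of_ne hc, hw1 _ (hN c.1) (hIne c.1)] at this
          exact this
      by_cases hji : j = i - 1
      · have := hgen a0 hb
        rw [Function.update_self] at this
        rw [hji]
        exact this
      · rw [hw1 j (by have := hN b; omega) hji]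
        exact hpb (h.mem b j hj)
  · rw [hD]
    exact mul_ne_zero hε h.ne

/-- splitting a zero of order `m` into `m` sign changes -/
theorem exists_split {γ : ℝ → Fin n → ℝ} (hγ : ContDiff ℝ (⊤ : ℕ∞) γ) {τ : ℝ}
    (hφ : ∀ i < n, ∃ φ : Fin n → ℝ, ∀ l < n,
      ∑ j, φ j * iteratedDeriv l γ τ j = if l = i then 1 else 0) :
    ∀ (m : ℕ) (P : Fin k → Fin n → ℝ) (I : Fin k → ℕ), TypeS (wP P γ) τ I → (∀ c, I c < n) →
      (∑ c : Fin k, (c : ℕ)) + m = ∑ c, I c → ∀ U : Set (Fin k → Fin n → ℝ), IsOpen U → P ∈ U →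
      ∀ η > 0, ∃ P' ∈ U, ∃ s : ℕ → ℝ, (∀ i ≤ m, τ - η < s i ∧ s i < τ) ∧ (∀ i < m, s i < s (i + 1)) ∧
        ∀ i ≤ m, 0 < (-1) ^ (m - i) * Dw (wP P' γ) (fun c => (c : ℕ)) (s i) * Dw (wP P γ) I τ := by
  intro m
  induction m with
  | zero =>
    intro P I hI hIn hm U hU hP η hη
    have h1 := hI.exists_sign (contDiff_wP P hγ) hm
    have h2 : ∀ᶠ t in 𝓝[<] τ, t ∈ Ioo (τ - η) τ := Ioo_mem_nhdsLT (by linarith)
    obtain ⟨t, ht1, ht2⟩ := (h1.and h2).exists
    refine ⟨P, hP, fun _ => t, fun i _ => ht2, fun i hi => absurd hi (Nat.not_lt_zero i), ?_⟩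
    intro i hi
    have : i = 0 := by omega
    subst this
    simpa using ht1
  | succ m ih =>
    intro P I hI hIn hm U hU hP η hη
    have h1 := hI.exists_sign (contDiff_wP P hγ) hm
    have h2 : ∀ᶠ t in 𝓝[<] τ, t ∈ Ioo (τ - η) τ := Ioo_mem_nhdsLT (by linarith)
    obtain ⟨t, ht1, ht2⟩ := (h1.and h2).exists
    set D := Dw (wP P γ) I τ with hDdef
    have hU1 : IsOpen (U ∩ {Q | 0 < (-1) ^ (m + 1) * Dw (wP Q γ) (fun c => (c : ℕ)) t * D}) :=
      hU.inter (isOpen_lt continuous_const
        ((continuous_const.mul (continuous_Dw_left hγ _ t)).mul continuous_const))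
    have hP1 : P ∈ (U ∩ {Q | 0 < (-1) ^ (m + 1) * Dw (wP Q γ) (fun c => (c : ℕ)) t * D}) :=
      ⟨hP, ht1⟩
    -- the corner
    have hex : ∃ a : Fin k, I a ≠ a := by
      by_contra hcon
      push Not at hcon
      have hss : ∑ c, I c = ∑ c : Fin k, (c : ℕ) := Finset.sum_congr rfl fun c _ => hcon c
      omega
    obtain ⟨a0, ha0, hmin⟩ : ∃ a0 : Fin k, I a0 ≠ a0 ∧ ∀ a < a0, I a = a := by
      obtain ⟨a0, h3, h4⟩ := Finset.exists_min_image
        (Finset.univ.filter fun a : Fin k => I a ≠ a) (fun a => a)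
        (by obtain ⟨a, ha⟩ := hex; exact ⟨a, by simpa using ha⟩)
      refine ⟨a0, by simpa using h3, fun a ha => ?_⟩
      by_contra hcon
      exact absurd ha (not_lt.2 (h4 a (by simpa using hcon)))
    have hlt : (a0 : ℕ) < I a0 := lt_of_le_of_ne (le_of_strictMono hI.mono a0) (Ne.symm ha0)
    obtain ⟨φ, hφ⟩ := hφ (I a0 - 1) (by have := hIn a0; omega)
    set v : Fin k → ℝ := iteratedDeriv (I a0) (wP P γ) τ with hv
    have hcont : Continuous fun ε : ℝ => pert P ε v φ := by
      unfold pert
      fun_prop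
    have hp0 : pert P 0 v φ = P := by
      funext r j; simp [pert]
    have hev : ∀ᶠ ε in 𝓝[>] (0 : ℝ), pert P ε v φ ∈
        (U ∩ {Q | 0 < (-1) ^ (m + 1) * Dw (wP Q γ) (fun c => (c : ℕ)) t * D}) := by
      have h5 : Tendsto (fun ε : ℝ => pert P ε v φ) (𝓝[>] 0) (𝓝 P) := by
        have := hcont.tendsto 0
        rw [hp0] at this
        exact this.mono_left nhdsWithin_le_nhds
      exact h5.eventually (hU1.mem_nhds hP1)
    obtain ⟨ε, hε1, hε2⟩ := (hev.and self_mem_nhdsWithin).exists
    have hε : (0 : ℝ) < ε := hε2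
    have hder : ∀ l < n, iteratedDeriv l (wP (pert P ε v φ) γ) τ =
        iteratedDeriv l (wP P γ) τ + (ε * if l = I a0 - 1 then 1 else 0) • v := by
      intro l hl
      rw [iteratedDeriv_wP _ hγ, iteratedDeriv_wP _ hγ, pj_pert, hφ l hl]
    obtain ⟨hT, hD1⟩ := typeS_of_pert (w1 := wP (pert P ε v φ) γ) hI hmin hlt hε.ne' hIn
      (fun l hl hne => by rw [hder l hl, if_neg hne]; simp)
      (by rw [hder _ (by have := hIn a0; omega), if_pos rfl, mul_one])
    have hsum : (∑ c : Fin k, (c : ℕ)) + m = ∑ c, Function.update I a0 (I a0 - 1) c := by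
      rw [Finset.sum_update_of_mem (Finset.mem_univ a0), Finset.sdiff_singleton_eq_erase]
      have := Finset.add_sum_erase Finset.univ I (Finset.mem_univ a0)
      omega
    have hbd : ∀ c, Function.update I a0 (I a0 - 1) c < n := by
      intro c
      by_cases h6 : c = a0
      · subst h6; rw [Function.update_self]; have := hIn c; omega
      · rw [Function.update_of_ne h6]; exact hIn c
    obtain ⟨P', hP', s, hs1, hs2, hs3⟩ := ih _ _ hT hbd hsum _ hU1 hε1 (τ - t)
      (by have := ht2.2; linarith)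
    refine ⟨P', hP'.1, fun i => if i = 0 then t else s (i - 1), ?_, ?_, ?_⟩
    · intro i hi
      beta_reduce
      by_cases h7 : i = 0
      · rw [if_pos h7]; exact ht2
      · rw [if_neg h7]
        have := hs1 (i - 1) (by omega)
        have h8 := ht2.1
        exact ⟨by linarith [this.1], this.2⟩
    · intro i hi
      beta_reduce
      rw [if_neg (Nat.succ_ne_zero i)]
      by_cases h7 : i = 0
      · subst h7
        rw [if_pos rfl]
        have := (hs1 0 (Nat.zero_le _)).1
        simpa using this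
      · rw [if_neg h7]
        have := hs2 (i - 1) (by omega)
        rwa [show i - 1 + 1 = i + 1 - 1 by omega] at this
    · intro i hi
      beta_reduce
      by_cases h7 : i = 0
      · rw [if_pos h7]
        subst h7
        exact hP'.2
      · rw [if_neg h7]
        have h9 := hs3 (i - 1) (by omega)
        rw [hD1, show m - (i - 1) = m + 1 - i by omega] at h9
        have e : (-1) ^ (m + 1 - i) * Dw (wP P' γ) (fun c => (c : ℕ)) (s (i - 1)) * (ε * D) =
          ε * ((-1) ^ (m + 1 - i) * Dw (wP P' γ) (fun c => (c : ℕ)) (s (i - 1)) * D) := by ring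
        rw [e] at h9
        exact (pos_iff_pos_of_mul_pos h9).1 hε

end Run7.h861
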