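import Mathlib
import Pool.Agent.Run7.h861.Split

set_option autoImplicit false

/-!
# Frames adapted to a flag of functionals
-/

namespace Run7.h861

open Topology Filter Set Matrix

variable {n : ℕ}

/-- the matrix with the first `j` rows of `B` followed by rows of the identity -/
def tr (B : Matrix (Fin n) (Fin n) ℝ) (j : ℕ) : Matrix (Fin n) (Fin n) ℝ :=
  Matrix.of fun i l => if (i : ℕ) < j then B i l else if i = l then 1 else 0

/-- leading principal minors -/
def mn (B : Matrix (Fin n) (Fin n) ℝ) (j : ℕ) : ℝ := (tr B j).det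

/-- coefficients of the frame vectors -/
noncomputable def cf (B : Matrix (Fin n) (Fin n) ℝ) (j : Fin n) (l : Fin n) : ℝ :=
  (tr B (j + 1)).adjugate l j / mn B (j + 1)

theorem tr_mulVec_lt (B : Matrix (Fin n) (Fin n) ℝ) {j : ℕ} {i : Fin n} (hi : (i : ℕ) < j)
    (x : Fin n → ℝ) : (tr B j *ᵥ x) i = ∑ l, B i l * x l := by
  simp [tr, Matrix.mulVec, dotProduct, hi]

theorem tr_mulVec_ge (B : Matrix (Fin n) (Fin n) ℝ) {j : ℕ} {i : Fin n} (hi : j ≤ (i : ℕ))
    (x : Fin n → ℝ) : (tr B j *ᵥ x) i = x i := by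
  simp [tr, Matrix.mulVec, dotProduct, not_lt.2 hi]

theorem tr_mulVec_cf (B : Matrix (Fin n) (Fin n) ℝ) (j : Fin n) (h : mn B (j + 1) ≠ 0) :
    tr B (j + 1) *ᵥ cf B j = Pi.single j 1 := by
  have h1 := Matrix.mul_adjugate (tr B (j + 1))
  funext i
  have h2 := congrFun (congrFun h1 i) j
  have h3 : (tr B (j + 1) *ᵥ cf B j) i =
      (tr B (j + 1) * (tr B (j + 1)).adjugate) i j / mn B (j + 1) := by
    simp only [Matrix.mulVec, dotProduct, cf, Matrix.mul_apply, Finset.sum_div, mul_div_assoc]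
  rw [h3, h2]
  simp only [Matrix.smul_apply, Matrix.one_apply, smul_eq_mul]
  unfold mn at h ⊢
  by_cases hij : i = j
  · subst hij; simp [h]
  · simp [hij]

theorem cf_gt (B : Matrix (Fin n) (Fin n) ℝ) {j l : Fin n} (h : mn B (j + 1) ≠ 0) (hl : j < l) :
    cf B j l = 0 := by
  have h1 := congrFun (tr_mulVec_cf B j h) l
  rw [tr_mulVec_ge B (by exact hl)] at h1
  rw [h1, Pi.single_eq_of_ne hl.ne']

theorem cf_sum (B : Matrix (Fin n) (Fin n) ℝ) {i j : Fin n} (h : mn B (j + 1) ≠ 0) (hi : i ≤ j) :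
    ∑ l, B i l * cf B j l = if i = j then 1 else 0 := by
  have h1 := congrFun (tr_mulVec_cf B j h) i
  rw [tr_mulVec_lt B (by have : (i : ℕ) ≤ j := hi; omega)] at h1
  rw [h1, Pi.single_apply]

theorem updateRow_tr (B : Matrix (Fin n) (Fin n) ℝ) (j : Fin n) :
    (tr B (j + 1)).updateRow j (Pi.single j 1) = tr B j := by
  ext i l
  by_cases hij : i = j
  · subst hij
    simp [tr, Pi.single_apply, eq_comm]
  · rw [Matrix.updateRow_ne hij]
    have : (i : ℕ) ≠ j := fun h => hij (Fin.ext h)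
    by_cases h1 : (i : ℕ) < j
    · have h2 : (i : ℕ) < j + 1 := by omega
      simp only [tr, Matrix.of_apply, if_pos h1, if_pos h2]
    · have h2 : ¬ ((i : ℕ) < j + 1) := by omega
      simp only [tr, Matrix.of_apply, if_neg h1, if_neg h2]

theorem cf_diag (B : Matrix (Fin n) (Fin n) ℝ) (j : Fin n) :
    cf B j j = mn B j / mn B (j + 1) := by
  rw [cf, Matrix.adjugate_apply, updateRow_tr]
  rfl

/-- uniqueness of solutions -/
theorem eq_of_tr_mulVec {B : Matrix (Fin n) (Fin n) ℝ} {j : ℕ} (h : mn B j ≠ 0)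
    {x y : Fin n → ℝ} (hxy : tr B j *ᵥ x = tr B j *ᵥ y) : x = y := by
  by_contra hne
  have h1 : tr B j *ᵥ (x - y) = 0 := by rw [Matrix.mulVec_sub, hxy, sub_self]
  exact h (Matrix.exists_mulVec_eq_zero_iff.1 ⟨x - y, sub_ne_zero.2 hne, h1⟩)

theorem differentiableAt_det {M : ℝ → Matrix (Fin n) (Fin n) ℝ} {t : ℝ}
    (h : ∀ i l, DifferentiableAt ℝ (fun u => M u i l) t) :
    DifferentiableAt ℝ (fun u => (M u).det) t := by
  simp only [Matrix.det_apply]
  refine DifferentiableAt.fun_sum fun σ _ => ?_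
  exact (DifferentiableAt.fun_finsetProd fun i _ => h _ _).const_smul _

theorem differentiableAt_adjugate {M : ℝ → Matrix (Fin n) (Fin n) ℝ} {t : ℝ}
    (h : ∀ i l, DifferentiableAt ℝ (fun u => M u i l) t) (a b : Fin n) :
    DifferentiableAt ℝ (fun u => (M u).adjugate a b) t := by
  simp only [Matrix.adjugate_apply]
  refine differentiableAt_det fun i l => ?_
  by_cases hi : i = b
  · subst hi; simp
  · simp only [Matrix.updateRow_ne hi]; exact h i l

theorem differentiableAt_tr {B : ℝ → Matrix (Fin n) (Fin n) ℝ} {t : ℝ}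
    (h : ∀ i l, DifferentiableAt ℝ (fun u => B u i l) t) (j : ℕ) (i l : Fin n) :
    DifferentiableAt ℝ (fun u => tr (B u) j i l) t := by
  by_cases hi : (i : ℕ) < j
  · simpa [tr, hi] using h i l
  · simp [tr, hi]

theorem differentiableAt_cf {B : ℝ → Matrix (Fin n) (Fin n) ℝ} {t : ℝ}
    (h : ∀ i l, DifferentiableAt ℝ (fun u => B u i l) t) (j l : Fin n)
    (hne : mn (B t) (j + 1) ≠ 0) :
    DifferentiableAt ℝ (fun u => cf (B u) j l) t := by
  unfold cf
  exact (differentiableAt_adjugate (differentiableAt_tr h _) l j).div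
    (differentiableAt_det (differentiableAt_tr h _)) hne

/-- the matrix of values of the functionals on the derivatives -/
noncomputable def BB (A : Fin n → Fin n → ℝ) (γ : ℝ → Fin n → ℝ) (t : ℝ) :
    Matrix (Fin n) (Fin n) ℝ := Matrix.of fun i l => pj A (iteratedDeriv l γ t) i

theorem hasDerivAt_b (A : Fin n → Fin n → ℝ) {γ : ℝ → Fin n → ℝ} (hγ : ContDiff ℝ (⊤ : ℕ∞) γ)
    (i : Fin n) (l : ℕ) (t : ℝ) : HasDerivAt (fun u => pj A (iteratedDeriv l γ u) i)
      (pj A (iteratedDeriv (l + 1) γ t) i) t :=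
  hasDerivAt_pi.1 (hasDerivAt_pj (P := A) (hasDerivAt_iteratedDeriv hγ l t)) i

/-- the frame vectors -/
noncomputable def fr (A : Fin n → Fin n → ℝ) (γ : ℝ → Fin n → ℝ) (j : Fin n) (t : ℝ) :
    Fin n → ℝ := ∑ l : Fin n, cf (BB A γ t) j l • iteratedDeriv l γ t

theorem differentiableAt_BB (A : Fin n → Fin n → ℝ) {γ : ℝ → Fin n → ℝ}
    (hγ : ContDiff ℝ (⊤ : ℕ∞) γ) (t : ℝ) (i l : Fin n) :
    DifferentiableAt ℝ (fun u => BB A γ u i l) t :=
  (hasDerivAt_b A hγ i l t).differentiableAt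

theorem continuous_BB (A : Fin n → Fin n → ℝ) {γ : ℝ → Fin n → ℝ}
    (hγ : ContDiff ℝ (⊤ : ℕ∞) γ) (i l : Fin n) : Continuous (fun u => BB A γ u i l) :=
  continuous_iff_continuousAt.2 fun t => (differentiableAt_BB A hγ t i l).continuousAt

theorem continuous_mn_BB (A : Fin n → Fin n → ℝ) {γ : ℝ → Fin n → ℝ}
    (hγ : ContDiff ℝ (⊤ : ℕ∞) γ) (j : ℕ) : Continuous (fun u => mn (BB A γ u) j) :=
  continuous_iff_continuousAt.2 fun t => (differentiableAt_det
    (differentiableAt_tr (fun i l => differentiableAt_BB A hγ t i l) j)).continuousAt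

section succ

variable {N : ℕ}

/-- the derivative of a frame vector is a multiple of the next one -/
theorem hasDerivAt_fr (A : Fin (N + 1) → Fin (N + 1) → ℝ) {γ : ℝ → Fin (N + 1) → ℝ}
    (hγ : ContDiff ℝ (⊤ : ℕ∞) γ) (j : Fin N) {t : ℝ}
    (hne : ∀ i : ℕ, mn (BB A γ t) i ≠ 0) :
    HasDerivAt (fr A γ j.castSucc)
      ((mn (BB A γ t) j * mn (BB A γ t) (j + 2) / mn (BB A γ t) (j + 1) ^ 2) •
        fr A γ j.succ t) t := by
  set x : Fin (N + 1) → ℝ → ℝ := fun l u => cf (BB A γ u) j.castSucc l with hx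
  have hev : ∀ᶠ u in 𝓝 t, mn (BB A γ u) (j + 1) ≠ 0 :=
    (continuous_mn_BB A hγ _).continuousAt.eventually_ne (hne _)
  have hd : ∀ l, HasDerivAt (x l) (deriv (x l) t) t := fun l =>
    (differentiableAt_cf (differentiableAt_BB A hγ t) j.castSucc l (hne _)).hasDerivAt
  have hgt : ∀ l, j.castSucc < l → deriv (x l) t = 0 := by
    intro l hl
    have : x l =ᶠ[𝓝 t] fun _ => 0 := by
      filter_upwards [hev] with u hu
      exact cf_gt _ hu hl
    rw [this.deriv_eq]
    simp
  have hgt0 : ∀ l, j.castSucc < l → x l t = 0 := fun l hl => cf_gt _ (hne _) hl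
  -- the coefficients of the derivative
  set y : Fin (N + 1) → ℝ := Fin.cons (deriv (x 0) t) (fun l : Fin N =>
    deriv (x l.succ) t + x l.castSucc t) with hy
  have hsum : ∀ (g : ℕ → ℝ), ∑ l : Fin (N + 1), (deriv (x l) t * g l + x l t * g (l + 1)) =
      ∑ l : Fin (N + 1), g l * y l := by
    intro g
    have hlast : x (Fin.last N) t = 0 := hgt0 _ (Fin.castSucc_lt_last j)
    rw [Finset.sum_add_distrib, Fin.sum_univ_succ (f := fun l : Fin (N + 1) => deriv (x l) t * g l),
      Fin.sum_univ_castSucc (f := fun l : Fin (N + 1) => x l t * g (l + 1)), hlast, zero_mul,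
      add_zero, add_assoc, ← Finset.sum_add_distrib, Fin.sum_univ_succ (f := fun l => g l * y l)]
    congr 1
    · simp [hy, mul_comm]
    · refine Finset.sum_congr rfl fun l _ => ?_
      simp only [hy, Fin.cons_succ, Fin.val_succ, Fin.val_castSucc]
      ring
  have hrow : ∀ i : Fin (N + 1), i ≤ j.castSucc → ∑ l, BB A γ t i l * y l = 0 := by
    intro i hi
    have h1 : HasDerivAt (fun u => ∑ l, BB A γ u i l * x l u)
        (∑ l, BB A γ t i l * y l) t := by
      have h2 : HasDerivAt (fun u => ∑ l : Fin (N + 1), BB A γ u i l * x l u)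
          (∑ l : Fin (N + 1), (pj A (iteratedDeriv (l + 1) γ t) i * x l t +
            BB A γ t i l * deriv (x l) t)) t :=
        HasDerivAt.fun_sum fun l _ => (hasDerivAt_b A hγ i l t).mul (hd l)
      have h3 := hsum (fun l => pj A (iteratedDeriv l γ t) i)
      have h4 : ∑ l : Fin (N + 1), BB A γ t i l * y l =
          ∑ l : Fin (N + 1), (pj A (iteratedDeriv (l + 1) γ t) i * x l t +
            BB A γ t i l * deriv (x l) t) := by
        refine Eq.trans (Eq.trans rfl h3.symm) (Finset.sum_congr rfl fun l _ => ?_)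
        have : BB A γ t i l = pj A (iteratedDeriv l γ t) i := rfl
        rw [this]
        ring
      rw [h4]
      exact h2
    have h5 : (fun u => ∑ l, BB A γ u i l * x l u) =ᶠ[𝓝 t]
        fun _ => if i = j.castSucc then (1 : ℝ) else 0 := by
      filter_upwards [hev] with u hu
      exact cf_sum _ hu hi
    have h6 := (h1.congr_of_eventuallyEq h5.symm).unique (hasDerivAt_const t _)
    exact h6
  obtain ⟨ρ, hρ⟩ : ∃ ρ : ℝ, y = ρ • cf (BB A γ t) j.succ := by
    refine ⟨∑ l, BB A γ t j.succ l * y l, ?_⟩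
    refine eq_of_tr_mulVec (hne (j.succ + 1)) ?_
    rw [Matrix.mulVec_smul, tr_mulVec_cf _ _ (hne _)]
    funext i
    rcases lt_trichotomy i j.succ with hi | hi | hi
    · rw [tr_mulVec_lt _ (by have : (i : ℕ) < j.succ := hi; omega),
        hrow i (by rw [Fin.le_def]; have : (i : ℕ) < j.succ := hi; simp at this ⊢; omega),
        Pi.smul_apply, Pi.single_eq_of_ne hi.ne, smul_zero]
    · subst hi
      rw [tr_mulVec_lt _ (by simp)]
      simp
    · rw [tr_mulVec_ge _ (by exact hi)]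
      obtain ⟨i', rfl⟩ : ∃ i', i = Fin.succ i' := ⟨i.pred (by
        intro h; rw [h] at hi; exact absurd hi (Fin.not_lt_zero _)), by simp⟩
      have h7 : j < i' := by simpa using hi
      rw [Pi.smul_apply, Pi.single_eq_of_ne hi.ne', smul_zero]
      simp only [hy, Fin.cons_succ]
      rw [hgt _ (by rw [Fin.lt_def] at h7 ⊢; simp; omega), hgt0 _ (by simpa using h7), add_zero]
  have hρ2 : ρ = mn (BB A γ t) j * mn (BB A γ t) (j + 2) / mn (BB A γ t) (j + 1) ^ 2 := by
    have h8 := congrFun hρ j.succ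
    simp only [hy, Fin.cons_succ, Pi.smul_apply, smul_eq_mul] at h8
    rw [hgt _ (by simp [Fin.lt_def]), zero_add] at h8
    have h9 : x j.castSucc t = mn (BB A γ t) j / mn (BB A γ t) (j + 1) := cf_diag _ _
    have h10 : cf (BB A γ t) j.succ j.succ = mn (BB A γ t) (j + 1) / mn (BB A γ t) (j + 2) :=
      cf_diag _ _
    rw [h9, h10] at h8
    have n1 := hne (j + 1)
    have n2 := hne (j + 2)
    field_simp at h8 ⊢
    linarith
  have hfin : HasDerivAt (fr A γ j.castSucc)
      (∑ l : Fin (N + 1), (x l t • iteratedDeriv (l + 1) γ t +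
        deriv (x l) t • iteratedDeriv l γ t)) t := by
    unfold fr
    exact HasDerivAt.fun_sum fun l _ => (hd l).smul (hasDerivAt_iteratedDeriv hγ l t)
  have hval : ∑ l : Fin (N + 1), (x l t • iteratedDeriv (l + 1) γ t +
        deriv (x l) t • iteratedDeriv l γ t) = ρ • fr A γ j.succ t := by
    funext r
    have h3 := hsum (fun l => iteratedDeriv l γ t r)
    simp only [fr, Finset.sum_apply, Pi.add_apply, Pi.smul_apply, smul_eq_mul, Finset.mul_sum]
    have h4 : ∀ l, y l = ρ * cf (BB A γ t) j.succ l := fun l => by rw [hρ]; rfl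
    refine Eq.trans ?_ (h3.trans ?_)
    · exact Finset.sum_congr rfl fun l _ => by ring
    · refine Finset.sum_congr rfl fun l _ => ?_
      rw [h4 l]; ring
  rw [hval, hρ2] at hfin
  exact hfin

/-- the last frame vector is constant -/
theorem pj_fr_last (A : Fin (N + 1) → Fin (N + 1) → ℝ) {γ : ℝ → Fin (N + 1) → ℝ} {t : ℝ}
    (hne : mn (BB A γ t) (N + 1) ≠ 0) :
    pj A (fr A γ (Fin.last N) t) = Pi.single (Fin.last N) 1 := by
  have h1 := tr_mulVec_cf (BB A γ t) (Fin.last N) (by simpa using hne)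
  rw [← h1]
  funext i
  rw [tr_mulVec_lt _ (by rw [Fin.val_last]; exact i.isLt)]
  simp only [pj, fr, Finset.sum_apply, Pi.smul_apply, smul_eq_mul, Finset.mul_sum, BB,
    Matrix.of_apply, Finset.sum_mul]
  rw [Finset.sum_comm]
  exact Finset.sum_congr rfl fun l _ => Finset.sum_congr rfl fun c _ => by ring

theorem mn_last (B : Matrix (Fin (N + 1)) (Fin (N + 1)) ℝ) : mn B (N + 1) = B.det := by
  unfold mn
  congr 1
  ext i l
  simp only [tr, Matrix.of_apply, if_pos i.isLt]

theorem BB_eq_mul (A : Fin n → Fin n → ℝ) (γ : ℝ → Fin n → ℝ) (t : ℝ) :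
    BB A γ t = Matrix.of A * Matrix.of (fun k (l : Fin n) => iteratedDeriv l γ t k) := by
  ext i l
  simp [BB, pj, Matrix.mul_apply]

theorem det_A_ne (A : Fin (N + 1) → Fin (N + 1) → ℝ) {γ : ℝ → Fin (N + 1) → ℝ} {t : ℝ}
    (hne : mn (BB A γ t) (N + 1) ≠ 0) : (Matrix.of A).det ≠ 0 := by
  rw [mn_last, BB_eq_mul, Matrix.det_mul] at hne
  exact left_ne_zero_of_mul hne

theorem pj_inj {A : Fin n → Fin n → ℝ} (hA : (Matrix.of A).det ≠ 0) {x y : Fin n → ℝ}
    (h : pj A x = pj A y) : x = y := by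
  by_contra hne
  refine hA (Matrix.exists_mulVec_eq_zero_iff.1 ⟨x - y, sub_ne_zero.2 hne, ?_⟩)
  rw [Matrix.mulVec_sub, sub_eq_zero]
  exact h

theorem fr_last_eq (A : Fin (N + 1) → Fin (N + 1) → ℝ) {γ : ℝ → Fin (N + 1) → ℝ} {t t' : ℝ}
    (hne : mn (BB A γ t) (N + 1) ≠ 0) (hne' : mn (BB A γ t') (N + 1) ≠ 0) :
    fr A γ (Fin.last N) t = fr A γ (Fin.last N) t' :=
  pj_inj (det_A_ne A hne) (by rw [pj_fr_last A hne, pj_fr_last A hne'])

theorem hasDerivAt_fr_last (A : Fin (N + 1) → Fin (N + 1) → ℝ) {γ : ℝ → Fin (N + 1) → ℝ}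
    (hγ : ContDiff ℝ (⊤ : ℕ∞) γ) {t : ℝ} (hne : mn (BB A γ t) (N + 1) ≠ 0) :
    HasDerivAt (fr A γ (Fin.last N)) 0 t := by
  have hev : ∀ᶠ u in 𝓝 t, mn (BB A γ u) (N + 1) ≠ 0 :=
    (continuous_mn_BB A hγ _).continuousAt.eventually_ne hne
  have : fr A γ (Fin.last N) =ᶠ[𝓝 t] fun _ => fr A γ (Fin.last N) t := by
    filter_upwards [hev] with u hu
    exact fr_last_eq A hu hne
  exact (hasDerivAt_const t _).congr_of_eventuallyEq this

end succ

end Run7.h861
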