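import Mathlib
import Pool.Agent.Run7.h861.Frame
import Pool.Agent.Run7.h861.Euler

set_option autoImplicit false

/-!
# The configuration attached to a flag of functionals and a projection
-/

namespace Run7.h861

open Topology Filter Set Matrix

/-- the configuration of six vectors -/
noncomputable def cfg (A : Fin 6 → Fin 6 → ℝ) (P : Fin 3 → Fin 6 → ℝ) (γ : ℝ → Fin 6 → ℝ)
    (t : ℝ) : E6 := fun a => pj P (fr A γ a t)

/-- positivity of the leading minors -/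
def Pos (A : Fin 6 → Fin 6 → ℝ) (γ : ℝ → Fin 6 → ℝ) (t : ℝ) : Prop :=
  ∀ i : ℕ, 0 < mn (BB A γ t) i

theorem pj_smul {k n : ℕ} (P : Fin k → Fin n → ℝ) (c : ℝ) (x : Fin n → ℝ) :
    pj P (c • x) = c • pj P x := by
  funext r
  simp only [pj, Pi.smul_apply, smul_eq_mul, Finset.mul_sum]
  exact Finset.sum_congr rfl fun i _ => by ring

theorem pj_zero {k n : ℕ} (P : Fin k → Fin n → ℝ) : pj P (0 : Fin n → ℝ) = 0 := by
  funext r
  simp [pj]

theorem pj_sum {k n : ℕ} {ι : Type} (s : Finset ι) (P : Fin k → Fin n → ℝ) (x : ι → Fin n → ℝ) :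
    pj P (∑ i ∈ s, x i) = ∑ i ∈ s, pj P (x i) := by
  funext r
  simp only [pj, Finset.sum_apply, Finset.mul_sum]
  rw [Finset.sum_comm]

theorem reach_cfg {A : Fin 6 → Fin 6 → ℝ} {γ : ℝ → Fin 6 → ℝ} (hγ : ContDiff ℝ (⊤ : ℕ∞) γ)
    (P : Fin 3 → Fin 6 → ℝ) {α β : ℝ} (hαβ : α < β) (hA : ∀ t ∈ Icc α β, Pos A γ t) :
    Reach (cfg A P γ α) (cfg A P γ β) := by
  refine reach_of_flow (c := fun j t => mn (BB A γ t) j * mn (BB A γ t) (j + 2) /
    mn (BB A γ t) (j + 1) ^ 2) hαβ ?_ ?_ ?_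
  · intro j
    refine ContinuousOn.div ((continuous_mn_BB A hγ _).mul (continuous_mn_BB A hγ _)).continuousOn
      ((continuous_mn_BB A hγ _).pow 2).continuousOn ?_
    intro t ht
    exact pow_ne_zero 2 (hA t ht _).ne'
  · intro j t ht
    exact div_pos (mul_pos (hA t ht _) (hA t ht _)) (pow_pos (hA t ht _) 2)
  · intro t ht
    refine hasDerivAt_pi.2 fun a => ?_
    refine Fin.lastCases ?_ (fun j => ?_) a
    · have h1 := hasDerivAt_pj (P := P) (hasDerivAt_fr_last A hγ (hA t ht _).ne')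
      rw [pj_zero] at h1
      simp only [NX, Fin.snoc_last]
      exact h1
    · have h1 := hasDerivAt_pj (P := P) (hasDerivAt_fr A hγ j (fun i => (hA t ht i).ne'))
      rw [pj_smul] at h1
      simp only [NX, Fin.snoc_castSucc]
      exact h1

theorem detR_three (u : Fin 3 → Fin 3 → ℝ) : detR u = det3 (u 0) (u 1) (u 2) := by
  unfold detR det3
  rw [Matrix.det_fin_three]
  simp only [Matrix.of_apply]
  ring

theorem cfg_eq (A : Fin 6 → Fin 6 → ℝ) (P : Fin 3 → Fin 6 → ℝ) (γ : ℝ → Fin 6 → ℝ)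
    (t : ℝ) (a : Fin 6) :
    cfg A P γ t a = ∑ l : Fin 6, cf (BB A γ t) a l • pj P (iteratedDeriv l γ t) := by
  unfold cfg fr
  rw [pj_sum]
  exact Finset.sum_congr rfl fun l _ => pj_smul _ _ _

theorem q_zero_cfg {A : Fin 6 → Fin 6 → ℝ} {γ : ℝ → Fin 6 → ℝ} (hγ : ContDiff ℝ (⊤ : ℕ∞) γ)
    (P : Fin 3 → Fin 6 → ℝ) {t : ℝ} (hA : Pos A γ t) :
    ∃ κ : ℝ, 0 < κ ∧ q 0 (cfg A P γ t) = κ * Dw (wP P γ) (fun c => (c : ℕ)) t := by
  set x : Fin 6 → Fin 6 → ℝ := fun a l => cf (BB A γ t) a l with hx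
  have h0 : ∀ a l, a < l → x a l = 0 := fun a l hl => cf_gt _ (hA _).ne' hl
  have hd : ∀ a, 0 < x a a := fun a => by
    have : x a a = _ := cf_diag (BB A γ t) a
    rw [this]
    exact div_pos (hA _) (hA _)
  refine ⟨x 0 0 * x 1 1 * x 2 2, mul_pos (mul_pos (hd 0) (hd 1)) (hd 2), ?_⟩
  unfold Dw
  rw [detR_three]
  simp only [iteratedDeriv_wP _ hγ]
  have e : ∀ a : Fin 6, ∀ r, cfg A P γ t a r = ∑ l : Fin 6, x a l * pj P (iteratedDeriv l γ t) r := by
    intro a r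
    rw [cfg_eq, Finset.sum_apply]
    rfl
  have e0 : ∀ r, cfg A P γ t 0 r = x 0 0 * pj P (iteratedDeriv 0 γ t) r := by
    intro r
    rw [e, Fin.sum_univ_six, h0 0 1 (by decide), h0 0 2 (by decide), h0 0 3 (by decide),
      h0 0 4 (by decide), h0 0 5 (by decide)]
    simp
  have e1 : ∀ r, cfg A P γ t 1 r = x 1 0 * pj P (iteratedDeriv 0 γ t) r +
      x 1 1 * pj P (iteratedDeriv 1 γ t) r := by
    intro r
    rw [e, Fin.sum_univ_six, h0 1 2 (by decide), h0 1 3 (by decide),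
      h0 1 4 (by decide), h0 1 5 (by decide)]
    simp
  have e2 : ∀ r, cfg A P γ t 2 r = x 2 0 * pj P (iteratedDeriv 0 γ t) r +
      x 2 1 * pj P (iteratedDeriv 1 γ t) r + x 2 2 * pj P (iteratedDeriv 2 γ t) r := by
    intro r
    rw [e, Fin.sum_univ_six, h0 2 3 (by decide), h0 2 4 (by decide), h0 2 5 (by decide)]
    simp
  simp only [q, pl, det3, e0, e1, e2]
  simp only [Fin.val_zero, Fin.val_one, Fin.val_two]
  ring

/-- polynomial version of the configuration -/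
noncomputable def Ncfg (A : Fin 6 → Fin 6 → ℝ) (P : Fin 3 → Fin 6 → ℝ) (γ : ℝ → Fin 6 → ℝ)
    (t : ℝ) : E6 := fun a r => ((tr (BB A γ t) (a + 1)).updateRow a
      (fun l : Fin 6 => pj P (iteratedDeriv l γ t) r)).det

theorem cfg_eq_Ncfg (A : Fin 6 → Fin 6 → ℝ) (P : Fin 3 → Fin 6 → ℝ) (γ : ℝ → Fin 6 → ℝ)
    (t : ℝ) : cfg A P γ t = fun (a : Fin 6) r => (mn (BB A γ t) (a + 1))⁻¹ * Ncfg A P γ t a r := by
  funext a r
  rw [cfg_eq, Finset.sum_apply]
  unfold Ncfg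
  rw [← Matrix.cramer_transpose_apply, Matrix.cramer_eq_adjugate_mulVec, ← Matrix.adjugate_transpose]
  simp only [Matrix.mulVec, dotProduct, Matrix.transpose_apply, Finset.mul_sum, Pi.smul_apply,
    smul_eq_mul, cf]
  exact Finset.sum_congr rfl fun l _ => by rw [div_eq_mul_inv]; ring

theorem pl_scale (a b c : Fin 6) (lam : Fin 6 → ℝ) (X : E6) :
    pl a b c (fun a r => lam a * X a r) = lam a * lam b * lam c * pl a b c X := by
  simp only [pl, det3]; ring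

theorem q_scale {lam : Fin 6 → ℝ} (hl : ∀ a, lam a ≠ 0) (X : E6) {i : ℕ} (hi : i < 21) :
    q i (fun a r => lam a * X a r) ≠ 0 ↔ q i X ≠ 0 := by
  have h3 : ∀ a b c, lam a * lam b * lam c ≠ 0 := fun a b c =>
    mul_ne_zero (mul_ne_zero (hl a) (hl b)) (hl c)
  rcases Nat.lt_or_ge i 20 with h1 | h1
  · have : ∃ a b c, ∀ Y, q i Y = pl a b c Y := by
      interval_cases i <;> exact ⟨_, _, _, fun Y => rfl⟩
    obtain ⟨a, b, c, h⟩ := this
    rw [h, h, pl_scale]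
    constructor
    · exact fun h => right_ne_zero_of_mul h
    · exact fun h => mul_ne_zero (h3 a b c) h
  · have : i = 20 := by omega
    subst this
    have e : q 20 (fun a r => lam a * X a r) =
        (lam 0 * lam 1 * lam 3 * (lam 2 * lam 4 * lam 5)) * q 20 X := by
      simp only [q, pl_scale]; ring
    rw [e]
    constructor
    · exact fun h => right_ne_zero_of_mul h
    · exact fun h => mul_ne_zero (mul_ne_zero (h3 _ _ _) (h3 _ _ _)) h

theorem good_scale {lam : Fin 6 → ℝ} (hl : ∀ a, lam a ≠ 0) (X : E6) :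
    Good (fun a r => lam a * X a r) ↔ Good X :=
  forall₂_congr fun _ hi => q_scale hl X hi

theorem good_cfg_iff {A : Fin 6 → Fin 6 → ℝ} {P : Fin 3 → Fin 6 → ℝ} {γ : ℝ → Fin 6 → ℝ}
    {t : ℝ} (h : ∀ a : Fin 6, mn (BB A γ t) (a + 1) ≠ 0) :
    Good (cfg A P γ t) ↔ Good (Ncfg A P γ t) := by
  rw [cfg_eq_Ncfg]
  exact good_scale (lam := fun a : Fin 6 => (mn (BB A γ t) (a + 1))⁻¹)
    (fun a => inv_ne_zero (h a)) _

end Run7.h861
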