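import Mathlib
import Pool.Agent.Run7.h861.Conf

set_option autoImplicit false

/-!
# Generic choice of the functionals
-/

namespace Run7.h861

open Topology Filter Set Matrix

section analytic

variable {E : Type} [NormedAddCommGroup E] [NormedSpace ℝ E] {n : ℕ}

theorem analyticAt_det {M : E → Matrix (Fin n) (Fin n) ℝ} {x : E}
    (h : ∀ i l, AnalyticAt ℝ (fun u => M u i l) x) : AnalyticAt ℝ (fun u => (M u).det) x := by
  simp only [Matrix.det_apply]
  refine Finset.analyticAt_fun_sum _ fun σ _ => ?_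
  have h1 : AnalyticAt ℝ (fun u => ∏ i, M u (σ i) i) x :=
    Finset.analyticAt_fun_prod _ fun i _ => h _ _
  have e : (fun u => Equiv.Perm.sign σ • ∏ i, M u (σ i) i) =
      fun u => (((Equiv.Perm.sign σ : ℤ)) : ℝ) * ∏ i, M u (σ i) i := by
    funext u
    simp [Units.smul_def]
  rw [e]
  exact analyticAt_const.mul h1

end analytic

theorem analyticAt_entry (i k : Fin 6) (A : Fin 6 → Fin 6 → ℝ) :
    AnalyticAt ℝ (fun A : Fin 6 → Fin 6 → ℝ => A i k) A := by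
  have : (fun A : Fin 6 → Fin 6 → ℝ => A i k) =
      ((ContinuousLinearMap.proj k : (Fin 6 → ℝ) →L[ℝ] ℝ).comp
        (ContinuousLinearMap.proj i : (Fin 6 → Fin 6 → ℝ) →L[ℝ] (Fin 6 → ℝ))) := by
    ext X; rfl
  rw [this]
  exact ContinuousLinearMap.analyticAt _ _

theorem analyticAt_BB (γ : ℝ → Fin 6 → ℝ) (t : ℝ) (i l : Fin 6) (A : Fin 6 → Fin 6 → ℝ) :
    AnalyticAt ℝ (fun A : Fin 6 → Fin 6 → ℝ => BB A γ t i l) A := by
  simp only [BB, Matrix.of_apply, pj]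
  exact Finset.analyticAt_fun_sum _ fun k _ => (analyticAt_entry i k A).mul analyticAt_const

theorem analyticAt_tr (γ : ℝ → Fin 6 → ℝ) (t : ℝ) (j : ℕ) (i l : Fin 6)
    (A : Fin 6 → Fin 6 → ℝ) :
    AnalyticAt ℝ (fun A : Fin 6 → Fin 6 → ℝ => tr (BB A γ t) j i l) A := by
  by_cases h : (i : ℕ) < j
  · simpa [tr, h] using analyticAt_BB γ t i l A
  · simp only [tr, Matrix.of_apply, if_neg h]
    exact analyticAt_const

theorem analyticAt_Ncfg (P : Fin 3 → Fin 6 → ℝ) (γ : ℝ → Fin 6 → ℝ) (t : ℝ) (a : Fin 6)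
    (r : Fin 3) (A : Fin 6 → Fin 6 → ℝ) :
    AnalyticAt ℝ (fun A : Fin 6 → Fin 6 → ℝ => Ncfg A P γ t a r) A := by
  unfold Ncfg
  refine analyticAt_det fun i l => ?_
  by_cases h : i = a
  · subst h
    simp only [Matrix.updateRow_self]
    exact analyticAt_const
  · simp only [Matrix.updateRow_ne h]
    exact analyticAt_tr γ t _ i l A

theorem analyticAt_mn (γ : ℝ → Fin 6 → ℝ) (t : ℝ) (j : ℕ) (A : Fin 6 → Fin 6 → ℝ) :
    AnalyticAt ℝ (fun A : Fin 6 → Fin 6 → ℝ => mn (BB A γ t) j) A :=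
  analyticAt_det fun i l => analyticAt_tr γ t _ i l A

/-- joint continuity -/
theorem continuous_mn_joint {γ : ℝ → Fin 6 → ℝ} (hγ : ContDiff ℝ (⊤ : ℕ∞) γ) (j : ℕ) :
    Continuous fun z : (Fin 6 → Fin 6 → ℝ) × ℝ => mn (BB z.1 γ z.2) j := by
  unfold mn
  refine Continuous.matrix_det ?_
  refine continuous_matrix fun i l => ?_
  by_cases h : (i : ℕ) < j
  · simp only [tr, Matrix.of_apply, if_pos h, BB, pj]
    refine continuous_finsetSum _ fun k _ => ?_
    have h1 : Continuous fun z : (Fin 6 → Fin 6 → ℝ) × ℝ => z.1 i k := by fun_prop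
    have h2 : Continuous (iteratedDeriv (l : ℕ) γ) :=
      hγ.continuous_iteratedDeriv l (by exact_mod_cast le_top)
    have h3 : Continuous fun z : (Fin 6 → Fin 6 → ℝ) × ℝ => iteratedDeriv (l : ℕ) γ z.2 k :=
      (continuous_apply k).comp (h2.comp continuous_snd)
    exact h1.mul h3
  · simp only [tr, Matrix.of_apply, if_neg h]
    exact continuous_const

theorem mn_ge {n : ℕ} (B : Matrix (Fin n) (Fin n) ℝ) {j : ℕ} (hj : n ≤ j) : mn B j = mn B n := by
  unfold mn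
  congr 1
  ext i l
  have h1 : (i : ℕ) < j := lt_of_lt_of_le i.isLt hj
  simp only [tr, Matrix.of_apply, if_pos h1, if_pos i.isLt]

theorem pos_iff {A : Fin 6 → Fin 6 → ℝ} {γ : ℝ → Fin 6 → ℝ} {t : ℝ} :
    Pos A γ t ↔ ∀ i ≤ 6, 0 < mn (BB A γ t) i := by
  constructor
  · exact fun h i _ => h i
  · intro h i
    rcases le_total i 6 with h1 | h1
    · exact h i h1
    · rw [mn_ge _ h1]; exact h 6 le_rfl

theorem eventually_pos {γ : ℝ → Fin 6 → ℝ} (hγ : ContDiff ℝ (⊤ : ℕ∞) γ)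
    {A : Fin 6 → Fin 6 → ℝ} {α β : ℝ} (hA : ∀ t ∈ Icc α β, Pos A γ t) :
    ∀ᶠ A' in 𝓝 A, ∀ t ∈ Icc α β, Pos A' γ t := by
  refine isCompact_Icc.eventually_forall_of_forall_eventually fun t ht => ?_
  have h1 : ∀ i ≤ 6, ∀ᶠ z : (Fin 6 → Fin 6 → ℝ) × ℝ in 𝓝 (A, t), 0 < mn (BB z.1 γ z.2) i :=
    fun i _ => (continuous_mn_joint hγ i).continuousAt.eventually (lt_mem_nhds (hA t ht i))
  have h2 : ∀ᶠ z : (Fin 6 → Fin 6 → ℝ) × ℝ in 𝓝 (A, t), ∀ i ∈ Finset.range 7,
      0 < mn (BB z.1 γ z.2) i :=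
    (Finset.eventually_all _).2 fun i hi => h1 i (by have := Finset.mem_range.1 hi; omega)
  filter_upwards [h2] with z hz
  rw [pos_iff]
  exact fun i hi => hz i (Finset.mem_range.2 (by omega))

theorem exists_coord {u v w : Fin 3 → ℝ} (hD : det3 u v w ≠ 0) (x : Fin 3 → ℝ) :
    ∃ y : Fin 3 → ℝ, ∀ r, x r = y 0 * u r + y 1 * v r + y 2 * w r := by
  refine ⟨![det3 x v w / det3 u v w, det3 u x w / det3 u v w, det3 u v x / det3 u v w], ?_⟩
  intro r
  have h : det3 u v w * x r = det3 x v w * u r + det3 u x w * v r + det3 u v x * w r := by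
    fin_cases r <;> simp [det3] <;> ring
  simp only [Matrix.cons_val_zero, Matrix.cons_val_one, Matrix.cons_val]
  field_simp
  linarith

theorem exists_Z {w : ℕ → Fin 3 → ℝ} (hD : det3 (w 0) (w 1) (w 2) ≠ 0) :
    ∃ Z : Matrix (Fin 6) (Fin 6) ℝ, (∀ a, Z a a = 1) ∧ (∀ a l, a < l → Z a l = 0) ∧
      ∀ a : Fin 6, ∀ r, ∑ l : Fin 6, Z a l * w l r = ∑ m : Fin 3, (W2 a m : ℝ) * w m r := by
  obtain ⟨y3, h3⟩ := exists_coord hD (w 3)
  obtain ⟨y4, h4⟩ := exists_coord hD (w 4)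
  obtain ⟨y5, h5⟩ := exists_coord hD (w 5)
  refine ⟨!![1, 0, 0, 0, 0, 0; 1, 1, 0, 0, 0, 0; -1, -2, 1, 0, 0, 0;
    -2 - y3 0, 0 - y3 1, 2 - y3 2, 1, 0, 0; -1 - y4 0, -1 - y4 1, -2 - y4 2, 0, 1, 0;
    1 - y5 0, 2 - y5 1, -2 - y5 2, 0, 0, 1], ?_, ?_, ?_⟩
  · intro a; fin_cases a <;> simp
  · intro a l hal
    fin_cases a <;> fin_cases l <;> first
      | exact absurd hal (by decide)
      | simp
  · intro a r
    rw [Fin.sum_univ_six, Fin.sum_univ_three]
    fin_cases a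
    · simp [W2]
    · simp [W2]
    · simp [W2]
    · simp [W2]; rw [h3 r]; ring
    · simp [W2]; rw [h4 r]; ring
    · simp [W2]; rw [h5 r]; ring

theorem pl_lin (a b c : Fin 6) (X : E6) (u v w : Fin 3 → ℝ) :
    pl a b c (fun i r => X i 0 * u r + X i 1 * v r + X i 2 * w r) =
      det3 u v w * pl a b c X := by
  simp only [pl, det3]; ring

theorem good_lin {X : E6} (hX : Good X) {u v w : Fin 3 → ℝ} (hD : det3 u v w ≠ 0) :
    Good (fun i r => X i 0 * u r + X i 1 * v r + X i 2 * w r) := by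
  intro i hi
  have hXi := hX i hi
  rcases Nat.lt_or_ge i 20 with h1 | h1
  · have : ∃ a b c, ∀ Y, q i Y = pl a b c Y := by
      interval_cases i <;> exact ⟨_, _, _, fun Y => rfl⟩
    obtain ⟨a, b, c, h⟩ := this
    rw [h] at hXi ⊢
    rw [pl_lin]
    exact mul_ne_zero hD hXi
  · have : i = 20 := by omega
    subst this
    have e : q 20 (fun i r => X i 0 * u r + X i 1 * v r + X i 2 * w r) =
        det3 u v w ^ 2 * q 20 X := by
      simp only [q, pl_lin]; ring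
    rw [e]
    exact mul_ne_zero (pow_ne_zero 2 hD) hXi

/-- a choice of functionals for which the configuration at a given time is good -/
theorem exists_good_A (P : Fin 3 → Fin 6 → ℝ) {γ : ℝ → Fin 6 → ℝ} {t : ℝ}
    (hΓ : (Matrix.of (fun k (l : Fin 6) => iteratedDeriv l γ t k)).det ≠ 0)
    (hD : det3 (pj P (iteratedDeriv 0 γ t)) (pj P (iteratedDeriv 1 γ t))
      (pj P (iteratedDeriv 2 γ t)) ≠ 0) :
    ∃ A : Fin 6 → Fin 6 → ℝ, Good (Ncfg A P γ t) := by
  obtain ⟨Z, hZ1, hZ2, hZ3⟩ := exists_Z (w := fun l => pj P (iteratedDeriv l γ t)) hD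
  set Γ : Matrix (Fin 6) (Fin 6) ℝ := Matrix.of (fun k (l : Fin 6) => iteratedDeriv l γ t k) with hΓd
  have hZdet : Zᵀ.det = 1 := by
    have h1 : Zᵀ.IsUpperTriangular := fun i l hl => by
      rw [Matrix.transpose_apply]; exact hZ2 _ _ hl
    rw [Matrix.det_of_isUpperTriangular h1]
    simp [hZ1]
  have hdet : (Γ * Zᵀ).det ≠ 0 := by rw [Matrix.det_mul, hZdet, mul_one]; exact hΓ
  set A1 : Matrix (Fin 6) (Fin 6) ℝ := (Γ * Zᵀ)⁻¹ with hA1
  set A : Fin 6 → Fin 6 → ℝ := fun i k => A1 i k with hA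
  have hB : BB A γ t = A1 * Γ := BB_eq_mul A γ t
  have hBZ : BB A γ t * Zᵀ = 1 := by
    rw [hB, Matrix.mul_assoc, hA1, Matrix.nonsing_inv_mul _ (isUnit_iff_ne_zero.2 hdet)]
  have hmn : ∀ j, mn (BB A γ t) j ≠ 0 := by
    intro j
    have h2 : (tr (BB A γ t) j * Zᵀ).det = 1 := by
      have h3 : ∀ i l, (tr (BB A γ t) j * Zᵀ) i l =
          if (i : ℕ) < j then (if i = l then 1 else 0) else Z l i := by
        intro i l
        by_cases hi : (i : ℕ) < j
        · rw [if_pos hi, ← Matrix.one_apply, ← hBZ, Matrix.mul_apply, Matrix.mul_apply]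
          simp only [tr, Matrix.of_apply, if_pos hi]
        · rw [if_neg hi, Matrix.mul_apply]
          simp [tr, hi]
      have h1 : (tr (BB A γ t) j * Zᵀ).IsUpperTriangular := fun i l hl => by
        rw [h3]
        have hl' : l < i := hl
        by_cases hi : (i : ℕ) < j
        · rw [if_pos hi, if_neg hl'.ne']
        · rw [if_neg hi]; exact hZ2 _ _ hl'
      rw [Matrix.det_of_isUpperTriangular h1]
      refine Finset.prod_eq_one fun i _ => ?_
      rw [h3]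
      by_cases hi : (i : ℕ) < j
      · rw [if_pos hi, if_pos rfl]
      · rw [if_neg hi]; exact hZ1 i
    rw [Matrix.det_mul] at h2
    intro h0
    unfold mn at h0
    rw [h0, zero_mul] at h2
    exact zero_ne_one h2
  have hcf : ∀ a, cf (BB A γ t) a = Z a := by
    intro a
    refine eq_of_tr_mulVec (hmn (a + 1)) ?_
    rw [tr_mulVec_cf _ _ (hmn _)]
    funext i
    rcases le_or_gt i a with hi | hi
    · rw [tr_mulVec_lt _ (by have : (i : ℕ) ≤ a := hi; omega)]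
      have := congrFun (congrFun hBZ i) a
      rw [Matrix.mul_apply] at this
      simp only [Matrix.transpose_apply] at this
      rw [this, Matrix.one_apply, Pi.single_apply]
    · rw [tr_mulVec_ge _ (by exact hi), hZ2 _ _ hi, Pi.single_eq_of_ne hi.ne']
  refine ⟨A, (good_cfg_iff (fun a => hmn _)).1 ?_⟩
  have hX : cfg A P γ t = fun i r => castX W2 i 0 * pj P (iteratedDeriv 0 γ t) r +
      castX W2 i 1 * pj P (iteratedDeriv 1 γ t) r + castX W2 i 2 * pj P (iteratedDeriv 2 γ t) r := by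
    funext a r
    rw [cfg_eq, Finset.sum_apply, hcf]
    have := hZ3 a r
    rw [Fin.sum_univ_three] at this
    exact this
  rw [hX]
  exact good_lin good_W2 hD

theorem continuous_Ncfg_A (P : Fin 3 → Fin 6 → ℝ) (γ : ℝ → Fin 6 → ℝ) (t : ℝ) :
    Continuous fun A : Fin 6 → Fin 6 → ℝ => Ncfg A P γ t :=
  continuous_pi fun a => continuous_pi fun r =>
    continuous_iff_continuousAt.2 fun A => (analyticAt_Ncfg P γ t a r A).continuousAt

theorem isOpen_goodA (P : Fin 3 → Fin 6 → ℝ) (γ : ℝ → Fin 6 → ℝ) (t : ℝ) :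
    IsOpen {A : Fin 6 → Fin 6 → ℝ | Good (Ncfg A P γ t)} :=
  isOpen_good.preimage (continuous_Ncfg_A P γ t)

theorem dense_goodA (P : Fin 3 → Fin 6 → ℝ) {γ : ℝ → Fin 6 → ℝ} {t : ℝ}
    (hΓ : (Matrix.of (fun k (l : Fin 6) => iteratedDeriv l γ t k)).det ≠ 0)
    (hD : det3 (pj P (iteratedDeriv 0 γ t)) (pj P (iteratedDeriv 1 γ t))
      (pj P (iteratedDeriv 2 γ t)) ≠ 0) :
    Dense {A : Fin 6 → Fin 6 → ℝ | Good (Ncfg A P γ t)} := by
  obtain ⟨A1, hA1⟩ := exists_good_A P hΓ hD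
  have h1 : ∀ A, AnalyticAt ℝ (fun A : Fin 6 → Fin 6 → ℝ =>
      ∏ i ∈ Finset.range 21, q i (Ncfg A P γ t)) A := fun A =>
    Finset.analyticAt_fun_prod _ fun i hi =>
      analyticAt_q (fun a r => analyticAt_Ncfg P γ t a r A)
        (by have := Finset.mem_range.1 hi; omega)
  have h2 : (fun A : Fin 6 → Fin 6 → ℝ => ∏ i ∈ Finset.range 21, q i (Ncfg A P γ t)) A1 ≠ 0 :=
    Finset.prod_ne_zero_iff.2 fun i hi => hA1 i (Finset.mem_range.1 hi)
  refine (dense_ne_zero h1 h2).mono fun A hA i hi => ?_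
  exact Finset.prod_ne_zero_iff.1 hA i (Finset.mem_range.2 hi)

theorem exists_generic (P : Fin 3 → Fin 6 → ℝ) {γ : ℝ → Fin 6 → ℝ} (T : Finset ℝ)
    (hΓ : ∀ t ∈ T, (Matrix.of (fun k (l : Fin 6) => iteratedDeriv l γ t k)).det ≠ 0)
    (hD : ∀ t ∈ T, det3 (pj P (iteratedDeriv 0 γ t)) (pj P (iteratedDeriv 1 γ t))
      (pj P (iteratedDeriv 2 γ t)) ≠ 0) {U : Set (Fin 6 → Fin 6 → ℝ)} (hU : IsOpen U)
    (hne : U.Nonempty) : ∃ A ∈ U, ∀ t ∈ T, Good (Ncfg A P γ t) := by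
  have h1 : Dense (⋂ t ∈ (T : Set ℝ), {A : Fin 6 → Fin 6 → ℝ | Good (Ncfg A P γ t)}) :=
    dense_biInter_of_isOpen (fun t _ => isOpen_goodA P γ t) T.countable_toSet
      (fun t ht => dense_goodA P (hΓ t ht) (hD t ht))
  obtain ⟨A, hA1, hA2⟩ := h1.inter_open_nonempty U hU hne
  refine ⟨A, hA1, fun t ht => ?_⟩
  exact mem_iInter₂.1 hA2 t ht

/-- the configuration depends continuously on the projection -/
theorem continuous_cfg_P (A : Fin 6 → Fin 6 → ℝ) (γ : ℝ → Fin 6 → ℝ) (t : ℝ) :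
    Continuous fun P : Fin 3 → Fin 6 → ℝ => cfg A P γ t :=
  continuous_pi fun a => continuous_pj_left _

end Run7.h861
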