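import Mathlib

set_option autoImplicit false

/-!
# Zeros of derivatives of a function with two multiple zeros
-/

namespace Run7.h861

open Topology Filter Set

theorem rolle_finset {g : ℝ → ℝ} (hg : Continuous g) (Z : Finset ℝ) (hne : Z.Nonempty)
    (hZ : ∀ x ∈ Z, g x = 0) : ∃ Z' : Finset ℝ, Z'.card + 1 = Z.card ∧
      ∀ ξ ∈ Z', deriv g ξ = 0 ∧ (∃ x ∈ Z, x < ξ) ∧ ∃ x ∈ Z, ξ < x := by
  classical
  induction Z using Finset.induction_on_max with
  | empty => exact absurd hne (by simp)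
  | insert a Z ha ih =>
    have haZ : a ∉ Z := fun h => lt_irrefl a (ha a h)
    rcases Z.eq_empty_or_nonempty with h1 | h1
    · subst h1
      exact ⟨∅, by simp, fun ξ hξ => absurd hξ (by simp)⟩
    · obtain ⟨Z', hc, hZ'⟩ := ih h1 fun x hx => hZ x (Finset.mem_insert_of_mem hx)
      set b := Z.max' h1 with hb
      have hbZ : b ∈ Z := Z.max'_mem h1
      have hba : b < a := ha b hbZ
      obtain ⟨ξ0, hξ0, hξ0'⟩ := exists_deriv_eq_zero hba hg.continuousOn
        (by rw [hZ b (Finset.mem_insert_of_mem hbZ), hZ a (Finset.mem_insert_self _ _)])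
      have hn : ξ0 ∉ Z' := by
        intro h
        obtain ⟨_, _, x, hx, hlt⟩ := hZ' ξ0 h
        have := Z.le_max' x hx
        have h2 := hξ0.1
        exact absurd (hlt.trans_le this) (not_lt.2 h2.le)
      refine ⟨insert ξ0 Z', ?_, ?_⟩
      · rw [Finset.card_insert_of_notMem hn, Finset.card_insert_of_notMem haZ, hc]
      · intro ξ hξ
        rcases Finset.mem_insert.1 hξ with h | h
        · subst h
          exact ⟨hξ0', ⟨b, Finset.mem_insert_of_mem hbZ, hξ0.1⟩, a, Finset.mem_insert_self _ _, hξ0.2⟩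
        · obtain ⟨h3, ⟨x, hx, hx2⟩, y, hy, hy2⟩ := hZ' ξ h
          exact ⟨h3, ⟨x, Finset.mem_insert_of_mem hx, hx2⟩, y, Finset.mem_insert_of_mem hy, hy2⟩

theorem two_point {g : ℝ → ℝ} (hg : ContDiff ℝ (⊤ : ℕ∞) g) {t t' : ℝ} (htt : t < t') {j j' : ℕ}
    (h1 : ∀ i < j, iteratedDeriv i g t = 0) (h2 : ∀ i < j', iteratedDeriv i g t' = 0) (l : ℕ)
    (hl : l < j + j') : ∃ ξ ∈ Icc t t', iteratedDeriv l g ξ = 0 := by
  classical
  -- all zeros including the ends
  have step : ∀ l : ℕ, ∀ Z : Finset ℝ, (∀ ξ ∈ Z, ξ ∈ Ioo t t' ∧ iteratedDeriv l g ξ = 0) →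
      j + j' ≤ Z.card + (j - l) + (j' - l) + l → ∃ E : Finset ℝ,
        (∀ ξ ∈ E, ξ ∈ Icc t t' ∧ iteratedDeriv l g ξ = 0) ∧
        j + j' ≤ E.card + (j - (l + 1)) + (j' - (l + 1)) + l := by
    intro l Z hZ hc
    have htZ : t ∉ Z := fun h => lt_irrefl t (hZ t h).1.1
    have htZ' : t' ∉ Z := fun h => lt_irrefl t' (hZ t' h).1.2
    have hZ2 : ∀ ξ ∈ Z, ξ ∈ Icc t t' ∧ iteratedDeriv l g ξ = 0 := fun ξ hξ =>
      ⟨Ioo_subset_Icc_self (hZ ξ hξ).1, (hZ ξ hξ).2⟩
    by_cases hj : l < j <;> by_cases hj' : l < j'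
    · refine ⟨insert t (insert t' Z), ?_, ?_⟩
      · intro ξ hξ
        rcases Finset.mem_insert.1 hξ with h | h
        · rw [h]; exact ⟨left_mem_Icc.2 htt.le, h1 l hj⟩
        · rcases Finset.mem_insert.1 h with h | h
          · rw [h]; exact ⟨right_mem_Icc.2 htt.le, h2 l hj'⟩
          · exact hZ2 ξ h
      · rw [Finset.card_insert_of_notMem (by
          rw [Finset.mem_insert]; rintro (h | h)
          · exact absurd h htt.ne
          · exact htZ h), Finset.card_insert_of_notMem htZ']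
        omega
    · refine ⟨insert t Z, ?_, ?_⟩
      · intro ξ hξ
        rcases Finset.mem_insert.1 hξ with h | h
        · rw [h]; exact ⟨left_mem_Icc.2 htt.le, h1 l hj⟩
        · exact hZ2 ξ h
      · rw [Finset.card_insert_of_notMem htZ]
        omega
    · refine ⟨insert t' Z, ?_, ?_⟩
      · intro ξ hξ
        rcases Finset.mem_insert.1 hξ with h | h
        · rw [h]; exact ⟨right_mem_Icc.2 htt.le, h2 l hj'⟩
        · exact hZ2 ξ h
      · rw [Finset.card_insert_of_notMem htZ']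
        omega
    · exact ⟨Z, hZ2, by omega⟩
  have main : ∀ l : ℕ, l < j + j' → ∃ Z : Finset ℝ,
      (∀ ξ ∈ Z, ξ ∈ Ioo t t' ∧ iteratedDeriv l g ξ = 0) ∧
      j + j' ≤ Z.card + (j - l) + (j' - l) + l := by
    intro l
    induction l with
    | zero => intro _; exact ⟨∅, fun ξ hξ => absurd hξ (by simp), by simp⟩
    | succ l ih =>
      intro hl
      obtain ⟨Z, hZ, hc⟩ := ih (by omega)
      obtain ⟨E, hE, hcE⟩ := step l Z hZ hc
      have hEne : E.Nonempty := by
        rw [← Finset.card_pos]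
        by_contra hcon
        have h0 : E.card = 0 := by omega
        omega
      obtain ⟨Z', hc', hZ'⟩ := rolle_finset (g := iteratedDeriv l g)
        (hg.continuous_iteratedDeriv l (by exact_mod_cast le_top)) E hEne fun x hx => (hE x hx).2
      refine ⟨Z', fun ξ hξ => ?_, by omega⟩
      obtain ⟨h3, ⟨x, hx, hx2⟩, y, hy, hy2⟩ := hZ' ξ hξ
      refine ⟨⟨lt_of_le_of_lt (hE x hx).1.1 hx2, lt_of_lt_of_le hy2 (hE y hy).1.2⟩, ?_⟩
      rw [iteratedDeriv_succ]
      exact h3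
  obtain ⟨Z, hZ, hc⟩ := main l hl
  obtain ⟨E, hE, hcE⟩ := step l Z hZ hc
  have hEne : E.Nonempty := by
    rw [← Finset.card_pos]
    by_contra hcon
    have h0 : E.card = 0 := by omega
    omega
  obtain ⟨ξ, hξ⟩ := hEne
  exact ⟨ξ, (hE ξ hξ).1, (hE ξ hξ).2⟩

end Run7.h861
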