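import Mathlib
import Pool.Agent.Run7.h861.Gen
import Pool.Agent.Run7.h861.Rolle

set_option autoImplicit false

/-!
# Existence of an adapted flag of functionals for a convex curve
-/

namespace Run7.h861

open Topology Filter Set Matrix

theorem iteratedDeriv_lin {n : ℕ} (a : Fin n → ℝ) {γ : ℝ → Fin n → ℝ}
    (hγ : ContDiff ℝ (⊤ : ℕ∞) γ) (l : ℕ) (t : ℝ) :
    iteratedDeriv l (fun u => ∑ i, a i * γ u i) t = ∑ i, a i * iteratedDeriv l γ t i := by
  induction l generalizing t with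
  | zero => simp
  | succ l ih =>
    rw [iteratedDeriv_succ, funext ih]
    have h2 : HasDerivAt (fun u => ∑ i, a i * iteratedDeriv l γ u i)
        (∑ i, a i * iteratedDeriv (l + 1) γ t i) t :=
      HasDerivAt.fun_sum fun i _ =>
        ((hasDerivAt_pi.1 (hasDerivAt_iteratedDeriv hγ l t) i).const_mul (a i))
    exact h2.deriv

/-- the matrix of derivatives -/
noncomputable def GG (γ : ℝ → Fin 6 → ℝ) (t : ℝ) : Matrix (Fin 6) (Fin 6) ℝ :=
  Matrix.of (fun k (l : Fin 6) => iteratedDeriv l γ t k)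

/-- derivatives at two points -/
noncomputable def QQ (γ : ℝ → Fin 6 → ℝ) (j : ℕ) (t t' : ℝ) : Matrix (Fin 6) (Fin 6) ℝ :=
  Matrix.of (fun k (l : Fin 6) => if (l : ℕ) < j then iteratedDeriv l γ t k
    else iteratedDeriv (5 - l) γ t' k)

theorem exists_of_det_zero {M : Matrix (Fin 6) (Fin 6) ℝ} (h : M.det = 0) :
    ∃ a : Fin 6 → ℝ, a ≠ 0 ∧ ∀ l, ∑ k, a k * M k l = 0 := by
  obtain ⟨a, ha, h2⟩ := Matrix.exists_vecMul_eq_zero_iff.2 h
  exact ⟨a, ha, fun l => congrFun h2 l⟩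

theorem det_zero_of_exists {M : Matrix (Fin 6) (Fin 6) ℝ} {a : Fin 6 → ℝ} (ha : a ≠ 0)
    (h : ∀ l, ∑ k, a k * M k l = 0) : M.det = 0 :=
  Matrix.exists_vecMul_eq_zero_iff.1 ⟨a, ha, funext fun l => h l⟩

/-- a zero of the determinant gives a functional with two multiple zeros -/
theorem exists_of_QQ {γ : ℝ → Fin 6 → ℝ} (hγ : ContDiff ℝ (⊤ : ℕ∞) γ) {j : ℕ} (hj : j ≤ 6)
    {t t' : ℝ} (h : (QQ γ j t t').det = 0) : ∃ a : Fin 6 → ℝ, a ≠ 0 ∧
      (∀ i < j, iteratedDeriv i (fun u => ∑ i, a i * γ u i) t = 0) ∧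
      ∀ i < 6 - j, iteratedDeriv i (fun u => ∑ i, a i * γ u i) t' = 0 := by
  obtain ⟨a, ha, h1⟩ := exists_of_det_zero h
  refine ⟨a, ha, fun i hi => ?_, fun i hi => ?_⟩
  · rw [iteratedDeriv_lin a hγ]
    have := h1 ⟨i, by omega⟩
    simpa [QQ, hi] using this
  · rw [iteratedDeriv_lin a hγ]
    have := h1 ⟨5 - i, by omega⟩
    have h2 : ¬ (5 - i < j) := by omega
    have h3 : 5 - (5 - i) = i := by omega
    simpa [QQ, h2, h3] using this

/-- the convexity hypothesis -/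
def Conv (γ : ℝ → Fin 6 → ℝ) (J : Set ℝ) : Prop :=
  ∀ a : Fin 6 → ℝ, a ≠ 0 → ∀ (s : Finset ℝ) (μ : ℝ → ℕ),
    (∀ t ∈ s, t ∈ J ∧ ∀ j < μ t, iteratedDeriv j (fun u => ∑ i, a i * γ u i) t = 0) →
      ∑ t ∈ s, μ t ≤ 5

theorem Conv.GG_ne {γ : ℝ → Fin 6 → ℝ} (hγ : ContDiff ℝ (⊤ : ℕ∞) γ) {J : Set ℝ}
    (h : Conv γ J) {t : ℝ} (ht : t ∈ J) : (GG γ t).det ≠ 0 := by
  intro h0
  obtain ⟨a, ha, h1⟩ := exists_of_det_zero h0
  have := h a ha {t} (fun _ => 6) (by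
    intro u hu
    rw [Finset.mem_singleton] at hu
    subst hu
    refine ⟨ht, fun j hj => ?_⟩
    rw [iteratedDeriv_lin a hγ]
    exact h1 ⟨j, hj⟩)
  simp at this

theorem Conv.QQ_ne {γ : ℝ → Fin 6 → ℝ} (hγ : ContDiff ℝ (⊤ : ℕ∞) γ) {J : Set ℝ}
    (h : Conv γ J) {t t' : ℝ} (ht : t ∈ J) (ht' : t' ∈ J) (htt : t < t') {j : ℕ} (hj : j ≤ 6) :
    (QQ γ j t t').det ≠ 0 := by
  intro h0
  obtain ⟨a, ha, h1, h2⟩ := exists_of_QQ hγ hj h0
  have := h a ha {t, t'} (fun u => if u = t then j else 6 - j) (by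
    intro u hu
    rw [Finset.mem_insert, Finset.mem_singleton] at hu
    rcases hu with hu | hu
    · subst hu
      refine ⟨ht, fun i hi => ?_⟩
      rw [if_pos rfl] at hi
      exact h1 i hi
    · subst hu
      refine ⟨ht', fun i hi => ?_⟩
      rw [if_neg htt.ne'] at hi
      exact h2 i hi)
  rw [Finset.sum_pair htt.ne, if_pos rfl, if_neg htt.ne'] at this
  omega

/-- local non-vanishing of the two-point determinants -/
theorem local_QQ {γ : ℝ → Fin 6 → ℝ} (hγ : ContDiff ℝ (⊤ : ℕ∞) γ) {b : ℝ}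
    (hb : (GG γ b).det ≠ 0) : ∃ δ > 0, ∀ t t', b - δ < t → t < t' → t' < b + δ →
      ∀ j ≤ 6, (QQ γ j t t').det ≠ 0 := by
  set F : (Fin 6 → ℝ) → ℝ := fun ξ =>
    (Matrix.of (fun k (l : Fin 6) => iteratedDeriv l γ (ξ l) k) : Matrix (Fin 6) (Fin 6) ℝ).det with hF
  have hFc : Continuous F := by
    refine Continuous.matrix_det ?_
    refine continuous_matrix fun k l => ?_
    have h2 : Continuous (iteratedDeriv (l : ℕ) γ) :=
      hγ.continuous_iteratedDeriv l (by exact_mod_cast le_top)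
    exact (continuous_apply k).comp (h2.comp (continuous_apply l))
  have hFb : F (fun _ => b) ≠ 0 := hb
  obtain ⟨δ, hδ, hball⟩ := Metric.eventually_nhds_iff_ball.1
    (hFc.continuousAt.eventually_ne hFb)
  refine ⟨δ, hδ, fun t t' h1 h2 h3 j hj h0 => ?_⟩
  obtain ⟨a, ha, h4, h5⟩ := exists_of_QQ hγ hj h0
  have hg : ContDiff ℝ (⊤ : ℕ∞) (fun u => ∑ i, a i * γ u i) :=
    ContDiff.sum fun i _ => contDiff_const.mul (contDiff_pi.1 hγ i)
  have h6 : ∀ l : Fin 6, ∃ ξ ∈ Icc t t', iteratedDeriv l (fun u => ∑ i, a i * γ u i) ξ = 0 :=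
    fun l => two_point hg h2 h4 h5 l (by have := l.isLt; omega)
  choose ξ hξ1 hξ2 using h6
  refine hball ξ ?_ ?_
  · rw [Metric.mem_ball, dist_pi_lt_iff hδ]
    intro l
    rw [Real.dist_eq, abs_lt]
    have := hξ1 l
    constructor <;> linarith [this.1, this.2]
  · refine det_zero_of_exists ha fun l => ?_
    have := hξ2 l
    rw [iteratedDeriv_lin a hγ] at this
    exact this

theorem continuous_QQ {γ : ℝ → Fin 6 → ℝ} (hγ : ContDiff ℝ (⊤ : ℕ∞) γ) (j : ℕ) :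
    Continuous fun z : ℝ × ℝ => (QQ γ j z.2 z.1).det := by
  refine Continuous.matrix_det ?_
  refine continuous_matrix fun k l => ?_
  have h2 : ∀ m : ℕ, Continuous (iteratedDeriv m γ) := fun m =>
    hγ.continuous_iteratedDeriv m (by exact_mod_cast le_top)
  by_cases h : (l : ℕ) < j
  · simp only [QQ, Matrix.of_apply, if_pos h]
    exact (continuous_apply k).comp ((h2 _).comp continuous_snd)
  · simp only [QQ, Matrix.of_apply, if_neg h]
    exact (continuous_apply k).comp ((h2 _).comp continuous_fst)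

/-- a point slightly to the right of the interval -/
theorem exists_right {γ : ℝ → Fin 6 → ℝ} (hγ : ContDiff ℝ (⊤ : ℕ∞) γ) {J : Set ℝ}
    (h : Conv γ J) {a b : ℝ} (hab : a < b) (hJ : Icc a b ⊆ J) :
    ∃ b', ∀ t ∈ Icc a b, ∀ j ≤ 6, (QQ γ j t b').det ≠ 0 := by
  have hbJ : b ∈ J := hJ (right_mem_Icc.2 hab.le)
  obtain ⟨δ, hδ, hloc⟩ := local_QQ hγ (h.GG_ne hγ hbJ)
  have h1 : ∀ᶠ b' in 𝓝 b, ∀ t ∈ Icc a (b - δ / 2), ∀ j ∈ Finset.range 7,
      (QQ γ j t b').det ≠ 0 := by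
    refine isCompact_Icc.eventually_forall_of_forall_eventually fun t ht => ?_
    refine (Finset.eventually_all _).2 fun j hj => ?_
    have htb : t < b := by linarith [ht.2]
    have h2 := h.QQ_ne hγ (hJ ⟨ht.1, htb.le⟩) hbJ htb
      (by have := Finset.mem_range.1 hj; omega : j ≤ 6)
    exact (continuous_QQ hγ j).continuousAt.eventually_ne h2
  have h3 : ∀ᶠ b' in 𝓝[>] b, b' ∈ Ioo b (b + δ) := Ioo_mem_nhdsGT (by linarith)
  obtain ⟨b', h4, h5⟩ := ((h1.filter_mono nhdsWithin_le_nhds).and h3).exists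
  refine ⟨b', fun t ht j hj => ?_⟩
  rcases le_or_gt t (b - δ / 2) with h6 | h6
  · exact h4 t ⟨ht.1, h6⟩ j (Finset.mem_range.2 (by omega))
  · exact hloc t b' (by linarith) (by linarith [ht.2, h5.1]) h5.2 j hj

/-- the flag of functionals dual to the reversed derivative frame at `b'` -/
noncomputable def A0 (γ : ℝ → Fin 6 → ℝ) (b' : ℝ) : Fin 6 → Fin 6 → ℝ :=
  fun i k => (QQ γ 0 0 b')⁻¹ i k

theorem QQ_zero (γ : ℝ → Fin 6 → ℝ) (t t' b' : ℝ) : QQ γ 0 t b' = QQ γ 0 t' b' := by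
  ext k l
  simp [QQ]

theorem mn_A0_ne {γ : ℝ → Fin 6 → ℝ} {t b' : ℝ} {j : ℕ} (h0 : (QQ γ 0 t b').det ≠ 0)
    (h : (QQ γ j t b').det ≠ 0) : mn (BB (A0 γ b') γ t) j ≠ 0 := by
  intro hz
  obtain ⟨x, hx, hx0⟩ := Matrix.exists_mulVec_eq_zero_iff.2 hz
  rw [QQ_zero γ t 0 b'] at h0
  set Q := QQ γ 0 0 b' with hQ
  set Γ := GG γ t with hΓ
  have hB : BB (A0 γ b') γ t = Q⁻¹ * Γ := BB_eq_mul (A0 γ b') γ t
  set y := BB (A0 γ b') γ t *ᵥ x with hy
  have hxge : ∀ i : Fin 6, j ≤ (i : ℕ) → x i = 0 := fun i hi => by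
    rw [← tr_mulVec_ge (BB (A0 γ b') γ t) hi x, hx0]; rfl
  have hylt : ∀ i : Fin 6, (i : ℕ) < j → y i = 0 := fun i hi => by
    have := tr_mulVec_lt (BB (A0 γ b') γ t) hi x
    rw [hx0] at this
    exact this.symm
  have hQy : Q *ᵥ y = Γ *ᵥ x := by
    rw [hy, hB, Matrix.mulVec_mulVec, ← Matrix.mul_assoc,
      Matrix.mul_nonsing_inv _ (isUnit_iff_ne_zero.2 h0), Matrix.one_mul]
  refine h (Matrix.exists_mulVec_eq_zero_iff.1
    ⟨fun l => if (l : ℕ) < j then x l else - y l, ?_, ?_⟩)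
  · intro hcon
    apply hx
    funext l
    by_cases hl : (l : ℕ) < j
    · have := congrFun hcon l
      simpa [hl] using this
    · rw [hxge l (not_lt.1 hl)]; rfl
  · funext k
    have h1 : (QQ γ j t b' *ᵥ fun l => if (l : ℕ) < j then x l else - y l) k =
        (Γ *ᵥ x) k - (Q *ᵥ y) k := by
      simp only [Matrix.mulVec, dotProduct]
      rw [← Finset.sum_sub_distrib]
      refine Finset.sum_congr rfl fun l _ => ?_
      by_cases hl : (l : ℕ) < j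
      · rw [hylt l hl]
        simp [QQ, hl, hΓ, GG]
      · rw [hxge l (not_lt.1 hl)]
        simp [QQ, hl, hQ]
    rw [h1, hQy, sub_self]
    rfl

/-- signs -/
noncomputable def sg (x : ℝ) : ℝ := if 0 < x then 1 else -1

theorem sg_mul_self (x : ℝ) : sg x * sg x = 1 := by
  unfold sg; split_ifs <;> norm_num

theorem sg_mul_pos {x : ℝ} (hx : x ≠ 0) : 0 < sg x * x := by
  unfold sg
  rcases lt_or_gt_of_ne hx with h | h
  · rw [if_neg (not_lt.2 h.le)]; linarith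
  · rw [if_pos h]; linarith

theorem prod_sg (s : ℕ → ℝ) (h0 : s 0 = 1) (h : ∀ i, s i * s i = 1) (j : ℕ) :
    ∏ i ∈ Finset.range j, (s i * s (i + 1)) = s j := by
  induction j with
  | zero => simp [h0]
  | succ j ih => rw [Finset.prod_range_succ, ih, ← mul_assoc, h, one_mul]

theorem prod_fin_ite (f : ℕ → ℝ) {j : ℕ} (hj : j ≤ 6) :
    ∏ i : Fin 6, (if (i : ℕ) < j then f i else 1) = ∏ i ∈ Finset.range j, f i := by
  rw [Fin.prod_univ_eq_prod_range (fun i => if i < j then f i else 1) 6]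
  interval_cases j <;> simp [Finset.prod_range_succ]

theorem mn_sign (A : Fin 6 → Fin 6 → ℝ) (γ : ℝ → Fin 6 → ℝ) (t : ℝ) (σ : ℕ → ℝ) {j : ℕ}
    (hj : j ≤ 6) : mn (BB (fun i k => σ i * A i k) γ t) j =
      (∏ i ∈ Finset.range j, σ i) * mn (BB A γ t) j := by
  rw [← prod_fin_ite _ hj]
  unfold mn
  rw [← Matrix.det_mul_column]
  congr 1
  ext i l
  simp only [tr, Matrix.of_apply, BB, pj]
  by_cases hi : (i : ℕ) < j
  · simp only [if_pos hi, Finset.mul_sum, mul_assoc]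
  · simp only [if_neg hi, one_mul]

theorem mn_zero (B : Matrix (Fin 6) (Fin 6) ℝ) : mn B 0 = 1 := by
  unfold mn
  have : tr B 0 = 1 := by
    ext i l
    simp [tr, Matrix.one_apply]
  rw [this, Matrix.det_one]

theorem exists_pos {A : Fin 6 → Fin 6 → ℝ} {γ : ℝ → Fin 6 → ℝ} (hγ : ContDiff ℝ (⊤ : ℕ∞) γ)
    {α β : ℝ} (hαβ : α ≤ β) (h : ∀ t ∈ Icc α β, ∀ j ≤ 6, mn (BB A γ t) j ≠ 0) :
    ∃ A' : Fin 6 → Fin 6 → ℝ, ∀ t ∈ Icc α β, Pos A' γ t := by
  set s : ℕ → ℝ := fun j => sg (mn (BB A γ α) j) with hs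
  have hs0 : s 0 = 1 := by
    simp only [hs, mn_zero, sg]; norm_num
  refine ⟨fun i k => (s i * s (i + 1)) * A i k, fun t ht => pos_iff.2 fun j hj => ?_⟩
  have h1 := mn_sign A γ t (fun i => s i * s (i + 1)) hj
  rw [prod_sg s hs0 (fun i => sg_mul_self _)] at h1
  rw [h1]
  have h2 : 0 < s j * mn (BB A γ α) j := sg_mul_pos (h α (left_mem_Icc.2 hαβ) j hj)
  by_contra hcon
  rw [not_lt] at hcon
  have hc : ContinuousOn (fun u => s j * mn (BB A γ u) j) (Icc α β) :=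
    (continuous_const.mul (continuous_mn_BB A hγ j)).continuousOn
  obtain ⟨u, hu, hu0⟩ := isPreconnected_Icc.intermediate_value ht (left_mem_Icc.2 hαβ) hc
    ⟨hcon, h2.le⟩
  have h3 : s j ≠ 0 := left_ne_zero_of_mul h2.ne'
  exact mul_ne_zero h3 (h u hu j hj) hu0

/-- a flag of functionals positive on a neighbourhood of the interval to the left -/
theorem exists_flag {γ : ℝ → Fin 6 → ℝ} (hγ : ContDiff ℝ (⊤ : ℕ∞) γ) {J : Set ℝ}
    (h : Conv γ J) {a b : ℝ} (hab : a < b) (hJ : Icc a b ⊆ J) :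
    ∃ α < a, ∃ A : Fin 6 → Fin 6 → ℝ, ∀ t ∈ Icc α b, Pos A γ t := by
  obtain ⟨b', hb'⟩ := exists_right hγ h hab hJ
  have h1 : ∀ t ∈ Icc a b, ∀ j ≤ 6, mn (BB (A0 γ b') γ t) j ≠ 0 := fun t ht j hj =>
    mn_A0_ne (hb' t ht 0 (by norm_num)) (hb' t ht j hj)
  have h2 : ∀ᶠ t in 𝓝[<] a, ∀ j ∈ Finset.range 7, mn (BB (A0 γ b') γ t) j ≠ 0 := by
    refine (Finset.eventually_all _).2 fun j hj => ?_
    exact ((continuous_mn_BB (A0 γ b') hγ j).continuousAt.eventually_ne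
      (h1 a (left_mem_Icc.2 hab.le) j (by have := Finset.mem_range.1 hj; omega))).filter_mono
      nhdsWithin_le_nhds
  obtain ⟨l, hl, hlsub⟩ := (mem_nhdsLT_iff_exists_Ioo_subset).1 h2
  have hla : l < a := hl
  refine ⟨(l + a) / 2, by linarith, ?_⟩
  refine exists_pos (A := A0 γ b') hγ (by linarith) fun t ht j hj => ?_
  rcases le_or_gt a t with h3 | h3
  · exact h1 t ⟨h3, ht.2⟩ j hj
  · exact hlsub (⟨by linarith [ht.1], h3⟩ : t ∈ Ioo l a) j (Finset.mem_range.2 (by omega))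

end Run7.h861
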