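import Mathlib
import Pool.Agent.Run7.h861.Split

set_option autoImplicit false

/-!
# Projection along a three-dimensional subspace
-/

namespace Run7.h861

open Matrix

theorem exists_extend {l : Fin 3 → Fin 6 → ℝ} (hl : LinearIndependent ℝ l) :
    ∃ b : Fin 3 → Fin 6 → ℝ, LinearIndependent ℝ (Fin.append b l : Fin 6 → Fin 6 → ℝ) := by
  obtain ⟨z, hz⟩ := exists_linearIndependent_cons_of_lt_finrank hl (by simp)
  obtain ⟨y, hy⟩ := exists_linearIndependent_cons_of_lt_finrank hz (by simp)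
  obtain ⟨x, hx⟩ := exists_linearIndependent_cons_of_lt_finrank hy (by simp)
  refine ⟨![x, y, z], ?_⟩
  have e : (Fin.append ![x, y, z] l : Fin 6 → Fin 6 → ℝ) = Fin.cons x (Fin.cons y (Fin.cons z l)) := by
    funext i
    fin_cases i <;> rfl
  rw [e]
  exact hx

/-- the projection -/
theorem exists_P {l : Fin 3 → Fin 6 → ℝ} (hl : LinearIndependent ℝ l) :
    ∃ P : Fin 3 → Fin 6 → ℝ, (∃ C : ℝ, C ≠ 0 ∧ ∀ v : Fin 3 → Fin 6 → ℝ,
      (Matrix.of (fun (i c : Fin 6) => (Fin.append v l : Fin 6 → Fin 6 → ℝ) c i)).det =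
        C * detR (fun c => pj P (v c))) ∧ ∀ y : Fin 3 → ℝ, ∃ x, pj P x = y := by
  obtain ⟨b, hb⟩ := exists_extend hl
  set u : Fin 6 → Fin 6 → ℝ := Fin.append b l with hu
  set M : Matrix (Fin 6) (Fin 6) ℝ := Matrix.of (fun (i c : Fin 6) => u c i) with hM
  have hdet : M.det ≠ 0 := by
    have h1 : detR u ≠ 0 := detR_ne_zero_iff.2 hb
    rw [← Matrix.det_transpose]
    exact h1
  have hdetu : IsUnit M.det := isUnit_iff_ne_zero.2 hdet
  have hTM : M⁻¹ * M = 1 := Matrix.nonsing_inv_mul _ hdetu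
  have hMT : M * M⁻¹ = 1 := Matrix.mul_nonsing_inv _ hdetu
  have hTdet : M⁻¹.det ≠ 0 := by
    intro h0
    have := congrArg Matrix.det hTM
    rw [Matrix.det_mul, h0, zero_mul, Matrix.det_one] at this
    exact zero_ne_one this
  set P : Fin 3 → Fin 6 → ℝ := fun r k => M⁻¹ (Fin.castAdd 3 r) k with hP
  refine ⟨P, ⟨(M⁻¹.det)⁻¹, inv_ne_zero hTdet, fun v => ?_⟩, fun y => ?_⟩
  · set V : Matrix (Fin 6) (Fin 6) ℝ :=
      Matrix.of (fun (i c : Fin 6) => (Fin.append v l : Fin 6 → Fin 6 → ℝ) c i) with hV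
    set N : Matrix (Fin 3) (Fin 3) ℝ := Matrix.of (fun r a => pj P (v a) r) with hN
    have h1 : (M⁻¹ * V).submatrix (finSumFinEquiv (m := 3) (n := 3)) (finSumFinEquiv (m := 3) (n := 3)) =
        Matrix.fromBlocks N 0 (Matrix.of (fun i a => (M⁻¹ * V) (Fin.natAdd 3 i) (Fin.castAdd 3 a))) 1 := by
      have hcol : ∀ (i : Fin 6) (j : Fin 3), (M⁻¹ * V) i (Fin.natAdd 3 j) =
          (1 : Matrix (Fin 6) (Fin 6) ℝ) i (Fin.natAdd 3 j) := by
        intro i j
        rw [← hTM, Matrix.mul_apply, Matrix.mul_apply]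
        refine Finset.sum_congr rfl fun k _ => ?_
        congr 1
        simp only [hV, hM, hu, Matrix.of_apply]
        rw [Fin.append_right, Fin.append_right]
      ext i c
      rcases i with i | i <;> rcases c with c | c
      · simp only [Matrix.submatrix_apply, finSumFinEquiv_apply_left, Matrix.fromBlocks_apply₁₁]
        rw [Matrix.mul_apply]
        simp only [hN, hV, Matrix.of_apply, pj, hP]
        refine Finset.sum_congr rfl fun k _ => ?_
        rw [Fin.append_left]
      · simp only [Matrix.submatrix_apply, finSumFinEquiv_apply_left, finSumFinEquiv_apply_right,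
          Matrix.fromBlocks_apply₁₂]
        rw [hcol, Matrix.one_apply_ne]
        · rfl
        · intro h
          have := congrArg Fin.val h
          simp at this
          have := i.isLt
          omega
      · simp only [Matrix.submatrix_apply, finSumFinEquiv_apply_left, finSumFinEquiv_apply_right,
          Matrix.fromBlocks_apply₂₁, Matrix.of_apply]
      · simp only [Matrix.submatrix_apply, finSumFinEquiv_apply_right,
          Matrix.fromBlocks_apply₂₂]
        rw [hcol]
        by_cases hic : i = c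
        · subst hic; rw [Matrix.one_apply_eq, Matrix.one_apply_eq]
        · rw [Matrix.one_apply_ne, Matrix.one_apply_ne hic]
          intro h
          apply hic
          have := congrArg Fin.val h
          simp at this
          exact Fin.ext this
    have h2 := congrArg Matrix.det h1
    rw [Matrix.det_submatrix_equiv_self, Matrix.det_fromBlocks_zero₁₂, Matrix.det_one, mul_one,
      Matrix.det_mul] at h2
    have h3 : detR (fun c => pj P (v c)) = N.det := by
      unfold detR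
      rw [← Matrix.det_transpose]
      rfl
    rw [h3, ← h2]
    field_simp
  · set y0 : Fin 6 → ℝ := Fin.append y (fun _ : Fin 3 => (0 : ℝ)) with hy0
    refine ⟨M *ᵥ y0, ?_⟩
    funext r
    have h1 : pj P (M *ᵥ y0) r = (M⁻¹ *ᵥ (M *ᵥ y0)) (Fin.castAdd 3 r) := rfl
    rw [h1, Matrix.mulVec_mulVec, hTM, Matrix.one_mulVec, hy0, Fin.append_left]

/-- pivots exist -/
theorem exists_span {P : Fin 3 → Fin 6 → ℝ} (hP : ∀ y : Fin 3 → ℝ, ∃ x, pj P x = y)
    {γ : ℝ → Fin 6 → ℝ} (hγ : ContDiff ℝ (⊤ : ℕ∞) γ) {τ : ℝ}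
    (hΓ : (Matrix.of (fun k (l : Fin 6) => iteratedDeriv l γ τ k)).det ≠ 0) :
    ∃ I : Fin 3 → ℕ, (∀ c, I c < 6) ∧ Dw (wP P γ) I τ ≠ 0 := by
  set Γ : Matrix (Fin 6) (Fin 6) ℝ := Matrix.of (fun k (l : Fin 6) => iteratedDeriv l γ τ k) with hG
  set v : Fin 6 → Fin 3 → ℝ := fun l => pj P (iteratedDeriv l γ τ) with hv
  have hspan : Submodule.span ℝ (Set.range v) = ⊤ := by
    rw [Submodule.eq_top_iff']
    intro y
    obtain ⟨x, hx⟩ := hP y
    rw [Submodule.mem_span_range_iff_exists_fun]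
    refine ⟨Γ⁻¹ *ᵥ x, ?_⟩
    rw [← hx]
    funext r
    have h1 : Γ *ᵥ (Γ⁻¹ *ᵥ x) = x := by
      rw [Matrix.mulVec_mulVec, Matrix.mul_nonsing_inv _ (isUnit_iff_ne_zero.2 hΓ), Matrix.one_mulVec]
    have h2 : pj P x r = ∑ k, P r k * (Γ *ᵥ (Γ⁻¹ *ᵥ x)) k := by rw [h1]; rfl
    rw [h2]
    simp only [Finset.sum_apply, Pi.smul_apply, smul_eq_mul, hv, pj, Finset.mul_sum]
    conv_rhs => enter [2, k]; rw [Matrix.mulVec, dotProduct, Finset.mul_sum]
    rw [Finset.sum_comm]
    refine Finset.sum_congr rfl fun l _ => Finset.sum_congr rfl fun k _ => ?_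
    simp only [hG, Matrix.of_apply]
    ring
  obtain ⟨κ, a, ha, hspan2, hli⟩ := exists_linearIndependent' ℝ v
  have : Fintype κ := Fintype.ofInjective a ha
  have hcard : Fintype.card κ = 3 := by
    have h1 := linearIndependent_iff_card_eq_finrank_span.1 hli
    rw [h1, Set.finrank, hspan2, hspan]
    simp
  set e := (Fintype.equivFinOfCardEq hcard).symm with he
  refine ⟨fun c => (a (e c) : ℕ), fun c => (a (e c)).isLt, ?_⟩
  unfold Dw
  simp only [iteratedDeriv_wP _ hγ]
  exact detR_ne_zero_iff.2 (hli.comp e e.injective)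

end Run7.h861
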