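import Mathlib
import Pool.Agent.Run7.h861.Base
import Pool.Agent.Run7.h861.LinP

set_option autoImplicit false

/-!
# The chain of steps
-/

namespace Run7.h861

open Topology Filter Set Matrix

/-- the Wronskian type function -/
noncomputable def WW (P : Fin 3 → Fin 6 → ℝ) (γ : ℝ → Fin 6 → ℝ) (t : ℝ) : ℝ :=
  Dw (wP P γ) (fun c => (c : ℕ)) t

theorem det3_of_WW {P : Fin 3 → Fin 6 → ℝ} {γ : ℝ → Fin 6 → ℝ} (hγ : ContDiff ℝ (⊤ : ℕ∞) γ)
    {t : ℝ} (h : WW P γ t ≠ 0) : det3 (pj P (iteratedDeriv 0 γ t)) (pj P (iteratedDeriv 1 γ t))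
      (pj P (iteratedDeriv 2 γ t)) ≠ 0 := by
  unfold WW Dw at h
  rw [detR_three] at h
  simp only [iteratedDeriv_wP _ hγ] at h
  exact h

theorem GG_of_pos {A : Fin 6 → Fin 6 → ℝ} {γ : ℝ → Fin 6 → ℝ} {t : ℝ} (h : Pos A γ t) :
    (Matrix.of (fun k (l : Fin 6) => iteratedDeriv l γ t k)).det ≠ 0 := by
  have h1 := (h 6).ne'
  have h2 : mn (BB A γ t) 6 = (BB A γ t).det := mn_last (BB A γ t)
  rw [h2, BB_eq_mul, Matrix.det_mul] at h1
  exact right_ne_zero_of_mul h1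

section chain

variable {A : Fin 6 → Fin 6 → ℝ} {γ : ℝ → Fin 6 → ℝ} (hγ : ContDiff ℝ (⊤ : ℕ∞) γ) {α b : ℝ}
  (hA : ∀ t ∈ Icc α b, Pos A γ t)

include hγ hA

theorem reach_sub (P : Fin 3 → Fin 6 → ℝ) {t t' : ℝ} (h1 : α ≤ t) (h2 : t < t') (h3 : t' ≤ b) :
    Reach (cfg A P γ t) (cfg A P γ t') :=
  reach_cfg hγ P h2 fun u hu => hA u ⟨h1.trans hu.1, hu.2.trans h3⟩

theorem step_signs (P : Fin 3 → Fin 6 → ℝ) (s : ℕ → ℝ) (m : ℕ)
    (hs : ∀ i ≤ m, α ≤ s i ∧ s i ≤ b) (hlt : ∀ i < m, s i < s (i + 1))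
    (hsgn : ∀ i < m, WW P γ (s i) * WW P γ (s (i + 1)) < 0) :
    ∀ i ≤ m, Step (cfg A P γ (s 0)) (cfg A P γ (s i)) i := by
  intro i
  induction i with
  | zero => intro _; exact step_of_reach (Reach.refl _)
  | succ i ih =>
    intro hi
    refine (ih (by omega)).trans (step_of_reach_sign
      (reach_sub hγ hA P (hs i (by omega)).1 (hlt i (by omega)) (hs (i + 1) hi).2) ?_)
    obtain ⟨κ, hκ, e1⟩ := q_zero_cfg hγ P (hA _ (hs i (by omega)))
    obtain ⟨κ', hκ', e2⟩ := q_zero_cfg hγ P (hA _ (hs (i + 1) hi))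
    rw [e1, e2]
    have := hsgn i (by omega)
    unfold WW at this
    have e : κ * Dw (wP P γ) (fun c => (c : ℕ)) (s i) *
        (κ' * Dw (wP P γ) (fun c => (c : ℕ)) (s (i + 1))) = (κ * κ') *
        (Dw (wP P γ) (fun c => (c : ℕ)) (s i) * Dw (wP P γ) (fun c => (c : ℕ)) (s (i + 1))) := by
      ring
    rw [e]
    exact mul_neg_of_pos_of_neg (mul_pos hκ hκ') this

/-- the step over a zero -/
theorem split_step {P : Fin 3 → Fin 6 → ℝ} {τ : ℝ} (hτ : τ ≤ b) {η : ℝ} (hη : 0 < η)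
    (hατ : α ≤ τ - η) {I : Fin 3 → ℕ} (hI : TypeS (wP P γ) τ I) (hI6 : ∀ c, I c < 6) {m : ℕ}
    (hm : (∑ c : Fin 3, (c : ℕ)) + m = ∑ c, I c) {U : Set (Fin 3 → Fin 6 → ℝ)}
    (hU : IsOpen U) (hP : P ∈ U) :
    ∃ P' ∈ U, ∃ t, τ - η < t ∧ t < τ ∧ Step (cfg A P' γ (τ - η)) (cfg A P' γ t) m := by
  have hτmem : τ ∈ Icc α b := ⟨by linarith, hτ⟩
  have hΓ := GG_of_pos (hA τ hτmem)
  have hφ : ∀ i < 6, ∃ φ : Fin 6 → ℝ, ∀ l < 6,
      ∑ j, φ j * iteratedDeriv l γ τ j = if l = i then 1 else 0 := by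
    intro i hi
    set Γ : Matrix (Fin 6) (Fin 6) ℝ := Matrix.of (fun k (l : Fin 6) => iteratedDeriv l γ τ k) with hG
    refine ⟨fun j => Γ⁻¹ ⟨i, hi⟩ j, fun l hl => ?_⟩
    have h1 : Γ⁻¹ * Γ = 1 := Matrix.nonsing_inv_mul _ (isUnit_iff_ne_zero.2 hΓ)
    have h2 := congrFun (congrFun h1 ⟨i, hi⟩) ⟨l, hl⟩
    rw [Matrix.mul_apply] at h2
    simp only [hG, Matrix.of_apply] at h2
    rw [h2, Matrix.one_apply]
    by_cases hil : l = i
    · subst hil; simp
    · rw [if_neg hil, if_neg]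
      intro h; exact hil (congrArg Fin.val h).symm
  obtain ⟨P', hP', s, hs1, hs2, hs3⟩ := exists_split hγ hφ m P I hI hI6 hm U hU hP η hη
  refine ⟨P', hP', s m, (hs1 m le_rfl).1, (hs1 m le_rfl).2, ?_⟩
  have hbd : ∀ i ≤ m, α ≤ s i ∧ s i ≤ b := fun i hi =>
    ⟨by linarith [(hs1 i hi).1], by linarith [(hs1 i hi).2]⟩
  have h1 := step_signs hγ hA P' s m hbd hs2 (fun i hi => ?_) m le_rfl
  · have h2 := step_of_reach (reach_sub hγ hA P' hατ (hs1 0 (Nat.zero_le _)).1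
      (hbd 0 (Nat.zero_le _)).2)
    have := h2.trans h1
    rwa [zero_add] at this
  · have h3 := hs3 i hi.le
    have h4 := hs3 (i + 1) hi
    unfold WW
    have e1 : m - i = (m - (i + 1)) + 1 := by omega
    rw [e1, pow_succ] at h3
    set x := Dw (wP P' γ) (fun c => (c : ℕ)) (s i)
    set y := Dw (wP P' γ) (fun c => (c : ℕ)) (s (i + 1))
    set D := Dw (wP P γ) I τ
    set e := (-1 : ℝ) ^ (m - (i + 1))
    have h5 := mul_pos h3 h4
    have e2 : e * -1 * x * D * (e * y * D) = -(e ^ 2 * D ^ 2) * (x * y) := by ring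
    rw [e2] at h5
    by_contra hcon
    rw [not_lt] at hcon
    have h6 : 0 ≤ e ^ 2 * D ^ 2 * (x * y) := by positivity
    linarith

end chain

theorem main_bound {γ : ℝ → Fin 6 → ℝ} (hγ : ContDiff ℝ (⊤ : ℕ∞) γ) {J : Set ℝ}
    (hJ : J.OrdConnected) (hc : Conv γ J) (P : Fin 3 → Fin 6 → ℝ) (s : Finset ℝ)
    (hs : ∀ τ ∈ s, τ ∈ J) (I : ℝ → Fin 3 → ℕ) (m : ℝ → ℕ)
    (hI : ∀ τ ∈ s, TypeS (wP P γ) τ (I τ)) (hI6 : ∀ τ ∈ s, ∀ c, I τ c < 6)
    (hm : ∀ τ ∈ s, (∑ c : Fin 3, (c : ℕ)) + m τ = ∑ c, I τ c) : ∑ τ ∈ s, m τ ≤ 9 := by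
  classical
  rcases s.eq_empty_or_nonempty with h0 | hne
  · subst h0; simp
  set a := s.min' hne with ha
  set b := s.max' hne with hb
  have has : a ∈ s := s.min'_mem hne
  have hbs : b ∈ s := s.max'_mem hne
  rcases eq_or_lt_of_le (s.min'_le b hbs) with hab | hab
  · -- a single point
    have h1 : s = {b} := by
      refine Finset.eq_singleton_iff_unique_mem.2 ⟨hbs, fun x hx => ?_⟩
      have h2 := s.min'_le x hx
      have h3 := s.le_max' x hx
      rw [hab] at h2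
      exact le_antisymm h3 h2
    rw [h1, Finset.sum_singleton]
    have h2 := hm b hbs
    have h3 := hI6 b hbs 2
    have h4 := (hI b hbs).mono (show (1 : Fin 3) < 2 by decide)
    have h5 := (hI b hbs).mono (show (0 : Fin 3) < 1 by decide)
    rw [Fin.sum_univ_three, Fin.sum_univ_three] at h2
    simp at h2
    omega
  · have hIcc : Icc a b ⊆ J := hJ.out (hs a has) (hs b hbs)
    obtain ⟨α, hα, A1, hA1⟩ := exists_flag hγ hc hab hIcc
    -- choice of the gap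
    have e1 : ∀ᶠ η in 𝓝[>] (0 : ℝ), α < a - η := by
      have : Tendsto (fun η : ℝ => a - η) (𝓝[>] 0) (𝓝 a) := by
        have h : Tendsto (fun η : ℝ => a - η) (𝓝 0) (𝓝 (a - 0)) := by
          apply Continuous.tendsto; fun_prop
        rw [sub_zero] at h
        exact h.mono_left nhdsWithin_le_nhds
      exact this.eventually (lt_mem_nhds hα)
    have e2 : ∀ᶠ η in 𝓝[>] (0 : ℝ), ∀ τ ∈ s, ∀ τ' ∈ s, τ < τ' → τ < τ' - η := by
      refine (Finset.eventually_all _).2 fun τ _ => (Finset.eventually_all _).2 fun τ' _ => ?_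
      by_cases hττ : τ < τ'
      · have : Tendsto (fun η : ℝ => τ' - η) (𝓝[>] 0) (𝓝 τ') := by
          have h : Tendsto (fun η : ℝ => τ' - η) (𝓝 0) (𝓝 (τ' - 0)) := by
            apply Continuous.tendsto; fun_prop
          rw [sub_zero] at h
          exact h.mono_left nhdsWithin_le_nhds
        filter_upwards [this.eventually (lt_mem_nhds hττ)] with η hη _ using hη
      · exact Eventually.of_forall fun η h => absurd h hττ
    have e3 : ∀ᶠ η in 𝓝[>] (0 : ℝ), ∀ τ ∈ s, WW P γ (τ - η) ≠ 0 := by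
      refine (Finset.eventually_all _).2 fun τ hτ => ?_
      have h1 := (hI τ hτ).exists_sign (contDiff_wP P hγ) (hm τ hτ)
      have h2 : Tendsto (fun η : ℝ => τ - η) (𝓝[>] 0) (𝓝[<] τ) := by
        refine tendsto_nhdsWithin_iff.2 ⟨?_, ?_⟩
        · have h : Tendsto (fun η : ℝ => τ - η) (𝓝 0) (𝓝 (τ - 0)) := by
            apply Continuous.tendsto; fun_prop
          rw [sub_zero] at h
          exact h.mono_left nhdsWithin_le_nhds
        · filter_upwards [self_mem_nhdsWithin] with η hη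
          have : (0 : ℝ) < η := hη
          show τ - η < τ
          linarith
      filter_upwards [h2.eventually h1] with η hη h0
      unfold WW at h0
      rw [h0] at hη
      simp at hη
    obtain ⟨η, ⟨⟨⟨hη1, hη2⟩, hη3⟩, hη4⟩⟩ := (((e1.and e2).and e3).and self_mem_nhdsWithin).exists
    have hη : 0 < η := hη4
    have hmemI : ∀ τ ∈ s, α ≤ τ - η ∧ τ ≤ b := fun τ hτ =>
      ⟨by linarith [s.min'_le τ hτ], s.le_max' τ hτ⟩
    -- generic flag
    obtain ⟨U, hUsub, hU, hA1U⟩ := eventually_nhds_iff.1 (eventually_pos hγ hA1)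
    obtain ⟨A, hAU, hgoodN⟩ := exists_generic P (γ := γ) (s.image fun τ => τ - η)
      (fun t ht => by
        obtain ⟨τ, hτ, rfl⟩ := Finset.mem_image.1 ht
        exact GG_of_pos (hA1 _ ⟨(hmemI τ hτ).1, by linarith [(hmemI τ hτ).2]⟩))
      (fun t ht => by
        obtain ⟨τ, hτ, rfl⟩ := Finset.mem_image.1 ht
        exact det3_of_WW hγ (hη3 τ hτ)) hU ⟨A1, hA1U⟩
    have hA : ∀ t ∈ Icc α b, Pos A γ t := hUsub A hAU
    have hgood : ∀ τ ∈ s, Good (cfg A P γ (τ - η)) := fun τ hτ =>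
      (good_cfg_iff (fun a => (hA _ ⟨(hmemI τ hτ).1, by linarith [(hmemI τ hτ).2]⟩ _).ne')).2
        (hgoodN _ (Finset.mem_image_of_mem _ hτ))
    -- neighbourhood of P with constant codes
    have hUP : IsOpen (⋂ τ ∈ s, (fun P' : Fin 3 → Fin 6 → ℝ => cfg A P' γ (τ - η)) ⁻¹'
        nb1 (cfg A P γ (τ - η))) :=
      isOpen_biInter_finset fun τ _ => (isOpen_nb1 _).preimage (continuous_cfg_P A γ _)
    have hPU : P ∈ (⋂ τ ∈ s, (fun P' : Fin 3 → Fin 6 → ℝ => cfg A P' γ (τ - η)) ⁻¹'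
        nb1 (cfg A P γ (τ - η))) := by
      refine mem_iInter₂.2 fun τ hτ => ?_
      exact mem_nb1_self (hgood τ hτ)
    have key : ∀ τ ∈ s, Lv (m τ) (code (cfg A P γ (τ - η))) ∧ ∀ τ' ∈ s, τ < τ' → ∀ l,
        Lv l (code (cfg A P γ (τ' - η))) → Lv (l + m τ) (code (cfg A P γ (τ - η))) := by
      intro τ hτ
      obtain ⟨P', hP', t, ht1, ht2, hst⟩ := split_step hγ hA (hmemI τ hτ).2 hη (hmemI τ hτ).1
        (hI τ hτ) (hI6 τ hτ) (hm τ hτ) hUP hPU
      have hnb : ∀ τ' ∈ s, cfg A P' γ (τ' - η) ∈ nb1 (cfg A P γ (τ' - η)) := fun τ' hτ' =>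
        mem_iInter₂.1 hP' τ' hτ'
      constructor
      · obtain ⟨V, hV, hXV, h1⟩ := hst univ isOpen_univ (mem_univ _)
        obtain ⟨Y, _, hYg, h2⟩ := h1 _ hXV (good_of_nb1 (hnb τ hτ))
        have h3 := h2 0 (Lv.zero (code_lt Y) (validC_code hYg))
        rw [zero_add, code_of_nb1 (hnb τ hτ)] at h3
        exact h3
      · intro τ' hτ' hlt l hl
        have h4 : t < τ' - η := lt_trans ht2 (hη2 τ hτ τ' hτ' hlt)
        have h5 := hst.trans (step_of_reach (reach_sub hγ hA P'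
          (by linarith [(hmemI τ hτ).1]) h4 (by linarith [(hmemI τ' hτ').2])))
        rw [add_zero] at h5
        have h6 := h5.good (good_of_nb1 (hnb τ hτ)) (good_of_nb1 (hnb τ' hτ'))
          (l := l) (by rw [code_of_nb1 (hnb τ' hτ')]; exact hl)
        rw [code_of_nb1 (hnb τ hτ)] at h6
        exact h6
    have fin : ∀ Z : Finset ℝ, Z ⊆ s → Z.Nonempty → ∃ τ ∈ Z, (∀ x ∈ Z, τ ≤ x) ∧
        Lv (∑ x ∈ Z, m x) (code (cfg A P γ (τ - η))) := by
      intro Z
      induction Z using Finset.induction_on_min with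
      | empty => intro _ h; exact absurd h (by simp)
      | insert x Z hx ih =>
        intro hsub _
        have hxs : x ∈ s := hsub (Finset.mem_insert_self _ _)
        have hxZ : x ∉ Z := fun h => lt_irrefl x (hx x h)
        refine ⟨x, Finset.mem_insert_self _ _, ?_, ?_⟩
        · intro y hy
          rcases Finset.mem_insert.1 hy with h | h
          · exact h.ge
          · exact (hx y h).le
        · rw [Finset.sum_insert hxZ]
          rcases Z.eq_empty_or_nonempty with h1 | h1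
          · subst h1
            simpa using (key x hxs).1
          · obtain ⟨τ, hτ, _, h2⟩ := ih (fun y hy => hsub (Finset.mem_insert_of_mem hy)) h1
            have h3 := (key x hxs).2 τ (hsub (Finset.mem_insert_of_mem hτ)) (hx τ hτ) _ h2
            rwa [add_comm] at h3
    obtain ⟨τ, _, _, h1⟩ := fin s (Finset.Subset.refl s) hne
    by_contra hcon
    exact not_Lv_ten _ (h1.mono (by omega))

end Run7.h861
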